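import Pool.Agent.Lib.MP_732f67_ag.V.EvK1

/-!
# Project KM, part V: polynomials over subrings of the complex numbers, and their reductions
-/

set_option autoImplicit false

namespace Pool.Agent.Lib.MP_732f67_ag.V

open MvPolynomial
open Pool.Agent.Lib.MP_0b721b_ag.St (Hom)
open Pool.Agent.KM

/-- a subring generated by a finite set is noetherian -/
theorem noeth_closure {K : Type*} [CommRing K] (S : Finset K) :
    IsNoetherianRing (Subring.closure (S : Set K)) := by
  classical
  let g : S → Subring.closure (S : Set K) := fun s => ⟨s, Subring.subset_closure s.2⟩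
  let φ : MvPolynomial S ℤ →+* Subring.closure (S : Set K) :=
    MvPolynomial.eval₂Hom (Int.castRingHom _) g
  refine isNoetherianRing_of_surjective (MvPolynomial S ℤ) _ φ ?_
  rintro ⟨x, hx⟩
  have h : ∀ x (hx : x ∈ Subring.closure (S : Set K)), ∃ a, φ a = ⟨x, hx⟩ := by
    intro x hx
    induction hx using Subring.closure_induction with
    | mem x hx => exact ⟨X ⟨x, hx⟩, MvPolynomial.eval₂_X _ _ _⟩
    | zero => exact ⟨0, map_zero φ⟩
    | one => exact ⟨1, map_one φ⟩
    | add x y _ _ hx hy =>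
      obtain ⟨a, ha⟩ := hx
      obtain ⟨b, hb⟩ := hy
      exact ⟨a + b, by rw [map_add, ha, hb]; rfl⟩
    | neg x _ hx =>
      obtain ⟨a, ha⟩ := hx
      exact ⟨-a, by rw [map_neg, ha]; rfl⟩
    | mul x y _ _ hx hy =>
      obtain ⟨a, ha⟩ := hx
      obtain ⟨b, hb⟩ := hy
      exact ⟨a * b, by rw [map_mul, ha, hb]; rfl⟩
  exact h x hx

variable {L : Type} [Field L] [Algebra ℂ L] {N : ℕ}

/-- a polynomial with coefficients in a subring -/
theorem exists_lift (B : Subring ℂ) (P : MvPolynomial (Fin N) ℂ) (hP : ∀ d ∈ P.support, P.coeff d ∈ B) :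
    ∃ P' : MvPolynomial (Fin N) B, MvPolynomial.map B.subtype P' = P := by
  classical
  refine ⟨∑ d ∈ P.support.attach, monomial d.1 (⟨P.coeff d.1, hP d.1 d.2⟩ : B), ?_⟩
  rw [map_sum]
  simp only [map_monomial, Subring.subtype_apply]
  conv_rhs => rw [← MvPolynomial.support_sum_monomial_coeff P]
  exact Finset.sum_attach P.support (fun d => monomial d (P.coeff d))

theorem hom_lift {B : Subring ℂ} {P' : MvPolynomial (Fin N) B} {n : ℤ}
    (h : Hom ℂ N n (MvPolynomial.map B.subtype P')) : Hom B N n P' := by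
  intro d hd
  refine h d ?_
  rw [mem_support_iff] at hd ⊢
  rw [coeff_map]
  intro h0
  exact hd (Subtype.ext h0)

theorem aeval_lift {B : Subring ℂ} (P' : MvPolynomial (Fin N) B) (z : Fin N → L) :
    (aeval z (MvPolynomial.map B.subtype P') : L) = aeval z P' := by
  induction P' using MvPolynomial.induction_on with
  | C a =>
    rw [map_C, aeval_C, aeval_C]
    rfl
  | add p q hp hq => rw [map_add, map_add, hp, hq, map_add]
  | mul_X p i hp => rw [map_mul, map_X, map_mul, hp, aeval_X, map_mul, aeval_X]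

variable {n : ℕ} {t : Fin n → L} {y : L}

/-- the reduction of the value of a polynomial -/
theorem r_aeval (R : Pool.Agent.KM.Red L t y) {B : Subring ℂ} (hB : B ≤ R.C) {z : Fin N → L}
    (hz : ∀ j, z j ∈ R.Λ) (P : MvPolynomial (Fin N) B) :
    (aeval z P : L) ∈ R.Λ ∧
      R.r (aeval z P) = aeval (fun j => R.r (z j)) (MvPolynomial.map (R.ψB B hB) P) := by
  induction P using MvPolynomial.induction_on with
  | C a =>
    rw [map_C, aeval_C, aeval_C]
    exact ⟨hB a.2, R.ψ_spec ⟨a.1, hB a.2⟩⟩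
  | add p q hp hq =>
    rw [map_add, map_add, map_add]
    exact ⟨R.Λ.add_mem hp.1 hq.1, by rw [R.r_add hp.1 hq.1, hp.2, hq.2]⟩
  | mul_X p i hp =>
    rw [map_mul, map_mul, map_mul, map_X, aeval_X, aeval_X]
    exact ⟨R.Λ.mul_mem hp.1 (hz i), by rw [R.r_mul hp.1 (hz i), hp.2]⟩

end Pool.Agent.Lib.MP_732f67_ag.V
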