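import Pool.Agent.Lib.MP_732f67_ag.V.EvA
import Pool.Agent.Lib.MP_732f67_ag.V.EvK2
import Pool.Agent.Lib.MP_0b721b_ag.P7

/-!
# Project KM, part V: the relations over the prime field are the reductions of the relations over `ℂ`
-/

set_option autoImplicit false

namespace Pool.Agent.Lib.MP_732f67_ag.V

open MvPolynomial
open Pool.Agent.Lib.MP_0b721b_ag.St (Hom)
open Pool.Agent.Lib.MP_0b721b_ag (fib IB qi)
open Pool.Agent.KM

variable {L : Type} [Field L] [Algebra ℂ L] {n : ℕ} {t : Fin n → L} {y : L} {N : ℕ} {Λ : Type}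
  [LinearOrder Λ] [Fintype Λ]

/-- PROOF. Both sides: all homogeneous parts (`polyGr` commutes with `map B.subtype`: `polyGr_map`)
vanish at `z` (`aeval_lift`). -/
theorem IB_rel (z : Fin N → L) (B : Subring ℂ) : IB (relIdeal ℂ z) B = relIdeal B z := by
  ext f
  change MvPolynomial.map B.subtype f ∈ relIdeal ℂ z ↔ _
  rw [mem_relIdeal, mem_relIdeal]
  refine forall_congr' fun n => ?_
  rw [← Pool.Agent.Lib.MP_0b721b_ag.polyGr_map, aeval_lift]

/-- `X s` is not a zero divisor modulo the homogeneous relations.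

PROOF. The part of degree `n` of `X s * f` is `X s` times the part of degree `n - 1` of `f`
(`polyGr` lemmas, e.g. `polyGr_op`), and `z s ≠ 0`. -/
theorem relIdeal_X {z : Fin N → L} {s : Fin N} (hs : z s ≠ 0) (f : MvPolynomial (Fin N) ℂ) :
    X s * f ∈ relIdeal ℂ z ↔ f ∈ relIdeal ℂ z := by
  refine ⟨fun hf => ?_, fun hf => Ideal.mul_mem_left _ _ hf⟩
  rw [mem_relIdeal] at hf ⊢
  intro n
  have h := Pool.Agent.Lib.MP_0b721b_ag.polyGr_op
    (Pool.Agent.Lib.MP_0b721b_ag.polyGr_X (A := ℂ) (fun _ : Fin N => (1 : ℤ)) s) n f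
  rw [smul_eq_mul, smul_eq_mul] at h
  have h1 := hf (n + 1)
  rw [h, map_mul, aeval_X] at h1
  exact (mul_eq_zero.1 h1).resolve_left hs

/-- the quotient of the ideal of the relations by a variable -/
theorem qi_relIdeal_X {z : Fin N → L} {s : Fin N} (hs : z s ≠ 0) :
    qi (relIdeal ℂ z) (X s) = relIdeal ℂ z := by
  ext f
  rw [Pool.Agent.Lib.MP_0b721b_ag.mem_qi]
  exact relIdeal_X hs f

/-- **relations over the prime field**

PROOF. `T` = the finite set of `ev_inj` for `a`, together with the finite set of `fib_ex` for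
`I := relIdeal ℂ z`, `X (σ a)`; `qi I (X (σ a)) = I` by `relIdeal_X`. `ev_inj` gives `e` with
`X (σ a) ^ e * g ∈ (relIdeal B z).map _ = fib I (R.ψB B hB)` (`IB_rel`), then `fib_ex` removes the
factors `X (σ a)` one by one. -/
theorem ev_rel (ht : IsTranscendenceBasis ℂ t) {z : Fin N → L} {σ : Λ → Fin N}
    (hg : Geo n z σ) (a : Λ) :
    ∃ T : Finset ℂ, ∀ B : Subring ℂ, (∀ c ∈ T, c ∈ B) → Ev t y fun R => ∀ (hB : B ≤ R.C) (m : ℤ)
      (g : MvPolynomial (Fin N) (ZMod R.p)), Hom (ZMod R.p) N m g →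
      (aeval (fun j => R.r (z j)) g : R.F) = 0 → g ∈ fib (relIdeal ℂ z) (R.ψB B hB) := by
  classical
  obtain ⟨x, w, u, f, hc⟩ := hg.chart a
  obtain ⟨T₁, hT₁⟩ := ev_inj (y := y) ht hg.ne (σ a) hc
  obtain ⟨T₂, hT₂⟩ := Pool.Agent.Lib.MP_0b721b_ag.fib_ex (relIdeal ℂ z) (X (σ a))
  refine ⟨T₁ ∪ T₂, fun B hB => ?_⟩
  refine (hT₁ B fun c hc => hB c (Finset.mem_union_left _ hc)).mono fun R hR => ?_
  intro hBC m g hgh hg0
  obtain ⟨e, he⟩ := hR hBC m g hgh hg0
  obtain ⟨a', ha', h⟩ := hT₂ B fun c hc => hB c (Finset.mem_union_right _ (Finset.mem_coe.1 hc))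
  have ha : a' = X (σ a) := by
    apply MvPolynomial.map_injective _ B.subtype_injective
    rw [ha', map_X]
  have h2 : ∀ g, X (σ a) * g ∈ fib (relIdeal ℂ z) (R.ψB B hBC) →
      g ∈ fib (relIdeal ℂ z) (R.ψB B hBC) := by
    intro g hg'
    have h3 := ((h (ZMod R.p) (R.ψB B hBC)).2 g).1 (by rw [ha, map_X]; exact hg')
    rwa [qi_relIdeal_X (hg.ne (σ a))] at h3
  have h4 : X (σ a) ^ e * g ∈ fib (relIdeal ℂ z) (R.ψB B hBC) := by
    unfold fib
    rw [IB_rel]
    exact he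
  clear he
  induction e with
  | zero => rwa [pow_zero, one_mul] at h4
  | succ e ih =>
    refine ih (h2 _ ?_)
    rwa [pow_succ', mul_assoc] at h4

end Pool.Agent.Lib.MP_732f67_ag.V
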