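import Pool.Agent.Lib.MP_732f67_ag.V.Cone
import Pool.Agent.Lib.MP_732f67_ag.V.RelFib

/-!
# Project KM, part V: the sections of `O(l)`, over `ℂ` and modulo `p`
-/

set_option autoImplicit false

namespace Pool.Agent.Lib.MP_732f67_ag.V

open MvPolynomial
open Pool.Agent.Lib.MP_0b721b_ag.St (Hom)
open Pool.Agent.Lib.MP_0b721b_ag (fib IB qi)
open Pool.Agent.KM

variable {L : Type} [Field L] [Algebra ℂ L] {n : ℕ} {t : Fin n → L} {y : L} {N : ℕ} {Λ : Type}
  [LinearOrder Λ] [Fintype Λ]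

theorem IB_iff {z : Fin N → L} {B : Subring ℂ} {f : MvPolynomial (Fin N) B} :
    f ∈ relIdeal B z ↔ MvPolynomial.map B.subtype f ∈ relIdeal ℂ z := by
  rw [← IB_rel]
  rfl

theorem fib_rel_eq {z : Fin N → L} {B : Subring ℂ} {k : Type} [CommRing k] (ψ : B →+* k) :
    fib (relIdeal ℂ z) ψ = (relIdeal B z).map (MvPolynomial.map ψ) := by
  unfold fib
  rw [IB_rel]

theorem rel_gens (z : Fin N → L) : ∃ S : Finset ℂ, ∀ B : Subring ℂ, (∀ c ∈ S, c ∈ B) →
    relIdeal ℂ z ≤ (relIdeal B z).map (MvPolynomial.map B.subtype) := by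
  classical
  obtain ⟨T, hT⟩ := (inferInstance : IsNoetherianRing (MvPolynomial (Fin N) ℂ)).noetherian
    (relIdeal ℂ z)
  refine ⟨T.biUnion fun p => p.support.image fun d => p.coeff d, fun B hB => ?_⟩
  conv_lhs => rw [← hT]
  change Ideal.span _ ≤ _
  rw [Ideal.span_le]
  intro p hp
  obtain ⟨p', rfl⟩ := exists_lift B p fun d hd => hB _ (Finset.mem_biUnion.2
    ⟨p, hp, Finset.mem_image_of_mem _ hd⟩)
  refine Ideal.mem_map_of_mem _ (IB_iff.2 ?_)
  rw [← hT]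
  exact Submodule.subset_span hp

/-- **the sections of `O(l)` are the polynomials of degree `l`**, over `ℂ` and modulo `p` -/
theorem serre_both (ht : IsTranscendenceBasis ℂ t) {z : Fin N → L} {σ : Λ → Fin N}
    (hg : Geo n z σ) (a₀ : Λ) :
    ∃ l₀ : ℕ, (∀ l, l₀ ≤ l → ∀ f : L,
      (∀ a, ∃ (m : ℕ) (v : MvPolynomial (Fin N) ℂ), Hom ℂ N (l + m) v ∧
        z (σ a) ^ m * f = aeval z v) → ∃ v : MvPolynomial (Fin N) ℂ, Hom ℂ N l v ∧ f = aeval z v) ∧
      Ev t y fun R => (∀ j, R.r (z j) ≠ 0) ∧ ∀ l, l₀ ≤ l → ∀ f : R.F,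
      (∀ a, ∃ (m : ℕ) (v : MvPolynomial (Fin N) (ZMod R.p)), Hom (ZMod R.p) N (l + m) v ∧
        R.r (z (σ a)) ^ m * f = aeval (fun j => R.r (z j)) v) →
      ∃ v : MvPolynomial (Fin N) (ZMod R.p), Hom (ZMod R.p) N l v ∧
        f = aeval (fun j => R.r (z j)) v := by
  classical
  choose m h hh he using hg.cov
  obtain ⟨S₁, hS₁⟩ := rel_gens z
  obtain ⟨S₂, hS₂⟩ := ev_rel (y := y) ht hg a₀
  let S : Finset ℂ := S₁ ∪ S₂ ∪
    (Finset.univ.biUnion fun j => Finset.univ.biUnion fun a =>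
      (h j a).support.image fun c => (h j a).coeff c)
  let B : Subring ℂ := Subring.closure (S : Set ℂ)
  have hSB : ∀ c ∈ S, c ∈ B := fun c hc => Subring.subset_closure hc
  have hBn : IsNoetherianRing B := noeth_closure S
  have hhB : ∀ j a, ∀ c ∈ (h j a).support, (h j a).coeff c ∈ B := fun j a c hc => hSB _
    (Finset.mem_union_right _ (Finset.mem_biUnion.2
      ⟨j, Finset.mem_univ j, Finset.mem_biUnion.2 ⟨a, Finset.mem_univ a,
        Finset.mem_image_of_mem _ hc⟩⟩))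
  have hB1 : ∀ c ∈ S₁, c ∈ B := fun c hc => hSB _ (Finset.mem_union_left _
    (Finset.mem_union_left _ hc))
  have hB2 : ∀ c ∈ S₂, c ∈ B := fun c hc => hSB _ (Finset.mem_union_left _
    (Finset.mem_union_right _ hc))
  choose h' hh' using fun j a => exists_lift B (h j a) (hhB j a)
  have hcov : ∀ j, ∃ (m : ℕ) (h : Λ → MvPolynomial (Fin N) B), (∀ a, Hom B N m (h a)) ∧
      z j ^ (m + 1) = ∑ a, z (σ a) * aeval z (h a) :=
    fun j => ⟨m j, h' j, fun a => hom_lift (by rw [hh']; exact hh j a), by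
      rw [he]
      refine Finset.sum_congr rfl fun a _ => ?_
      rw [← aeval_lift, hh']⟩
  obtain ⟨l₀, hl₀⟩ := sec_poly a₀ hcov
  refine ⟨l₀, ?_, ?_⟩
  · intro l hl f hf
    refine hl₀ ℂ B.subtype L z hg.ne (fun n f _ h0 => ?_) (fun n f hf' h0 => ?_) l hl f hf
    · rw [aeval_lift]
      exact h0
    · exact hS₁ B hB1 (mem_relIdeal_of_hom hf' h0)
  · have E1 : Ev t y fun R => B ≤ R.C := ev_B S
    have E2 : Ev t y fun R => ∀ j, z j ∈ R.Λ ∧ (z j)⁻¹ ∈ R.Λ ∧ R.r (z j) ≠ 0 :=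
      Ev.all fun j => ev_ne (hg.ne j)
    refine (E1.and (E2.and (hS₂ B hB2))).mono fun R hR => ?_
    obtain ⟨hB, hz, hrel⟩ := hR
    refine ⟨fun j => (hz j).2.2, fun l hl f hf => ?_⟩
    refine hl₀ (ZMod R.p) (R.ψB B hB) R.F (fun j => R.r (z j)) (fun j => (hz j).2.2)
      (fun n f _ h0 => ?_) (fun n f hf' h0 => ?_) l hl f hf
    · rw [← (r_aeval R hB (fun j => (hz j).1) f).2, h0, Pool.Agent.KM.Red.r_zero]
    · rw [← fib_rel_eq]
      exact hrel hB n f hf' h0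

end Pool.Agent.Lib.MP_732f67_ag.V
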