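import Pool.Agent.Lib.MP_732f67_ag.V.LA
import Pool.Agent.Lib.MP_0b721b_ag.P7

/-!
# Project KM, part V: combinations of given polynomials which lie in given ideals
-/

set_option autoImplicit false

namespace Pool.Agent.Lib.MP_732f67_ag.V

open MvPolynomial
open Pool.Agent.Lib.MP_0b721b_ag (fib IB qi)

universe u

variable {K : Type u} [Field K] {N : ℕ}

/-- over `K` itself the ideal of the fibre is the ideal -/
theorem nfker_fib_top (I : Ideal (MvPolynomial (Fin N) K)) : fib I (⊤ : Subring K).subtype = I := by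
  have hs : Function.Surjective (MvPolynomial.map (⊤ : Subring K).subtype :
      MvPolynomial (Fin N) (⊤ : Subring K) → MvPolynomial (Fin N) K) :=
    MvPolynomial.map_surjective _ fun x => ⟨⟨x, trivial⟩, rfl⟩
  exact Ideal.map_comap_of_surjective _ hs I

/-- membership of a combination in an ideal in terms of the coefficients of the normal forms -/
theorem nfker_mem {k : Type u} [CommRing k] {I : Ideal (MvPolynomial (Fin N) k)}
    {E : Set (Fin N →₀ ℕ)} (hE : ∀ r ∈ I, (∀ d ∈ r.support, d ∈ E) → r = 0)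
    {ι : Type} [Fintype ι] (P r : ι → MvPolynomial (Fin N) k) (hPr : ∀ i, P i - r i ∈ I)
    (hr : ∀ i, ∀ d ∈ (r i).support, d ∈ E) (D : Finset (Fin N →₀ ℕ))
    (hD : ∀ i, (r i).support ⊆ D) (d : ι → k) :
    ∑ i, d i • P i ∈ I ↔ ∀ e ∈ D, ∑ i, coeff e (r i) * d i = 0 := by
  classical
  have h1 : ∑ i, d i • P i - ∑ i, d i • r i ∈ I := by
    rw [← Finset.sum_sub_distrib]
    refine I.sum_mem fun i _ => ?_
    rw [← smul_sub, MvPolynomial.smul_eq_C_mul]
    exact I.mul_mem_left _ (hPr i)
  have h2 : ∑ i, d i • P i ∈ I ↔ ∑ i, d i • r i ∈ I := by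
    constructor
    · intro h
      have := I.sub_mem h h1
      rwa [sub_sub_cancel] at this
    · intro h
      have := I.add_mem h1 h
      rwa [sub_add_cancel] at this
  have h3 : ∀ e, coeff e (∑ i, d i • r i) = ∑ i, coeff e (r i) * d i := by
    intro e
    rw [MvPolynomial.coeff_sum]
    exact Finset.sum_congr rfl fun i _ => by rw [MvPolynomial.coeff_smul, smul_eq_mul, mul_comm]
  rw [h2]
  constructor
  · intro h e _
    have h4 : ∑ i, d i • r i = 0 := by
      refine hE _ h fun e he => ?_
      rw [MvPolynomial.mem_support_iff, h3] at he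
      obtain ⟨i, -, hi⟩ := Finset.exists_ne_zero_of_sum_ne_zero he
      exact hr i e (MvPolynomial.mem_support_iff.2 (left_ne_zero_of_mul hi))
    rw [← h3, h4, coeff_zero]
  · intro h
    have h4 : ∑ i, d i • r i = 0 := by
      ext e
      rw [h3, coeff_zero]
      by_cases he : e ∈ D
      · exact h e he
      · refine Finset.sum_eq_zero fun i _ => ?_
        have h5 : coeff e (r i) = 0 := by
          by_contra h6
          exact he (hD i (MvPolynomial.mem_support_iff.2 h6))
        rw [h5, zero_mul]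
    rw [h4]
    exact I.zero_mem

/-- **the combinations of the `P i` which lie in all ideals `q a`, over `K` and over the fields `k`**

PROOF. `nf (q a)`: exponents `E a`, finite set `s a`. Over `K` itself (`B = ⊤`, `φ = B.subtype`; `fib` is
then `q a`: `fib` is generated by the image of `q a ∩ B[x]`, and `B[x] → K[x]` is bijective) write
`P i = r a i + (element of q a)`, exponents of `r a i` in `E a`. `M` = the matrix of the coefficients of
the `r a i` (rows `(a, d)`, `d` in the union of the supports); `la_ker` for `M`; `S` = its finite set,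
the `s a` and the coefficients of the `P i`, `r a i`. `M d = 0` iff `∑ d i P i ∈ q a` for all `a` (`nf` second
part). Over `B ⊇ S` lift `P i`, `r a i` (`p7_lift`; the supports do not change); the difference of the
lifts is in `IB (q a) B`; its image under `map φ` is in `fib`. So `∑ d i φ (P' i) ∈ fib (q a) φ` iff
`∑ d i φ (r' a i) ∈ fib (q a) φ` iff (exponents in `E a`, `nf` second part) it is `0`, i.e. the image of
`M` kills `d`. -/
theorem nf_ker {A ι : Type} [Fintype A] [Fintype ι] [DecidableEq ι]
    (q : A → Ideal (MvPolynomial (Fin N) K)) (P : ι → MvPolynomial (Fin N) K) :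
    ∃ (S : Finset K) (s : ℕ) (c : Fin s → ι → K), (∀ a j, ∑ i, c j i • P i ∈ q a) ∧
      LinearIndependent K c ∧
      (∀ d : ι → K, (∀ a, ∑ i, d i • P i ∈ q a) → d ∈ Submodule.span K (Set.range c)) ∧
      ∀ B : Subring K, (S : Set K) ⊆ B →
        ∃ (P' : ι → MvPolynomial (Fin N) B) (c' : Fin s → ι → B),
          (∀ i, MvPolynomial.map B.subtype (P' i) = P i) ∧ (∀ j i, (c' j i : K) = c j i) ∧
          ∀ (k : Type u) [Field k] (φ : B →+* k),
            LinearIndependent k (fun j i => φ (c' j i)) ∧
            ∀ d : ι → k, (∀ a, ∑ i, d i • MvPolynomial.map φ (P' i) ∈ fib (q a) φ) →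
              ∃ e : Fin s → k, d = ∑ j, e j • fun i => φ (c' j i) := by
  classical
  choose E s₀ hnf using fun a => Pool.Agent.Lib.MP_0b721b_ag.nf (q a)
  -- normal forms over `K`
  have htop : ∀ a, (∀ f : MvPolynomial (Fin N) K, ∃ r : MvPolynomial (Fin N) K,
        (∀ d ∈ r.support, d ∈ E a) ∧ f - r ∈ q a) ∧
      (∀ r ∈ q a, (∀ d ∈ r.support, d ∈ E a) → r = 0) := by
    intro a
    have h1 := hnf a ⊤ (fun _ _ => trivial) K (⊤ : Subring K).subtype
    rw [nfker_fib_top] at h1
    exact h1
  choose r hr hPr using fun a i => (htop a).1 (P i)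
  let D : Finset (Fin N →₀ ℕ) := Finset.univ.biUnion fun w : A × ι => (r w.1 w.2).support
  have hD : ∀ a i, (r a i).support ⊆ D := fun a i =>
    Finset.subset_biUnion_of_mem (fun w : A × ι => (r w.1 w.2).support) (Finset.mem_univ (a, i))
  let M : Matrix (A × D) ι K := fun w i => coeff (w.2 : Fin N →₀ ℕ) (r w.1 i)
  have hM : ∀ d : ι → K, M.mulVec d = 0 ↔ ∀ a, ∑ i, d i • P i ∈ q a := by
    intro d
    have h1 : ∀ a, ∑ i, d i • P i ∈ q a ↔ ∀ e ∈ D, ∑ i, coeff e (r a i) * d i = 0 := fun a =>
      nfker_mem (htop a).2 P (r a) (hPr a) (hr a) D (hD a) d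
    constructor
    · intro h a
      rw [h1]
      intro e he
      exact congrFun h (a, ⟨e, he⟩)
    · intro h
      funext w
      exact (h1 w.1).1 (h w.1) w.2 w.2.2
  obtain ⟨S₀, s, c, hc0, hli, hsp, hB⟩ := la_ker M
  refine ⟨S₀ ∪ (Finset.univ.biUnion s₀ ∪ ((Finset.univ.biUnion fun i => (P i).coeffs) ∪
    Finset.univ.biUnion fun w : A × ι => (r w.1 w.2).coeffs)), s, c, ?_, hli, ?_, ?_⟩
  · intro a j
    exact (hM (c j)).1 (hc0 j) a
  · intro d hd
    exact hsp d ((hM d).2 hd)
  · intro B hSB
    simp only [Finset.coe_union, Set.union_subset_iff] at hSB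
    obtain ⟨hB0, hB1, hB2, hB3⟩ := hSB
    have hs₀ : ∀ a, (s₀ a : Set K) ⊆ B := fun a =>
      Set.Subset.trans (Finset.coe_subset.2 (Finset.subset_biUnion_of_mem s₀ (Finset.mem_univ a)))
        hB1
    have hPl : ∀ i, ∃ P' : MvPolynomial (Fin N) B, MvPolynomial.map B.subtype P' = P i := fun i =>
      Pool.Agent.Lib.MP_0b721b_ag.p7_lift _ (Set.Subset.trans (Finset.coe_subset.2
        (Finset.subset_biUnion_of_mem (fun i => (P i).coeffs) (Finset.mem_univ i))) hB2)
    have hrl : ∀ a i, ∃ r' : MvPolynomial (Fin N) B, MvPolynomial.map B.subtype r' = r a i :=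
      fun a i => Pool.Agent.Lib.MP_0b721b_ag.p7_lift _ (Set.Subset.trans (Finset.coe_subset.2
        (Finset.subset_biUnion_of_mem (fun w : A × ι => (r w.1 w.2).coeffs)
          (Finset.mem_univ (a, i)))) hB3)
    choose P' hP' using hPl
    choose r' hr' using hrl
    obtain ⟨M', c', hM', hc', hk⟩ := hB B hB0
    refine ⟨P', c', hP', hc', fun k _ φ => ?_⟩
    obtain ⟨hli', hsp'⟩ := hk k φ
    refine ⟨hli', fun d hd => hsp' d ?_⟩
    have hsupp : ∀ a i, (MvPolynomial.map φ (r' a i)).support ⊆ (r a i).support := by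
      intro a i e he
      rw [MvPolynomial.mem_support_iff, MvPolynomial.coeff_map] at he
      rw [MvPolynomial.mem_support_iff, ← hr' a i, MvPolynomial.coeff_map]
      intro h0
      have h1 : coeff e (r' a i) = 0 := Subtype.ext h0
      exact he (by rw [h1, map_zero])
    have hcf : ∀ a i (e : D), M' (a, e) i = coeff (e : Fin N →₀ ℕ) (r' a i) := by
      intro a i e
      apply Subtype.ext
      rw [hM' (a, e) i]
      show coeff (e : Fin N →₀ ℕ) (r a i) = _
      rw [← hr' a i, MvPolynomial.coeff_map]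
      rfl
    funext w
    obtain ⟨a, e⟩ := w
    have h2 := (nfker_mem (hnf a B (hs₀ a) k φ).2 (fun i => MvPolynomial.map φ (P' i))
      (fun i => MvPolynomial.map φ (r' a i)) (fun i => by
        rw [← map_sub]
        refine Ideal.mem_map_of_mem _ ?_
        show MvPolynomial.map B.subtype (P' i - r' a i) ∈ q a
        rw [map_sub, hP', hr']
        exact hPr a i)
      (fun i d hd' => hr a i d (hsupp a i hd')) D (fun i => (hsupp a i).trans (hD a i)) d).1
      (hd a) e e.2
    refine Eq.trans ?_ h2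
    show ∑ i, φ (M' (a, e) i) * d i = _
    refine Finset.sum_congr rfl fun i _ => ?_
    rw [hcf, MvPolynomial.coeff_map]

end Pool.Agent.Lib.MP_732f67_ag.V
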