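import Pool.Agent.Lib.MP_0b721b_ag.P7

/-!
# Project KM, part V: base change of saturations and quotients of ideals
-/

set_option autoImplicit false

namespace Pool.Agent.Lib.MP_732f67_ag.V

open MvPolynomial
open Pool.Agent.Lib.MP_0b721b_ag (fib IB qi)

universe u

variable {K : Type u} [Field K] {N : ℕ}

/-- **base change of the ideals `((I + (b)) : x ^ ∞) : v`**

PROOF. `J₁ := I ⊔ (b)`; the ideals `{f | x ^ m f ∈ J₁}` increase with `m`, so `J₂ := {f | x ^ m₀ f ∈ J₁}`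
satisfies `qi J₂ x = J₂` (noetherian); `q := qi J₂ v`. `fib_ex` for `(I, b)`: `fib J₁ φ` is `fib I φ ⊔ (b)`;
`fib_ex` for `(J₁, x ^ m₀)`: `x ^ m₀ f ∈ fib J₁ φ ↔ f ∈ fib J₂ φ`; for `(J₂, x)`: `x f ∈ fib J₂ φ ↔ f ∈ fib J₂ φ`;
for `(J₂, v)`: `v f ∈ fib J₂ φ ↔ f ∈ fib q φ`. (The lifts `x'`, `v'`, `b'` are unique: `p7_inj`; the lift of
`x ^ m₀` is `x' ^ m₀`.) -/
theorem sat_fib (I : Ideal (MvPolynomial (Fin N) K)) (b x v : MvPolynomial (Fin N) K) :
    ∃ (q : Ideal (MvPolynomial (Fin N) K)) (S : Finset K),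
      (∀ f, f ∈ q ↔ ∃ m : ℕ, x ^ m * (v * f) ∈ I ⊔ Ideal.span {b}) ∧
      ∀ B : Subring K, (S : Set K) ⊆ B → ∃ b' x' v' : MvPolynomial (Fin N) B,
        MvPolynomial.map B.subtype b' = b ∧ MvPolynomial.map B.subtype x' = x ∧
        MvPolynomial.map B.subtype v' = v ∧
        ∀ (k : Type u) [CommRing k] (φ : B →+* k) (f : MvPolynomial (Fin N) k) (m : ℕ),
          MvPolynomial.map φ x' ^ m * (MvPolynomial.map φ v' * f) ∈
            fib I φ ⊔ Ideal.span {MvPolynomial.map φ b'} → f ∈ fib q φ := by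
  classical
  have hqi : ∀ (J : Ideal (MvPolynomial (Fin N) K)) (a f : MvPolynomial (Fin N) K),
      f ∈ Pool.Agent.Lib.MP_0b721b_ag.qi J a ↔ a * f ∈ J := fun _ _ _ => Iff.rfl
  obtain ⟨J1, hJ1⟩ : ∃ J1 : Ideal (MvPolynomial (Fin N) K), J1 = I ⊔ Ideal.span {b} := ⟨_, rfl⟩
  -- stabilisation
  have hmono : Monotone fun m : ℕ => qi J1 (x ^ m) := by
    refine monotone_nat_of_le_succ fun m f hf => ?_
    rw [hqi] at hf ⊢
    rw [pow_succ', mul_assoc]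
    exact J1.mul_mem_left _ hf
  obtain ⟨m0, hm0⟩ := monotone_stabilizes_iff_noetherian.2
    (inferInstance : IsNoetherian (MvPolynomial (Fin N) K) (MvPolynomial (Fin N) K))
    ⟨fun m : ℕ => qi J1 (x ^ m), hmono⟩
  have hm0' : ∀ m, m0 ≤ m → qi J1 (x ^ m0) = qi J1 (x ^ m) := hm0
  obtain ⟨J2, hJ2⟩ : ∃ J2 : Ideal (MvPolynomial (Fin N) K), J2 = qi J1 (x ^ m0) := ⟨_, rfl⟩
  have hJ2x : qi J2 x = J2 := by
    have h1 : qi J2 x = qi J1 (x ^ (m0 + 1)) := by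
      ext f
      rw [hqi, hJ2, hqi, hqi, pow_succ, mul_assoc]
    rw [h1, ← hm0' (m0 + 1) (Nat.le_succ m0), hJ2]
  obtain ⟨s1, h1⟩ := Pool.Agent.Lib.MP_0b721b_ag.fib_ex I b
  obtain ⟨s2, h2⟩ := Pool.Agent.Lib.MP_0b721b_ag.fib_ex J1 (x ^ m0)
  obtain ⟨s3, h3⟩ := Pool.Agent.Lib.MP_0b721b_ag.fib_ex J2 x
  obtain ⟨s4, h4⟩ := Pool.Agent.Lib.MP_0b721b_ag.fib_ex J2 v
  refine ⟨qi J2 v, s1 ∪ s2 ∪ (s3 ∪ s4), ?_, ?_⟩
  · intro f
    rw [hqi, hJ2, hqi, ← hJ1]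
    constructor
    · exact fun hf => ⟨m0, hf⟩
    · rintro ⟨m, hm⟩
      have e1 : v * f ∈ qi J1 (x ^ m) := hm
      have e2 : qi J1 (x ^ m) ≤ qi J1 (x ^ m0) := by
        rcases le_total m m0 with hle | hle
        · exact hmono hle
        · exact (hm0' m hle).ge
      exact e2 e1
  · intro B hB
    rw [Finset.coe_union, Finset.coe_union, Finset.coe_union, Set.union_subset_iff,
      Set.union_subset_iff, Set.union_subset_iff] at hB
    obtain ⟨⟨hB1, hB2⟩, hB3, hB4⟩ := hB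
    obtain ⟨b', hb', hb''⟩ := h1 B hB1
    obtain ⟨a', ha', ha''⟩ := h2 B hB2
    obtain ⟨x', hx', hx''⟩ := h3 B hB3
    obtain ⟨v', hv', hv''⟩ := h4 B hB4
    refine ⟨b', x', v', hb', hx', hv', ?_⟩
    intro k _ φ f m hf
    have hax : a' = x' ^ m0 := by
      apply Pool.Agent.Lib.MP_0b721b_ag.p7_inj B
      rw [ha', map_pow, hx']
    have e1 := (hb'' k φ).1
    rw [← e1, ← hJ1] at hf
    have e2 := (ha'' k φ).2
    have e3 := (hx'' k φ).2
    have e4 := (hv'' k φ).2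
    rw [← hJ2, hax, map_pow] at e2
    rw [hJ2x] at e3
    rw [← e4 f]
    have e5 : MvPolynomial.map φ x' ^ m * (MvPolynomial.map φ v' * f) ∈ fib J2 φ := by
      rw [← e2]
      exact Ideal.mul_mem_left _ _ hf
    clear hf
    induction m with
    | zero =>
      rwa [pow_zero, one_mul] at e5
    | succ m ih =>
      rw [pow_succ', mul_assoc, e3] at e5
      exact ih e5

end Pool.Agent.Lib.MP_732f67_ag.V
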