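import Pool.Agent.Lib.MP_732f67_ag.V.LiftA
import Pool.Agent.Lib.MP_732f67_ag.V.LiftB
import Pool.Agent.Lib.MP_732f67_ag.V.NfKer
import Pool.Agent.Lib.MP_732f67_ag.V.SatFib

/-!
# Project KM, part V: the sections of a divisor modulo `p` are the reductions of the sections over `ℂ`
-/

set_option autoImplicit false

namespace Pool.Agent.Lib.MP_732f67_ag.V

open MvPolynomial
open Pool.Agent.Lib.MP_0b721b_ag.St (Hom)
open Pool.Agent.Lib.MP_0b721b_ag (fib IB qi p7_inj)
open Pool.Agent.Lib.MP_732f67_ag.KC (AJ)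
open Pool.Agent.KM

section psi

variable {k F : Type*} [CommRing k] [Field F] [Algebra k F] {N : ℕ}

/-- the section with given coefficients -/
noncomputable def Psi (z : Fin N → F) (p0 : F) (s0 : Fin N) (e : ℕ) :
    (Finset.finsuppAntidiag (Finset.univ : Finset (Fin N)) e → k) →ₗ[k] F where
  toFun d := p0 * aeval z (∑ i, d i • monomial i.1 (1 : k)) / z s0 ^ e
  map_add' d d' := by
    simp only [Pi.add_apply, add_smul, Finset.sum_add_distrib, map_add, mul_add, add_div]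
  map_smul' c d := by
    simp only [Pi.smul_apply, smul_eq_mul, mul_smul, ← Finset.smul_sum, map_smul, RingHom.id_apply]
    rw [Algebra.smul_def, Algebra.smul_def]
    ring

theorem Psi_apply (z : Fin N → F) (p0 : F) (s0 : Fin N) (e : ℕ)
    (d : Finset.finsuppAntidiag (Finset.univ : Finset (Fin N)) e → k) :
    Psi z p0 s0 e d = p0 * aeval z (∑ i, d i • monomial i.1 (1 : k)) / z s0 ^ e := rfl

end psi

variable {L : Type} [Field L] [Algebra ℂ L] {n : ℕ} {t : Fin n → L} {y : L} {N : ℕ} {Λ : Type}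
  [LinearOrder Λ] [Fintype Λ]

/-- the reduction of a section -/
theorem r_sec (R : Pool.Agent.KM.Red L t y) {B : Subring ℂ} (hB : B ≤ R.C) {z : Fin N → L}
    (hz : ∀ j, z j ∈ R.Λ ∧ (z j)⁻¹ ∈ R.Λ ∧ R.r (z j) ≠ 0) (hz0 : ∀ j, z j ≠ 0) {p0 : L}
    (hp : p0 ∈ R.Λ) (s0 : Fin N) (e : ℕ) {G : MvPolynomial (Fin N) ℂ}
    {G' : MvPolynomial (Fin N) B} (h : MvPolynomial.map B.subtype G' = G) :
    p0 * aeval z G / z s0 ^ e ∈ R.Λ ∧ R.r (p0 * aeval z G / z s0 ^ e) =
      R.r p0 * aeval (fun j => R.r (z j)) (MvPolynomial.map (R.ψB B hB) G') / R.r (z s0) ^ e := by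
  subst h
  rw [aeval_lift]
  have h1 := r_aeval R hB (fun j => (hz j).1) G'
  have h2 : (z s0)⁻¹ ^ e ∈ R.Λ := R.Λ.pow_mem (hz s0).2.1 e
  have h3 : R.r ((z s0)⁻¹ ^ e) = (R.r (z s0) ^ e)⁻¹ := by
    rw [R.r_pow (hz s0).2.1, R.r_inv (hz0 s0) (hz s0).1 (hz s0).2.1, inv_pow]
  rw [div_eq_mul_inv, ← inv_pow]
  refine ⟨R.Λ.mul_mem (R.Λ.mul_mem hp h1.1) h2, ?_⟩
  rw [R.r_mul (R.Λ.mul_mem hp h1.1) h2, R.r_mul hp h1.1, h1.2, h3, div_eq_mul_inv]

/-- **the sections of a fixed divisor modulo `p`**: `w` is a basis of the sections over `ℂ`, and its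
reductions are a basis of the sections over the prime field. -/
theorem ev_lift (ht : IsTranscendenceBasis ℂ t) {z : Fin N → L} {σ : Λ → Fin N}
    (hg : Geo n z σ) {φ : Λ → L} (hφ : ∀ a, φ a ≠ 0)
    (hφ' : ∀ a b, φ b / φ a ∈ AR ℂ z σ {a, b}) (a₀ : Λ) :
    ∃ (s : ℕ) (w : Fin s → L), LinearIndependent ℂ w ∧
      (∀ i a, w i / φ a ∈ AR ℂ z σ {a}) ∧
      (∀ f : L, (∀ a, f / φ a ∈ AR ℂ z σ {a}) → f ∈ Submodule.span ℂ (Set.range w)) ∧
      Ev t y fun R => LinearIndependent (ZMod R.p) (fun i => R.r (w i)) ∧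
        ∀ f : R.F, (∀ a, ∃ x ∈ AJ (fun j => R.r (z j)) σ {a}, f = R.r (φ a) * x) →
          ∃ c : Fin s → ZMod R.p, f = ∑ i, c i • R.r (w i) := by
  classical
  obtain ⟨l₀, hl1, hl2⟩ := serre_both (y := y) ht hg a₀
  have hne := hg.ne
  -- `φ a / φ a₀` in the chart `a`
  have h1 : ∀ a, ∃ k₀ : ℕ, ∀ k, k₀ ≤ k →
      (z (σ a₀) / z (σ a)) ^ k * (φ a / φ a₀) ∈ AR ℂ z σ {a} := fun a => AR_clear hne (by
    rw [Finset.pair_comm]
    exact hφ' a₀ a)
  choose k₁ hk₁ using h1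
  obtain ⟨e₁, he₁⟩ := Finite.exists_le k₁
  obtain ⟨e, hel, hee⟩ : ∃ e, l₀ ≤ e ∧ e₁ ≤ e := ⟨max l₀ e₁, le_max_left _ _, le_max_right _ _⟩
  have h2 : ∀ a, ∃ (m : ℕ) (Q : MvPolynomial (Fin N) ℂ), Hom ℂ N m Q ∧
      z (σ a) ^ m * z (σ a₀) ^ e * φ a = aeval z Q * z (σ a) ^ e * φ a₀ := by
    intro a
    obtain ⟨m, Q, hQ, he⟩ := (AR_one hne).1 (hk₁ a e ((he₁ a).trans hee))
    refine ⟨m, Q, hQ, ?_⟩
    rw [← he, div_pow]
    have := hφ a₀
    have := hne (σ a)
    field_simp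
  choose m₁ Q hQh hQ using h2
  -- `φ a₀ / φ a` in the chart `a₀`
  have h3 : ∀ a, ∃ (q c : ℕ) (V : MvPolynomial (Fin N) ℂ), Hom ℂ N ((c + q : ℕ) : ℤ) V ∧
      z (σ a₀) ^ c * z (σ a) ^ q * φ a₀ = aeval z V * φ a := by
    intro a
    obtain ⟨q, hq⟩ := AR_clear hne (a := a₀) (b := a) (x := φ a₀ / φ a) (by
      rw [Finset.pair_comm]
      exact hφ' a a₀)
    obtain ⟨m₀, hm₀⟩ := AR_one_of_le hne (hq q le_rfl)
    obtain ⟨V, hVh, hV⟩ := hm₀ (m₀ + q) (Nat.le_add_right _ _)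
    refine ⟨q, m₀, V, hVh, ?_⟩
    rw [← hV, pow_add, div_pow]
    have := hφ a
    have := hne (σ a₀)
    field_simp
  choose q c V hVh hV using h3
  choose Iq S₃ hI1 hI2 using fun a =>
    sat_fib (relIdeal ℂ z) (X (σ a₀) ^ (e + c a)) (X (σ a)) (V a)
  obtain ⟨S₄, s₀, g, hg1, -, hg3, hg4⟩ := nf_ker Iq
    (fun i : Finset.finsuppAntidiag (Finset.univ : Finset (Fin N)) e => monomial i.1 (1 : ℂ))
  obtain ⟨G, hGe⟩ : ∃ G : Fin s₀ → MvPolynomial (Fin N) ℂ,
    ∀ j, G j = ∑ i, g j i • monomial i.1 1 := ⟨_, fun j => rfl⟩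
  have hGh : ∀ j, Hom ℂ N e (G j) := fun j => by
    rw [hGe]
    exact hom_comb _
  obtain ⟨w', hw'e⟩ : ∃ w' : Fin s₀ → L,
    ∀ j, w' j = φ a₀ * aeval z (G j) / z (σ a₀) ^ e := ⟨_, fun j => rfl⟩
  have hw'P : ∀ j, w' j = Psi z (φ a₀) (σ a₀) e (g j) := fun j => by
    rw [hw'e, Psi_apply, hGe]
  -- the `w'` are sections
  have hw' : ∀ j a, w' j / φ a ∈ AR ℂ z σ {a} := by
    intro j a
    have h4 := hg1 a j
    rw [← hGe, hI1] at h4
    obtain ⟨m, hm⟩ := h4
    obtain ⟨H, hH, he⟩ := crit_mem hne (hφ a) (hVh a) (hGh j) (hV a) hm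
    rw [hw'e]
    exact (AR_one hne).2 ⟨m + q a, H, hH, he⟩
  -- the `w'` generate the sections over `ℂ`
  have hspan : ∀ f : L, (∀ a, f / φ a ∈ AR ℂ z σ {a}) → f ∈ Submodule.span ℂ (Set.range w') := by
    intro f hf
    choose m H hHh hH using fun a => (AR_one hne).1 (hf a)
    obtain ⟨P, hPh, hP⟩ := hl1 e hel (z (σ a₀) ^ e * f / φ a₀) (fun a => by
      refine ⟨m₁ a + m a, X (σ a) ^ e * (Q a * H a), ?_, ?_⟩
      · exact lf_hom_cast (hom_mul (lf_hom_X_pow (σ a) e) (hom_mul (hQh a) (hHh a)))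
          (by push_cast; ring)
      · simp only [map_mul, map_pow, aeval_X]
        rw [← hH a]
        have h5 := hφ a₀
        have h6 := hφ a
        have h7 : z (σ a) ^ e * ((aeval z (Q a) : L) * (z (σ a) ^ m a * (f / φ a))) =
            (aeval z (Q a) * z (σ a) ^ e * φ a₀) * (z (σ a) ^ m a * (f / φ a)) / φ a₀ := by
          field_simp
        rw [h7, ← hQ a, pow_add]
        field_simp)
    have hf0 : f = φ a₀ * aeval z P / z (σ a₀) ^ e := by
      rw [← hP]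
      have := hφ a₀
      have := hne (σ a₀)
      field_simp
    have hd := hom_monomials hPh
    have h8 := hg3 (fun i => P.coeff i.1) (fun a => by
      rw [← hd, hI1]
      refine ⟨m a, ?_⟩
      have h9 : X (σ a) ^ m a * (V a * P) = (X (σ a) ^ m a * (V a * P) -
          X (σ a₀) ^ (e + c a) * (X (σ a) ^ q a * H a)) +
            (X (σ a) ^ q a * H a) * X (σ a₀) ^ (e + c a) := by ring
      rw [h9]
      refine Ideal.add_mem _ (Ideal.mem_sup_left ?_) (Ideal.mem_sup_right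
        (Ideal.mul_mem_left _ _ (Ideal.mem_span_singleton_self _)))
      refine mem_relIdeal_of_hom (crit_hom (hVh a) hPh (hHh a))
        (crit_eq (hφ a) (hV a) ?_ (hH a))
      rw [hf0]
      have := hφ a
      have := hne (σ a₀)
      field_simp)
    have h10 := Submodule.mem_map_of_mem (f := Psi z (φ a₀) (σ a₀) e) h8
    rw [Submodule.map_span, ← Set.range_comp, Psi_apply, ← hd, ← hf0] at h10
    have h11 : (Psi z (φ a₀) (σ a₀) e ∘ g) = w' := funext fun j => (hw'P j).symm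
    rwa [h11] at h10
  -- a basis
  obtain ⟨κ, α, hα, hαs, hαi⟩ := exists_linearIndependent' ℂ w'
  have : Finite κ := Finite.of_injective α hα
  obtain ⟨s, ⟨eκ⟩⟩ := Finite.exists_equiv_fin κ
  obtain ⟨β, hβ⟩ : ∃ β : Fin s → Fin s₀, β = α ∘ eκ.symm := ⟨_, rfl⟩
  have hwi : LinearIndependent ℂ (w' ∘ β) := by
    rw [hβ, ← Function.comp_assoc]
    exact hαi.comp _ eκ.symm.injective
  have hws : Submodule.span ℂ (Set.range (w' ∘ β)) = Submodule.span ℂ (Set.range w') := by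
    rw [hβ, ← Function.comp_assoc, Set.range_comp (w' ∘ α), Set.range_eq_univ.2
      eκ.symm.surjective, Set.image_univ, hαs]
  have hA : ∀ j, ∃ A : Fin s → ℂ, ∑ i, A i • w' (β i) = w' j := by
    intro j
    have h4 : w' j ∈ Submodule.span ℂ (Set.range (w' ∘ β)) := by
      rw [hws]
      exact Submodule.subset_span ⟨j, rfl⟩
    exact (Submodule.mem_span_range_iff_exists_fun ℂ).1 h4
  choose A hA using hA
  obtain ⟨S₅, s₅, g₅, h51, h52, -, h54⟩ := nf_ker (fun _ : Unit => relIdeal ℂ z)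
    (fun i : Fin s => G (β i))
  have hs₅ : IsEmpty (Fin s₅) := by
    refine ⟨fun j => ?_⟩
    have h4 : (aeval z (∑ i, g₅ j i • G (β i)) : L) = 0 := by
      have h5 : Hom ℂ N e (∑ i, g₅ j i • G (β i)) := by
        refine hom_sum _ _ fun i _ => ?_
        rw [smul_eq_C_mul]
        exact lf_hom_cast (hom_mul (hom_C_aux _) (hGh _)) (by ring)
      have h6 := h51 () j ((e : ℕ) : ℤ)
      have h7 := Pool.Agent.Lib.MP_0b721b_ag.St.hom_iff.1 h5
      unfold Pool.Agent.Lib.MP_0b721b_ag.Gr.Hom at h7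
      rwa [h7] at h6
    refine h52.ne_zero j (funext fun i => ?_)
    refine Fintype.linearIndependent_iff.1 hwi (g₅ j) ?_ i
    have h5 : ∑ i, g₅ j i • (w' ∘ β) i = φ a₀ * aeval z (∑ i, g₅ j i • G (β i)) /
        z (σ a₀) ^ e := by
      rw [map_sum, Finset.mul_sum, Finset.sum_div]
      refine Finset.sum_congr rfl fun i _ => ?_
      rw [Function.comp_apply, hw'e, map_smul, Algebra.smul_def, Algebra.smul_def]
      ring
    rw [h5, h4, mul_zero, zero_div]
  refine ⟨s, w' ∘ β, hwi, fun i a => hw' _ _, fun f hf => by rw [hws]; exact hspan f hf, ?_⟩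
  -- modulo `p`
  obtain ⟨S₆, hS₆⟩ := ev_rel (y := y) ht hg a₀
  let S : Finset ℂ := (Finset.univ.biUnion S₃ ∪ S₄ ∪ S₅ ∪ S₆) ∪
    ((Finset.univ.biUnion fun a => (Q a).support.image fun d => (Q a).coeff d) ∪
      Finset.univ.biUnion fun j => Finset.univ.image (A j))
  let B : Subring ℂ := Subring.closure (S : Set ℂ)
  have hSB : ∀ c ∈ S, c ∈ B := fun c hc => Subring.subset_closure hc
  have hS3 : ∀ a, (S₃ a : Set ℂ) ⊆ B := fun a x hx => hSB x (by
    simp only [S, Finset.mem_union, Finset.mem_biUnion, Finset.mem_univ, true_and]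
    exact Or.inl (Or.inl (Or.inl (Or.inl ⟨a, hx⟩))))
  have hS4 : (S₄ : Set ℂ) ⊆ B := fun x hx => hSB x (by
    simp only [S, Finset.mem_union]
    exact Or.inl (Or.inl (Or.inl (Or.inr hx))))
  have hS5 : (S₅ : Set ℂ) ⊆ B := fun x hx => hSB x (by
    simp only [S, Finset.mem_union]
    exact Or.inl (Or.inl (Or.inr hx)))
  have hS6 : ∀ x ∈ S₆, x ∈ B := fun x hx => hSB x (by
    simp only [S, Finset.mem_union]
    exact Or.inl (Or.inr hx))
  have hSQ : ∀ a, ∀ d ∈ (Q a).support, (Q a).coeff d ∈ B := fun a d hd => hSB _ (by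
    simp only [S, Finset.mem_union, Finset.mem_biUnion, Finset.mem_univ, true_and]
    exact Or.inr (Or.inl ⟨a, Finset.mem_image_of_mem _ hd⟩))
  have hSA : ∀ j i, A j i ∈ B := fun j i => hSB _ (by
    simp only [S, Finset.mem_union, Finset.mem_biUnion, Finset.mem_univ, true_and]
    exact Or.inr (Or.inr ⟨j, Finset.mem_image_of_mem _ (Finset.mem_univ i)⟩))
  choose Q' hQ' using fun a => exists_lift B (Q a) (hSQ a)
  obtain ⟨P₄, g₄, hP₄, hg₄, h44⟩ := hg4 B hS4
  obtain ⟨P₅, g₅', hP₅, hg₅, h55⟩ := h54 B hS5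
  choose b' x' V' hb' hx' hV' hsat using fun a => hI2 a B (hS3 a)
  have E1 : Ev t y fun R => B ≤ R.C := ev_B S
  have E2 : Ev t y fun R => ∀ j, z j ∈ R.Λ ∧ (z j)⁻¹ ∈ R.Λ ∧ R.r (z j) ≠ 0 :=
    Ev.all fun j => ev_ne (hne j)
  have E3 : Ev t y fun R => ∀ a, φ a ∈ R.Λ ∧ (φ a)⁻¹ ∈ R.Λ ∧ R.r (φ a) ≠ 0 :=
    Ev.all fun a => ev_ne (hφ a)
  refine (E1.and (E2.and (E3.and (hl2.and (hS₆ B hS6))))).mono fun R hR => ?_
  obtain ⟨hB, hz, hφR, ⟨hz0, hl⟩, hrel⟩ := hR
  have hinj := p7_inj (N := N) B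
  have hP₄' : ∀ i, MvPolynomial.map (R.ψB B hB) (P₄ i) = monomial i.1 1 := by
    intro i
    have h4 : P₄ i = monomial i.1 1 := by
      apply hinj
      rw [hP₄, map_monomial]
      exact congrArg _ (_root_.map_one B.subtype).symm
    rw [h4, map_monomial]
    exact congrArg _ (_root_.map_one (R.ψB B hB))
  have hG₄ : ∀ j, MvPolynomial.map B.subtype (∑ i, g₄ j i • monomial i.1 (1 : B)) = G j := by
    intro j
    rw [hGe, map_sum]
    refine Finset.sum_congr rfl fun i _ => ?_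
    rw [smul_monomial, map_monomial, smul_monomial, ← hg₄ j i]
    simp
  have hrw : ∀ j, R.r (w' j) = Psi (fun j => R.r (z j)) (R.r (φ a₀)) (σ a₀) e
      (fun i => R.ψB B hB (g₄ j i)) := by
    intro j
    rw [hw'e, (r_sec R hB hz hne (hφR a₀).1 (σ a₀) e (hG₄ j)).2, Psi_apply]
    congr 3
    rw [map_sum]
    refine Finset.sum_congr rfl fun i _ => ?_
    rw [smul_monomial, map_monomial, smul_monomial]
    simp
  have hwΛ : ∀ j, w' j ∈ R.Λ := fun j => by
    rw [hw'e]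
    exact (r_sec R hB hz hne (hφR a₀).1 (σ a₀) e (hG₄ j)).1
  constructor
  · -- independence
    rw [Fintype.linearIndependent_iff]
    intro E hE
    have h4 : (aeval (fun j => R.r (z j)) (∑ i, E i • MvPolynomial.map (R.ψB B hB) (P₅ i)) :
        R.F) = 0 := by
      have h5 : ∑ i, E i • R.r ((w' ∘ β) i) = R.r (φ a₀) *
          aeval (fun j => R.r (z j)) (∑ i, E i • MvPolynomial.map (R.ψB B hB) (P₅ i)) /
            R.r (z (σ a₀)) ^ e := by
        rw [map_sum, Finset.mul_sum, Finset.sum_div]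
        refine Finset.sum_congr rfl fun i _ => ?_
        rw [Function.comp_apply, hw'e,
          (r_sec R hB hz hne (hφR a₀).1 (σ a₀) e (hP₅ i)).2, map_smul, Algebra.smul_def,
          Algebra.smul_def]
        ring
      rw [h5, div_eq_zero_iff] at hE
      exact (mul_eq_zero.1 (hE.resolve_right (pow_ne_zero _ (hz _).2.2))).resolve_left
        (hφR a₀).2.2
    have h5 : Hom (ZMod R.p) N e (∑ i, E i • MvPolynomial.map (R.ψB B hB) (P₅ i)) := by
      refine hom_sum _ _ fun i _ => ?_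
      rw [smul_eq_C_mul]
      refine lf_hom_cast (hom_mul (hom_C_aux _) (hom_map _ (hom_lift ?_))) (zero_add _)
      rw [hP₅]
      exact hGh _
    obtain ⟨E', hE'⟩ := (h55 (ZMod R.p) (R.ψB B hB)).2 E fun _ => hrel hB _ _ h5 h4
    intro i
    rw [hE', Finset.univ_eq_empty, Finset.sum_empty]
    rfl
  · -- generation
    intro f hf
    choose xx hxx hfx using hf
    choose m H hHh hH using fun a => (AR_one hz0).1 ((AR_prime R.p).2 (hxx a))
    have hQR : ∀ a, R.r (z (σ a)) ^ m₁ a * R.r (z (σ a₀)) ^ e * R.r (φ a) =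
        aeval (fun j => R.r (z j)) (MvPolynomial.map (R.ψB B hB) (Q' a)) *
          R.r (z (σ a)) ^ e * R.r (φ a₀) := by
      intro a
      have h4 := congrArg R.r (hQ a)
      have h5 := r_aeval R hB (fun j => (hz j).1) (Q' a)
      rw [← hQ', aeval_lift] at h4
      rw [R.r_mul (R.Λ.mul_mem (R.Λ.pow_mem (hz _).1 _) (R.Λ.pow_mem (hz _).1 _)) (hφR a).1,
        R.r_mul (R.Λ.pow_mem (hz _).1 _) (R.Λ.pow_mem (hz _).1 _), R.r_pow (hz _).1,
        R.r_pow (hz _).1, R.r_mul (R.Λ.mul_mem h5.1 (R.Λ.pow_mem (hz _).1 _)) (hφR a₀).1,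
        R.r_mul h5.1 (R.Λ.pow_mem (hz _).1 _), R.r_pow (hz _).1, h5.2] at h4
      exact h4
    have hVR : ∀ a, R.r (z (σ a₀)) ^ c a * R.r (z (σ a)) ^ q a * R.r (φ a₀) =
        aeval (fun j => R.r (z j)) (MvPolynomial.map (R.ψB B hB) (V' a)) * R.r (φ a) := by
      intro a
      have h4 := congrArg R.r (hV a)
      have h5 := r_aeval R hB (fun j => (hz j).1) (V' a)
      rw [← hV', aeval_lift] at h4
      rw [R.r_mul (R.Λ.mul_mem (R.Λ.pow_mem (hz _).1 _) (R.Λ.pow_mem (hz _).1 _)) (hφR a₀).1,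
        R.r_mul (R.Λ.pow_mem (hz _).1 _) (R.Λ.pow_mem (hz _).1 _), R.r_pow (hz _).1,
        R.r_pow (hz _).1, R.r_mul h5.1 (hφR a).1, h5.2] at h4
      exact h4
    obtain ⟨P, hPh, hP⟩ := hl e hel (R.r (z (σ a₀)) ^ e * f / R.r (φ a₀)) (fun a => by
      refine ⟨m₁ a + m a, X (σ a) ^ e * (MvPolynomial.map (R.ψB B hB) (Q' a) * H a), ?_, ?_⟩
      · exact lf_hom_cast (hom_mul (lf_hom_X_pow (σ a) e) (hom_mul (hom_map _ (hom_lift (by
          rw [hQ']
          exact hQh a))) (hHh a))) (by push_cast; ring)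
      · simp only [map_mul, map_pow, aeval_X]
        rw [← hH a, hfx a]
        have h5 := (hφR a₀).2.2
        have h7 : R.r (z (σ a)) ^ e * ((aeval (fun j => R.r (z j))
            (MvPolynomial.map (R.ψB B hB) (Q' a)) : R.F) * (R.r (z (σ a)) ^ m a * xx a)) =
            (aeval (fun j => R.r (z j)) (MvPolynomial.map (R.ψB B hB) (Q' a)) *
              R.r (z (σ a)) ^ e * R.r (φ a₀)) * (R.r (z (σ a)) ^ m a * xx a) / R.r (φ a₀) := by
          field_simp
        rw [h7, ← hQR a, pow_add]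
        field_simp)
    have hf0 : f = R.r (φ a₀) * aeval (fun j => R.r (z j)) P / R.r (z (σ a₀)) ^ e := by
      rw [← hP]
      have := (hφR a₀).2.2
      have := hz0 (σ a₀)
      field_simp
    have hd := hom_monomials hPh
    obtain ⟨E, hE⟩ := (h44 (ZMod R.p) (R.ψB B hB)).2 (fun i => P.coeff i.1) (fun a => by
      simp only [hP₄']
      rw [← hd]
      have hx'' : MvPolynomial.map (R.ψB B hB) (x' a) = X (σ a) := by
        have h4 : x' a = X (σ a) := by
          apply hinj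
          rw [hx', map_X]
        rw [h4, map_X]
      have hb'' : MvPolynomial.map (R.ψB B hB) (b' a) = X (σ a₀) ^ (e + c a) := by
        have h4 : b' a = X (σ a₀) ^ (e + c a) := by
          apply hinj
          rw [hb', map_pow, map_X]
        rw [h4, map_pow, map_X]
      refine hsat a (ZMod R.p) (R.ψB B hB) P (m a) ?_
      rw [hx'', hb'']
      have h9 : X (σ a) ^ m a * (MvPolynomial.map (R.ψB B hB) (V' a) * P) =
          (X (σ a) ^ m a * (MvPolynomial.map (R.ψB B hB) (V' a) * P) -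
          X (σ a₀) ^ (e + c a) * (X (σ a) ^ q a * H a)) +
            (X (σ a) ^ q a * H a) * X (σ a₀) ^ (e + c a) := by ring
      rw [h9]
      refine Ideal.add_mem _ (Ideal.mem_sup_left ?_) (Ideal.mem_sup_right
        (Ideal.mul_mem_left _ _ (Ideal.mem_span_singleton_self _)))
      refine hrel hB _ _ (crit_hom (hom_map _ (hom_lift (by
        rw [hV']
        exact hVh a))) hPh (hHh a)) (crit_eq (hφR a).2.2 (hVR a) ?_ (hH a))
      rw [← hfx a, hf0]
      have := hz0 (σ a₀)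
      field_simp)
    have h10 : f = ∑ j, E j • R.r (w' j) := by
      have h11 : f = Psi (fun j => R.r (z j)) (R.r (φ a₀)) (σ a₀) e (fun i => P.coeff i.1) := by
        rw [Psi_apply, ← hd]
        exact hf0
      rw [h11, hE, map_sum]
      refine Finset.sum_congr rfl fun j _ => ?_
      rw [map_smul, hrw]
    have h12 : ∀ j, R.r (w' j) = ∑ i, R.ψB B hB ⟨A j i, hSA j i⟩ • R.r (w' (β i)) := by
      intro j
      rw [← hA j, R.r_sum]
      · refine Finset.sum_congr rfl fun i _ => ?_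
        rw [Algebra.smul_def, R.r_mul (hB (hSA j i)) (hwΛ _), Algebra.smul_def]
        congr 1
        exact R.ψ_spec ⟨A j i, hB (hSA j i)⟩
      · intro i _
        rw [Algebra.smul_def]
        exact R.Λ.mul_mem (hB (hSA j i)) (hwΛ _)
    refine ⟨fun i => ∑ j, E j * R.ψB B hB ⟨A j i, hSA j i⟩, ?_⟩
    rw [h10]
    simp only [Function.comp_apply, Finset.sum_smul]
    rw [Finset.sum_comm]
    refine Finset.sum_congr rfl fun j _ => ?_
    conv_lhs => rw [h12 j, Finset.smul_sum]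
    exact Finset.sum_congr rfl fun i _ => by rw [smul_smul]

end Pool.Agent.Lib.MP_732f67_ag.V
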