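import Pool.Agent.Lib.MP_732f67_ag.V.Co

/-!
# Project KM, part V: the coordinates of forms
-/

set_option autoImplicit false

open TensorProduct

namespace Pool.Agent.Lib.MP_732f67_ag.V

open Pool.Agent.Lib.MP_732f67_ag
open Pool.Agent.Lib.MP_732f67_ag.KC (EZ Fm om fn Log)

variable {n : ℕ} {L : Type*} [Field L]

/-- the coordinates with respect to the standard basis -/
noncomputable def co : Fm n L ≃ₗ[L] (Finset (Fin n) → L) :=
  ((Pi.basisFun ℤ (Fin n)).ExteriorAlgebra.baseChange L).equivFun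

theorem co_tmul (a : L) (x : EZ n) (U : Finset (Fin n)) :
    co (a ⊗ₜ[ℤ] x) U = ((Pi.basisFun ℤ (Fin n)).ExteriorAlgebra.repr x U : ℤ) • a := by
  unfold co
  rw [Module.Basis.equivFun_apply, Module.Basis.baseChange_repr_tmul]

/-- the ring homomorphism `A ⊗ EZ n → Fm n F` given by `ρ : A → F` -/
noncomputable def coMap {F : Type*} [Field F] {A : Type*} [CommRing A] (ρ : A →+* F) :
    A ⊗[ℤ] EZ n →ₐ[ℤ] Fm n F :=
  Algebra.TensorProduct.map ρ.toIntAlgHom (AlgHom.id ℤ (EZ n))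

theorem coMap_tmul {F : Type*} [Field F] {A : Type*} [CommRing A] (ρ : A →+* F) (a : A)
    (x : EZ n) : coMap ρ (a ⊗ₜ[ℤ] x) = ρ a ⊗ₜ[ℤ] x := rfl

theorem coMap_bT {F : Type*} [Field F] {A : Type*} [CommRing A] (ρ : A →+* F)
    (β : Fin n → Fin n → A) (T : Finset (Fin n)) :
    coMap ρ ((T.sort (· ≤ ·)).map fun i => ∑ k, β i k ⊗ₜ[ℤ] KC.ee k).prod =
      bT (fun i k => ρ (β i k)) T := by
  rw [map_list_prod, List.map_map, bT]
  congr 2
  funext i
  rw [Function.comp_apply, map_sum]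
  rfl

theorem co_coMap {F : Type*} [Field F] (A : Subring L) (ρ : A →+* F) (x : A ⊗[ℤ] EZ n)
    (U : Finset (Fin n)) :
    ∃ h : co (coMap A.subtype x) U ∈ A, ρ ⟨co (coMap A.subtype x) U, h⟩ = co (coMap ρ x) U := by
  induction x using TensorProduct.induction_on with
  | zero =>
    have h0 : co (coMap A.subtype (0 : A ⊗[ℤ] EZ n)) U = 0 := by
      rw [map_zero, map_zero]
      rfl
    have h1 : co (coMap ρ (0 : A ⊗[ℤ] EZ n)) U = 0 := by
      rw [map_zero, map_zero]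
      rfl
    refine ⟨h0 ▸ A.zero_mem, ?_⟩
    rw [h1]
    have h2 : (⟨co (coMap A.subtype (0 : A ⊗[ℤ] EZ n)) U, h0 ▸ A.zero_mem⟩ : A) = 0 :=
      Subtype.ext h0
    rw [h2, map_zero]
  | tmul a y =>
    have h0 : co (coMap A.subtype (a ⊗ₜ[ℤ] y)) U =
        ((((Pi.basisFun ℤ (Fin n)).ExteriorAlgebra.repr y U : ℤ) • a : A) : L) := by
      rw [coMap_tmul, co_tmul]
      rfl
    have h1 : co (coMap ρ (a ⊗ₜ[ℤ] y)) U =
        ρ (((Pi.basisFun ℤ (Fin n)).ExteriorAlgebra.repr y U : ℤ) • a) := by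
      rw [coMap_tmul, co_tmul, map_zsmul]
    refine ⟨h0 ▸ SetLike.coe_mem _, ?_⟩
    rw [h1]
    congr 1
    exact Subtype.ext h0
  | add x y hx hy =>
    obtain ⟨hx, hx'⟩ := hx
    obtain ⟨hy, hy'⟩ := hy
    have h0 : co (coMap A.subtype (x + y)) U =
        co (coMap A.subtype x) U + co (coMap A.subtype y) U := by
      rw [map_add, map_add]
      rfl
    have h1 : co (coMap ρ (x + y)) U = co (coMap ρ x) U + co (coMap ρ y) U := by
      rw [map_add, map_add]
      rfl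
    refine ⟨h0 ▸ A.add_mem hx hy, ?_⟩
    rw [h1, ← hx', ← hy', ← map_add]
    congr 1
    exact Subtype.ext h0

/-- the coordinates of a product of one forms are polynomials over the integers in the entries.

PROOF. The ring homomorphisms `A ⊗ EZ n → Fm n L`, `A ⊗ EZ n → Fm n F` (`Algebra.TensorProduct.map` over
`ℤ`): the product of the `∑ k, ⟨β i k, _⟩ ⊗ ee k` goes to `bT β T` and to `bT β' T`, and by `co_tmul` the
coordinates of the image of `x` are the images of the coordinates of `x` (induction on the tensor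
`x`). -/
theorem co_bT_map {F : Type*} [Field F] (A : Subring L) (ρ : A →+* F) (β : Fin n → Fin n → L)
    (hβ : ∀ i k, β i k ∈ A) (T U : Finset (Fin n)) :
    ∃ h : co (bT β T) U ∈ A,
      ρ ⟨co (bT β T) U, h⟩ = co (bT (fun i k => ρ ⟨β i k, hβ i k⟩) T) U := by
  obtain ⟨h, h'⟩ := co_coMap A ρ
    ((T.sort (· ≤ ·)).map fun i => ∑ k, (⟨β i k, hβ i k⟩ : A) ⊗ₜ[ℤ] KC.ee k).prod U
  have h1 := coMap_bT A.subtype (fun i k => (⟨β i k, hβ i k⟩ : A)) T
  have h2 := coMap_bT ρ (fun i k => (⟨β i k, hβ i k⟩ : A)) T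
  have h3 : bT (fun i k => A.subtype (⟨β i k, hβ i k⟩ : A)) T = bT β T := rfl
  rw [h3] at h1
  rw [h2] at h'
  have h4 : co (coMap A.subtype
      ((T.sort (· ≤ ·)).map fun i => ∑ k, (⟨β i k, hβ i k⟩ : A) ⊗ₜ[ℤ] KC.ee k).prod) U =
      co (bT β T) U := by rw [h1]
  refine ⟨h4 ▸ h, ?_⟩
  rw [← h']
  congr 1
  exact Subtype.ext h4.symm

end Pool.Agent.Lib.MP_732f67_ag.V
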