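import Pool.Agent.Lib.MP_732f67_ag.V.EvK
import Pool.Agent.Lib.MP_732f67_ag.V.CoB

/-!
# Project KM, part V: uniform vanishing for the lattices of logarithmic forms
-/

set_option autoImplicit false

namespace Pool.Agent.Lib.MP_732f67_ag.V

open Pool.Agent.Lib.MP_732f67_ag.KC (Fm om fn Log AJ KVan Kl cd cd_map)
open Pool.Agent.KM

/-- transport of the vanishing -/
theorem KVan_equiv {E E' Λ : Type*} [AddCommGroup E] [AddCommGroup E'] [LinearOrder Λ]
    (Φ : E ≃+ E') {K : Finset Λ → AddSubgroup E} {K' : Finset Λ → AddSubgroup E'}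
    (h : ∀ J, J.Nonempty → ∀ x, x ∈ K J ↔ Φ x ∈ K' J) (hK : KVan K') : KVan K := by
  intro b hb z hz hcd
  obtain ⟨w, hw, hw'⟩ := hK b hb (fun J => Φ (z J))
    (fun J hJ => (h J (Finset.card_pos.1 (by omega)) _).1 (hz J hJ))
    (fun J hJ => by
      have h1 := cd_map (Φ : E →+ E') z J
      have h2 : cd (fun J => Φ (z J)) J = Φ (cd z J) := h1
      rw [h2, hcd J hJ, map_zero])
  refine ⟨fun J => Φ.symm (w J), fun J hJ => ?_, fun J hJ => ?_⟩
  · rw [h J (Finset.card_pos.1 (by omega)), AddEquiv.apply_symm_apply]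
    exact hw J hJ
  · have h1 := cd_map (Φ.symm : E' →+ E) w J
    have h2 : cd (fun J => Φ.symm (w J)) J = Φ.symm (cd w J) := h1
    rw [h2, hw' J hJ, AddEquiv.symm_apply_apply]

variable {L : Type} [Field L] [Algebra ℂ L] {n : ℕ} {t : Fin n → L} {y : L} {N : ℕ} {Λ : Type}
  [LinearOrder Λ] [Fintype Λ]

/-- the coordinates of the forms of the charts are compatible.

PROOF. `κ b • bT (β b) T = (κ b / κ a) • κ a • bT (β b) T`, and `bT (β b) T` lies in
`Log (AR ℂ z σ {a, b}).toSubring (β a)` (it is a product of elements of this ring); `mem_Log_iff`. -/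
theorem coords_trans {z : Fin N → L} {σ : Λ → Fin N} {β : Λ → Fin n → Fin n → L} {κ : Λ → L}
    (hκ : ∀ a, κ a ≠ 0)
    (hβ : ∀ a b i, ∃ c : Fin n → L, (∀ j, c j ∈ AR ℂ z σ {a, b}) ∧ β b i = ∑ j, c j • β a j)
    (hκ' : ∀ a b, κ b / κ a ∈ AR ℂ z σ {a, b}) (a b : Λ) (T : Finset (Fin n)) :
    ∃ c : Finset (Fin n) → L, (∀ U, c U ∈ AR ℂ z σ {a, b}) ∧
      co (κ b • bT (β b) T) = ∑ U, c U • co (κ a • bT (β a) U) := by
  have h1 : (bT (β b) T : Fm n L) ∈ Log (AR ℂ z σ {a, b}).toSubring (β a) := by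
    refine Subring.list_prod_mem _ fun x hx => ?_
    obtain ⟨i, _, rfl⟩ := List.mem_map.1 hx
    obtain ⟨c, hc, e⟩ := hβ a b i
    have e1 : (om (β b i) : Fm n L) = ∑ j, fn (c j) * om (β a j) := by
      rw [e, ← KC.omL_apply, map_sum]
      refine Finset.sum_congr rfl fun j _ => ?_
      rw [map_smul, KC.fn_smul, KC.omL_apply]
    rw [e1]
    exact sum_mem fun j _ => mul_mem (KC.fn_mem_Log (hc j)) (KC.om_mem_Log _ _ j)
  obtain ⟨c, hc, e⟩ := mem_Log_iff.1 h1
  refine ⟨fun U => κ b / κ a * c U, fun U => Subalgebra.mul_mem _ (hκ' a b) (hc U), ?_⟩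
  rw [e, Finset.smul_sum, map_sum]
  refine Finset.sum_congr rfl fun U _ => ?_
  rw [map_smul, map_smul, map_smul, smul_smul, smul_smul]
  congr 1
  field_simp [hκ a]

/-- **uniform vanishing for the lattices of logarithmic forms** (output 1)

PROOF. `ev_kvan` with `ω a T := co (κ a • bT (β a) T)`; independent by `bT_indep`; compatible by
`coords_trans`. For the reductions with `κ a`, `β a i k`, `z j`, their inverses in `Λ` the entries of
`co (R.r (κ a) • bT (R.r (β a)) T)` are `R.r (ω a T U)` (`co_bT_map` with `R.ρ`), and `Kl J` corresponds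
to `LJ J` under `co` (`mem_Log_iff`): `KVan_equiv`. -/
theorem ev_KVan (ht : IsTranscendenceBasis ℂ t) {z : Fin N → L} {σ : Λ → Fin N}
    (hg : Geo n z σ) {β : Λ → Fin n → Fin n → L} {κ : Λ → L}
    (hdet : ∀ a, (Matrix.of (β a)).det ≠ 0) (hκ : ∀ a, κ a ≠ 0)
    (hβ : ∀ a b i, ∃ c : Fin n → L, (∀ j, c j ∈ AR ℂ z σ {a, b}) ∧ β b i = ∑ j, c j • β a j)
    (hκ' : ∀ a b, κ b / κ a ∈ AR ℂ z σ {a, b}) :
    ∃ l₀ : ℕ, Ev t y fun R => ∀ l, l₀ ≤ l →
      KVan (Kl (AJ (fun j => R.r (z j)) σ) (fun a i k => R.r (β a i k))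
        (fun a => R.r (z (σ a)) ^ l * R.r (κ a))) := by
  classical
  have hind : ∀ a, LinearIndependent L fun T => co (κ a • bT (β a) T) := by
    intro a
    have h1 : LinearIndependent L fun T => κ a • bT (β a) T := by
      have h2 := (bT_indep (hdet a)).units_smul fun _ => Units.mk0 (κ a) (hκ a)
      exact h2
    exact h1.map' (co : Fm n L ≃ₗ[L] (Finset (Fin n) → L)).toLinearMap
      (LinearEquiv.ker (co : Fm n L ≃ₗ[L] (Finset (Fin n) → L)))
  obtain ⟨l₀, hl⟩ := ev_kvan (y := y) ht hg (κ := Finset (Fin n)) (T := Finset (Fin n))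
    (ω := fun a T => co (κ a • bT (β a) T)) hind (fun a b s => coords_trans hκ hβ hκ' a b s)
  refine ⟨l₀, ((hl.and (Ev.all fun a => ev_ne (hκ a))).and
    (Ev.all fun a => Ev.all fun i => Ev.all fun k => ev_mem (β a i k))).mono ?_⟩
  rintro R ⟨⟨h1, h2⟩, h3⟩ l hll
  refine KVan_equiv (co : Fm n R.F ≃ₗ[R.F] (Finset (Fin n) → R.F)).toAddEquiv ?_ (h1 l hll)
  have h4 : ∀ a T, (fun U => R.r (co (κ a • bT (β a) T) U)) =
      R.r (κ a) • co (bT (fun i k => R.r (β a i k)) T) := by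
    intro a T
    funext U
    obtain ⟨h, e⟩ := co_bT_map R.Λ R.ρ (β a) (h3 a) T U
    have e1 : (fun i k => R.ρ ⟨β a i k, h3 a i k⟩) = fun i k => R.r (β a i k) := by
      funext i k
      exact (R.r_of (h3 a i k)).symm
    rw [map_smul, Pi.smul_apply, smul_eq_mul, R.r_mul (h2 a).1 h, Pi.smul_apply, smul_eq_mul,
      R.r_of h, e, e1]
  intro J _ x
  show (∀ a ∈ J, _) ↔ (∀ a ∈ J, _)
  refine forall_congr' fun a => forall_congr' fun _ => ?_
  have h5 : ∀ c : Finset (Fin n) → R.F,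
      co ((R.r (z (σ a)) ^ l * R.r (κ a)) • ∑ T, c T • bT (fun i k => R.r (β a i k)) T) =
      R.r (z (σ a)) ^ l • ∑ T, c T • fun U => R.r (co (κ a • bT (β a) T) U) := by
    intro c
    rw [mul_smul, map_smul, Finset.smul_sum, map_sum]
    congr 1
    refine Finset.sum_congr rfl fun T _ => ?_
    rw [h4 a T, map_smul, map_smul, smul_comm]
  constructor
  · rintro ⟨v, hv, e⟩
    obtain ⟨c, hc, rfl⟩ := mem_Log_iff.1 hv
    exact ⟨c, hc, by rw [← h5 c, ← e]; rfl⟩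
  · rintro ⟨c, hc, e⟩
    refine ⟨∑ T, c T • bT (fun i k => R.r (β a i k)) T, mem_Log_iff.2 ⟨c, hc, rfl⟩, ?_⟩
    apply (co : Fm n R.F ≃ₗ[R.F] (Finset (Fin n) → R.F)).injective
    rw [h5 c]
    exact e

end Pool.Agent.Lib.MP_732f67_ag.V
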