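import Pool.Agent.Lib.MP_732f67_ag.V.EvK

/-!
# Project KM, part V: uniform surjectivity of the multiplication with the coordinates
-/

set_option autoImplicit false

namespace Pool.Agent.Lib.MP_732f67_ag.V

open Pool.Agent.Lib.MP_732f67_ag.KC (AJ KVan cd)
open Pool.Agent.KM

variable {L : Type} [Field L] [Algebra ℂ L] {n : ℕ} {t : Fin n → L} {y : L} {M : ℕ} {Λ : Type}
  [LinearOrder Λ] [Fintype Λ]

/-- the basis over the chart `a` of the kernel of `(v j) ↦ ∑ z j v j` -/
noncomputable def ker (z : Fin (M + 1) → L) (σ : Λ → Fin (M + 1)) (φ : Λ → L) (a : Λ) (i : Fin M) :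
    Fin (M + 1) → L :=
  φ a • (Pi.single ((σ a).succAbove i) 1 -
    Pi.single (σ a) (z ((σ a).succAbove i) / z (σ a)))

theorem Out2_single {F : Type*} [Field F] {k : ℕ} (z : Fin k → F) (s : Fin k) (c : F) :
    ∑ j, z j * (Pi.single s c : Fin k → F) j = z s * c := by
  rw [Finset.sum_eq_single s]
  · rw [Pi.single_eq_same]
  · intro j _ hj
    rw [Pi.single_eq_of_ne hj, mul_zero]
  · intro h
    exact absurd (Finset.mem_univ s) h

theorem Out2_sum {F : Type*} [Field F] {z : Fin (M + 1) → F} (hz : ∀ j, z j ≠ 0)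
    (s : Fin (M + 1)) (φ : F) (i : Fin M) :
    ∑ j, z j * (φ • (Pi.single (s.succAbove i) 1 -
      Pi.single s (z (s.succAbove i) / z s)) : Fin (M + 1) → F) j = 0 := by
  have h1 : ∀ j, z j * (φ • (Pi.single (s.succAbove i) 1 -
      Pi.single s (z (s.succAbove i) / z s)) : Fin (M + 1) → F) j =
      φ * (z j * (Pi.single (s.succAbove i) 1 : Fin (M + 1) → F) j -
        z j * (Pi.single s (z (s.succAbove i) / z s) : Fin (M + 1) → F) j) := by
    intro j
    simp only [Pi.smul_apply, Pi.sub_apply, smul_eq_mul]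
    ring
  simp_rw [h1]
  rw [← Finset.mul_sum, Finset.sum_sub_distrib, Out2_single, Out2_single]
  have := hz s
  field_simp
  simp

/-- a vector `v` with `∑ z j v j = 0` in terms of the basis of the chart `a` -/
theorem eq_ker {F : Type*} [Field F] {z : Fin (M + 1) → F} (hz : ∀ j, z j ≠ 0) (s : Fin (M + 1))
    {φ : F} (hφ : φ ≠ 0) {v : Fin (M + 1) → F} (hv : ∑ j, z j * v j = 0) :
    v = ∑ i, (v (s.succAbove i) / φ) • (φ • (Pi.single (s.succAbove i) 1 -
      Pi.single s (z (s.succAbove i) / z s) : Fin (M + 1) → F)) := by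
  have hs := hz s
  funext j
  rw [Finset.sum_apply]
  simp only [Pi.smul_apply, Pi.sub_apply, smul_eq_mul]
  rcases Fin.eq_self_or_eq_succAbove s j with h | ⟨u, rfl⟩
  · subst h
    have h1 : ∀ i, v (j.succAbove i) / φ * (φ * ((Pi.single (j.succAbove i) 1 : Fin (M + 1) → F) j -
        (Pi.single j (z (j.succAbove i) / z j) : Fin (M + 1) → F) j)) =
        - (z (j.succAbove i) * v (j.succAbove i)) / z j := by
      intro i
      rw [Pi.single_eq_of_ne (Fin.succAbove_ne j i).symm, Pi.single_eq_same]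
      field_simp
      ring
    simp_rw [h1]
    rw [← Finset.sum_div, Finset.sum_neg_distrib, eq_div_iff hs]
    rw [Fin.sum_univ_succAbove _ j] at hv
    linear_combination hv
  · rw [Finset.sum_eq_single u]
    · rw [Pi.single_eq_same, Pi.single_eq_of_ne (Fin.succAbove_ne s u)]
      field_simp
      ring
    · intro i _ hi
      rw [Pi.single_eq_of_ne (Fin.succAbove_ne s u), Pi.single_eq_of_ne]
      · ring
      · intro h
        exact hi (Fin.succAbove_right_injective h).symm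
    · intro h
      exact absurd (Finset.mem_univ u) h

theorem ker_indep {z : Fin (M + 1) → L} {σ : Λ → Fin (M + 1)} {φ : Λ → L}
    (hφ : ∀ a, φ a ≠ 0) (a : Λ) : LinearIndependent L (ker z σ φ a) := by
  rw [Fintype.linearIndependent_iff]
  intro g hg u
  have h1 := congrFun hg ((σ a).succAbove u)
  rw [Finset.sum_apply, Finset.sum_eq_single u] at h1
  · unfold ker at h1
    simp only [Pi.smul_apply, Pi.sub_apply, smul_eq_mul, Pi.zero_apply] at h1
    rw [Pi.single_eq_same, Pi.single_eq_of_ne (Fin.succAbove_ne (σ a) u), sub_zero, mul_one] at h1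
    exact (mul_eq_zero.1 h1).resolve_right (hφ a)
  · intro i _ hi
    unfold ker
    simp only [Pi.smul_apply, Pi.sub_apply, smul_eq_mul]
    rw [Pi.single_eq_of_ne (Fin.succAbove_ne (σ a) u), Pi.single_eq_of_ne]
    · ring
    · intro h
      exact hi (Fin.succAbove_right_injective h).symm
  · intro h
    exact absurd (Finset.mem_univ u) h

/-- PROOF. `eq_ker` for `v = ker z σ φ b i`: the coefficients are `(φ b / φ a)` times `0`, `1` or
`- z j / z (σ b)`. -/
theorem ker_trans {z : Fin (M + 1) → L} (hz : ∀ j, z j ≠ 0) {σ : Λ → Fin (M + 1)} {φ : Λ → L}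
    (hφ : ∀ a, φ a ≠ 0) (hφ' : ∀ a b, φ b / φ a ∈ AR ℂ z σ {a, b}) (a b : Λ) (i : Fin M) :
    ∃ c : Fin M → L, (∀ u, c u ∈ AR ℂ z σ {a, b}) ∧ ker z σ φ b i = ∑ u, c u • ker z σ φ a u := by
  refine ⟨fun u => ker z σ φ b i ((σ a).succAbove u) / φ a, fun u => ?_, ?_⟩
  · have hb : b ∈ ({a, b} : Finset Λ) := Finset.mem_insert_of_mem (Finset.mem_singleton_self b)
    unfold ker
    simp only [Pi.smul_apply, Pi.sub_apply, smul_eq_mul]
    rw [mul_div_right_comm]
    refine Subalgebra.mul_mem _ (hφ' a b) (Subalgebra.sub_mem _ ?_ ?_)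
    · by_cases h : (σ a).succAbove u = (σ b).succAbove i
      · rw [h, Pi.single_eq_same]
        exact Subalgebra.one_mem _
      · rw [Pi.single_eq_of_ne h]
        exact Subalgebra.zero_mem _
    · by_cases h : (σ a).succAbove u = σ b
      · rw [h, Pi.single_eq_same]
        exact AR_gen hb _
      · rw [Pi.single_eq_of_ne h]
        exact Subalgebra.zero_mem _
  · exact eq_ker hz (σ a) (hφ a) (Out2_sum hz (σ b) (φ b) i)

/-- the reduction of the basis of the kernel -/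
theorem Out2_red (R : Pool.Agent.KM.Red L t y) {z : Fin (M + 1) → L} (hz : ∀ j, z j ≠ 0)
    (hzΛ : ∀ j, z j ∈ R.Λ ∧ (z j)⁻¹ ∈ R.Λ) {σ : Λ → Fin (M + 1)} {φ : Λ → L}
    (hφΛ : ∀ a, φ a ∈ R.Λ) (a : Λ) (s : Fin M) (i : Fin (M + 1)) :
    R.r (ker z σ φ a s i) = (R.r (φ a) • (Pi.single ((σ a).succAbove s) 1 -
      Pi.single (σ a) (R.r (z ((σ a).succAbove s)) / R.r (z (σ a)))) : Fin (M + 1) → R.F) i := by
  have hq : z ((σ a).succAbove s) / z (σ a) ∈ R.Λ := by
    rw [div_eq_mul_inv]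
    exact R.Λ.mul_mem (hzΛ _).1 (hzΛ _).2
  have h1 : ∀ (k i : Fin (M + 1)) (c : L), c ∈ R.Λ → (Pi.single k c : Fin (M + 1) → L) i ∈ R.Λ ∧
      R.r ((Pi.single k c : Fin (M + 1) → L) i) = (Pi.single k (R.r c) : Fin (M + 1) → R.F) i := by
    intro k i c hc
    by_cases h : i = k
    · subst h
      rw [Pi.single_eq_same, Pi.single_eq_same]
      exact ⟨hc, rfl⟩
    · rw [Pi.single_eq_of_ne h, Pi.single_eq_of_ne h]
      exact ⟨R.Λ.zero_mem, R.r_zero⟩
  unfold ker
  simp only [Pi.smul_apply, Pi.sub_apply, smul_eq_mul]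
  have h2 := h1 ((σ a).succAbove s) i 1 R.Λ.one_mem
  have h3 := h1 (σ a) i _ hq
  rw [R.r_mul (hφΛ a) (R.Λ.sub_mem h2.1 h3.1), R.r_sub h2.1 h3.1, h2.2, h3.2, R.r_one]
  have h4 : R.r (z ((σ a).succAbove s) / z (σ a)) =
      R.r (z ((σ a).succAbove s)) / R.r (z (σ a)) := by
    rw [div_eq_mul_inv, R.r_mul (hzΛ _).1 (hzΛ _).2, R.r_inv (hz _) (hzΛ _).1 (hzΛ _).2,
      ← div_eq_mul_inv]
  rw [h4]

/-- the reduction of the quotients -/
theorem Out2_quot {z : Fin (M + 1) → L} (hz : ∀ j, z j ≠ 0) {σ : Λ → Fin (M + 1)} {J : Finset Λ}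
    {x : L} (hx : x ∈ AR ℂ z σ J) :
    Ev t y fun R => R.r x ∈ AJ (fun j => R.r (z j)) σ J := by
  classical
  let G : Finset L := (Finset.univ ×ˢ J).image fun q : Fin (M + 1) × Λ => z q.1 / z (σ q.2)
  have hG : x ∈ Algebra.adjoin ℂ (G : Set L) := by
    refine Algebra.adjoin_mono ?_ hx
    rintro _ ⟨j, l, hl, rfl⟩
    exact Finset.mem_coe.2 (Finset.mem_image.2 ⟨(j, l), Finset.mem_product.2
      ⟨Finset.mem_univ _, hl⟩, rfl⟩)
  have E1 : Ev t y fun R => ∀ j, z j ∈ R.Λ ∧ (z j)⁻¹ ∈ R.Λ ∧ R.r (z j) ≠ 0 :=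
    Ev.all fun j => ev_ne (hz j)
  refine (E1.and (ev_adjoin G hG)).mono fun R hR => ?_
  obtain ⟨hzR, -, -, -, h⟩ := hR
  refine Subring.closure_mono ?_ h
  rintro _ ⟨g, hg, rfl⟩
  obtain ⟨⟨j, l⟩, hjl, rfl⟩ := Finset.mem_image.1 (Finset.mem_coe.1 hg)
  refine ⟨j, l, (Finset.mem_product.1 hjl).2, ?_⟩
  rw [div_eq_mul_inv, R.r_mul (hzR _).1 (hzR _).2.1, R.r_inv (hz _) (hzR _).1 (hzR _).2.1,
    ← div_eq_mul_inv]

open Pool.Agent.Lib.MP_0b721b_ag (sgn) in
theorem Out2_pair {E : Type*} [AddCommGroup E] (Y : Finset Λ → E) {a b : Λ} (hab : a < b) :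
    cd Y {a, b} = Y {b} - Y {a} := by
  have hne : a ≠ b := hab.ne
  have h1 : sgn a ({a, b} : Finset Λ) = 1 := by
    unfold Pool.Agent.Lib.MP_0b721b_ag.sgn
    rw [Finset.filter_eq_empty_iff.2, Finset.card_empty, pow_zero]
    intro x hx
    rcases Finset.mem_insert.1 hx with h | h
    · rw [h]; exact lt_irrefl a
    · rw [Finset.mem_singleton.1 h]; exact not_lt.2 hab.le
  have h2 : sgn b ({a, b} : Finset Λ) = -1 := by
    unfold Pool.Agent.Lib.MP_0b721b_ag.sgn
    have h3 : ({a, b} : Finset Λ).filter (· < b) = {a} := by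
      ext x
      rw [Finset.mem_filter, Finset.mem_insert, Finset.mem_singleton]
      constructor
      · rintro ⟨h | h, h'⟩
        · rw [h, Finset.mem_singleton]
        · exact absurd h' (by rw [h]; exact lt_irrefl b)
      · intro h
        rw [Finset.mem_singleton] at h
        exact ⟨Or.inl h, by rw [h]; exact hab⟩
    rw [h3, Finset.card_singleton, pow_one]
  unfold cd
  rw [Finset.sum_pair hne, h1, h2]
  have h4 : ({a, b} : Finset Λ).erase a = {b} := by
    rw [Finset.erase_insert]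
    rwa [Finset.mem_singleton]
  have h5 : ({a, b} : Finset Λ).erase b = {a} := by
    rw [Finset.pair_comm, Finset.erase_insert]
    rw [Finset.mem_singleton]
    exact hne.symm
  rw [h4, h5, one_smul, neg_smul, one_smul, sub_eq_add_neg]

/-- the surjectivity from the vanishing of the cohomology of the kernel lattice -/
theorem Out2_surj {F : Type} [Field F] {z : Fin (M + 1) → F} (hz : ∀ j, z j ≠ 0)
    {σ : Λ → Fin (M + 1)} {φ : Λ → F} (hφ : ∀ a, φ a ≠ 0)
    (hφ' : ∀ a b, φ b / φ a ∈ AJ z σ {a, b}) [Nonempty Λ] {l : ℕ}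
    (hK : KVan (LJ z σ (fun (a : Λ) (s : Fin M) => (φ a • (Pi.single ((σ a).succAbove s) 1 -
      Pi.single (σ a) (z ((σ a).succAbove s) / z (σ a))) : Fin (M + 1) → F)) l)) (f : F)
    (hf : ∀ a, ∃ x ∈ AJ z σ {a}, f = z (σ a) ^ (l + 1) * φ a * x) :
    ∃ g : Fin (M + 1) → F,
      (∀ j a, ∃ x ∈ AJ z σ {a}, g j = z (σ a) ^ l * φ a * x) ∧ f = ∑ j, z j * g j := by
  classical
  choose x hx hfx using hf
  let Y' : Λ → Fin (M + 1) → F := fun a => Pi.single (σ a) (f / z (σ a))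
  let Y : Finset Λ → Fin (M + 1) → F := fun J => if h : J.Nonempty then Y' (J.min' h) else 0
  have hY : ∀ a, Y {a} = Y' a := by
    intro a
    simp only [Y]
    rw [dif_pos (Finset.singleton_nonempty a), Finset.min'_singleton]
  have hYf : ∀ a, ∑ j, z j * Y' a j = f := by
    intro a
    simp only [Y']
    rw [Out2_single, mul_div_cancel₀ _ (hz _)]
  -- the entries
  have hent : ∀ (J : Finset Λ) (a c : Λ), a ∈ J → c ∈ J → ∀ j,
      Y' a j / φ c / z (σ c) ^ l ∈ AJ z σ J := by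
    intro J a c ha hc j
    by_cases h : j = σ a
    · subst h
      simp only [Y']
      rw [Pi.single_eq_same]
      have e1 : f / z (σ a) / φ c / z (σ c) ^ l =
          (z (σ a) / z (σ c)) ^ l * (φ a / φ c) * x a := by
        have h1 := hz (σ a)
        have h2 := hz (σ c)
        have h3 := hφ c
        conv_lhs => rw [hfx a]
        rw [div_pow]
        field_simp
        ring
      rw [e1]
      refine Subring.mul_mem _ (Subring.mul_mem _ (Subring.pow_mem _
        (KC.div_mem_AJ z σ hc (σ a)) l) ?_) ?_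
      · refine KC.AJ_mono z σ ?_ (hφ' c a)
        intro u hu
        rcases Finset.mem_insert.1 hu with h | h
        · rwa [h]
        · rwa [Finset.mem_singleton.1 h]
      · exact KC.AJ_mono z σ (Finset.singleton_subset_iff.2 ha) (hx a)
    · simp only [Y']
      rw [Pi.single_eq_of_ne h, zero_div, zero_div]
      exact Subring.zero_mem _
  obtain ⟨w, hw, hwY⟩ := hK 1 le_rfl (cd Y) (by
    intro J hJ
    obtain ⟨a, b, hab, rfl⟩ : ∃ a b : Λ, a < b ∧ J = {a, b} := by
      obtain ⟨a, b, hne, rfl⟩ := Finset.card_eq_two.1 hJ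
      rcases lt_or_gt_of_ne hne with h | h
      · exact ⟨a, b, h, rfl⟩
      · exact ⟨b, a, h, Finset.pair_comm a b⟩
    have ha : a ∈ ({a, b} : Finset Λ) := Finset.mem_insert_self a _
    have hb : b ∈ ({a, b} : Finset Λ) := Finset.mem_insert_of_mem (Finset.mem_singleton_self b)
    rw [Out2_pair Y hab, hY, hY]
    intro c hc
    refine ⟨fun s => (Y' b - Y' a) ((σ c).succAbove s) / φ c / z (σ c) ^ l, fun s => ?_, ?_⟩
    · change (Y' b - Y' a) ((σ c).succAbove s) / φ c / z (σ c) ^ l ∈ AJ z σ {a, b}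
      rw [Pi.sub_apply, sub_div, sub_div]
      exact Subring.sub_mem _ (hent _ b c hb hc _) (hent _ a c ha hc _)
    · have h1 : ∑ j, z j * (Y' b - Y' a) j = 0 := by
        simp only [Pi.sub_apply, mul_sub, Finset.sum_sub_distrib]
        rw [hYf, hYf, sub_self]
      conv_lhs => rw [eq_ker hz (σ c) (hφ c) h1]
      rw [Finset.smul_sum]
      refine Finset.sum_congr rfl fun i _ => ?_
      rw [smul_smul (z (σ c) ^ l)]
      congr 1
      rw [mul_div_cancel₀ _ (pow_ne_zero l (hz (σ c)))]) (fun J _ => KC.cd_cd Y J)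
  obtain ⟨a₀⟩ := ‹Nonempty Λ›
  have hg : ∀ a, Y' a₀ - w {a₀} = Y' a - w {a} := by
    have key : ∀ a b : Λ, a < b → Y' a - w {a} = Y' b - w {b} := by
      intro a b hab
      have h1 := hwY {a, b} (Finset.card_pair hab.ne)
      rw [Out2_pair Y hab, Out2_pair w hab, hY, hY] at h1
      rw [sub_eq_sub_iff_sub_eq_sub, ← neg_sub (Y' b), ← h1, neg_sub]
    intro a
    rcases lt_trichotomy a₀ a with h | h | h
    · exact key _ _ h
    · rw [h]
    · exact (key _ _ h).symm
  have hwx : ∀ a, ∃ u : Fin M → F, (∀ s, u s ∈ AJ z σ {a}) ∧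
      w {a} = z (σ a) ^ l • ∑ s, u s • (φ a • (Pi.single ((σ a).succAbove s) 1 -
      Pi.single (σ a) (z ((σ a).succAbove s) / z (σ a))) : Fin (M + 1) → F) :=
    fun a => hw {a} (Finset.card_singleton a) a (Finset.mem_singleton_self a)
  refine ⟨Y' a₀ - w {a₀}, fun j a => ?_, ?_⟩
  · rw [hg a]
    obtain ⟨u, hu, e⟩ := hwx a
    have ha := Finset.mem_singleton_self a
    refine ⟨Y' a j / φ a / z (σ a) ^ l - ∑ s, u s * ((Pi.single ((σ a).succAbove s) 1 :
      Fin (M + 1) → F) j - (Pi.single (σ a) (z ((σ a).succAbove s) / z (σ a)) :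
        Fin (M + 1) → F) j), ?_, ?_⟩
    · refine Subring.sub_mem _ (hent _ a a ha ha j) (Subring.sum_mem _ fun s _ =>
        Subring.mul_mem _ (hu s) (Subring.sub_mem _ ?_ ?_))
      · by_cases h : j = (σ a).succAbove s
        · rw [h, Pi.single_eq_same]
          exact Subring.one_mem _
        · rw [Pi.single_eq_of_ne h]
          exact Subring.zero_mem _
      · by_cases h : j = σ a
        · rw [h, Pi.single_eq_same]
          exact KC.div_mem_AJ z σ ha _
        · rw [Pi.single_eq_of_ne h]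
          exact Subring.zero_mem _
    · rw [Pi.sub_apply, e]
      simp only [Pi.smul_apply, Finset.sum_apply, Pi.sub_apply, smul_eq_mul]
      rw [mul_sub]
      have h1 := hz (σ a)
      have h2 := hφ a
      congr 1
      · field_simp
      · rw [Finset.mul_sum, Finset.mul_sum]
        refine Finset.sum_congr rfl fun s _ => ?_
        ring
  · obtain ⟨u, hu, e⟩ := hwx a₀
    have h1 : ∑ j, z j * w {a₀} j = 0 := by
      rw [e]
      have h2 : ∀ j, z j * (z (σ a₀) ^ l • ∑ s, u s • (φ a₀ • (Pi.single ((σ a₀).succAbove s) 1 -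
          Pi.single (σ a₀) (z ((σ a₀).succAbove s) / z (σ a₀))) : Fin (M + 1) → F)) j =
          ∑ s, z (σ a₀) ^ l * u s * (z j * (φ a₀ • (Pi.single ((σ a₀).succAbove s) 1 -
          Pi.single (σ a₀) (z ((σ a₀).succAbove s) / z (σ a₀))) : Fin (M + 1) → F) j) := by
        intro j
        rw [Pi.smul_apply, Finset.sum_apply, smul_eq_mul, Finset.mul_sum, Finset.mul_sum]
        refine Finset.sum_congr rfl fun s _ => ?_
        rw [Pi.smul_apply, smul_eq_mul]
        ring
      simp_rw [h2]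
      rw [Finset.sum_comm]
      refine Finset.sum_eq_zero fun s _ => ?_
      rw [← Finset.mul_sum, Out2_sum hz, mul_zero]
    simp only [Pi.sub_apply, mul_sub, Finset.sum_sub_distrib]
    rw [hYf, h1, sub_zero]

/-- **uniform surjectivity** (output 2)

PROOF. `ev_kvan` for `ker z σ φ`. Let `f` be given. `Y {a} := (f / z (σ a)) e_(σ a)`, `x J := cd Y J` for
`|J| = 2`: the entries of `x J` lie in `z (σ a) ^ l φ a A_J`, `∑ z j (x J) j = f - f = 0`, so `x J ∈ LJ l J`
(`eq_ker`); `cd x = 0` (`cd_cd`). So `x J = cd w J`, `w {a} ∈ LJ l {a}`, and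
`g := Y {a} - w {a}` does not depend on `a`; `∑ z j g j = f - 0`. The index set `Λ` is not empty by
`Geo.cov`. -/
theorem ev_surj (ht : IsTranscendenceBasis ℂ t) {z : Fin (M + 1) → L} {σ : Λ → Fin (M + 1)}
    (hg : Geo n z σ) {φ : Λ → L} (hφ : ∀ a, φ a ≠ 0)
    (hφ' : ∀ a b, φ b / φ a ∈ AR ℂ z σ {a, b}) :
    ∃ l₀ : ℕ, Ev t y fun R => ∀ l, l₀ ≤ l → ∀ f : R.F,
      (∀ a, ∃ x ∈ AJ (fun j => R.r (z j)) σ {a},
        f = R.r (z (σ a)) ^ (l + 1) * R.r (φ a) * x) →
      ∃ g : Fin (M + 1) → R.F,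
        (∀ j a, ∃ x ∈ AJ (fun j => R.r (z j)) σ {a}, g j = R.r (z (σ a)) ^ l * R.r (φ a) * x) ∧
        f = ∑ j, R.r (z j) * g j := by
  obtain ⟨l₀, hl₀⟩ := ev_kvan (y := y) ht hg (ker_indep (z := z) (σ := σ) hφ)
    (ker_trans hg.ne hφ hφ')
  have hne : Nonempty Λ := by
    by_contra h
    rw [not_nonempty_iff] at h
    obtain ⟨e, h', -, he⟩ := hg.cov 0
    rw [Finset.univ_eq_empty, Finset.sum_empty] at he
    exact pow_ne_zero _ (hg.ne 0) he
  refine ⟨l₀, ?_⟩
  have E2 : Ev t y fun R => ∀ j, z j ∈ R.Λ ∧ (z j)⁻¹ ∈ R.Λ ∧ R.r (z j) ≠ 0 :=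
    Ev.all fun j => ev_ne (hg.ne j)
  have E3 : Ev t y fun R => ∀ a, φ a ∈ R.Λ ∧ (φ a)⁻¹ ∈ R.Λ ∧ R.r (φ a) ≠ 0 :=
    Ev.all fun a => ev_ne (hφ a)
  have E4 : Ev t y fun R => ∀ a b, R.r (φ b / φ a) ∈ AJ (fun j => R.r (z j)) σ {a, b} :=
    Ev.all fun a => Ev.all fun b => Out2_quot hg.ne (hφ' a b)
  refine (hl₀.and (E2.and (E3.and E4))).mono fun R hR l hl f hf => ?_
  obtain ⟨hK, hz, hφR, hq⟩ := hR
  refine Out2_surj (fun j => (hz j).2.2) (fun a => (hφR a).2.2) (fun a b => ?_) ?_ f hf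
  · have h1 := hq a b
    rwa [div_eq_mul_inv, R.r_mul (hφR _).1 (hφR _).2.1, R.r_inv (hφ _) (hφR _).1 (hφR _).2.1,
      ← div_eq_mul_inv] at h1
  · have h1 := hK l hl
    have h2 : (fun (a : Λ) (s : Fin M) (i : Fin (M + 1)) => R.r (ker z σ φ a s i)) =
        fun (a : Λ) (s : Fin M) => (R.r (φ a) • (Pi.single ((σ a).succAbove s) 1 -
          Pi.single (σ a) (R.r (z ((σ a).succAbove s)) / R.r (z (σ a)))) :
            Fin (M + 1) → R.F) := by
      funext a s i
      exact Out2_red R hg.ne (fun j => ⟨(hz j).1, (hz j).2.1⟩) (fun a => (hφR a).1) a s i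
    rw [h2] at h1
    exact h1

end Pool.Agent.Lib.MP_732f67_ag.V
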