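import Pool.Agent.Lib.MP_732f67_ag.V.EvK3

/-!
# Project KM, part V: uniform Serre vanishing for lattices which are free on the charts
-/

set_option autoImplicit false

namespace Pool.Agent.Lib.MP_732f67_ag.V

open MvPolynomial
open Pool.Agent.Lib.MP_0b721b_ag.St (Hom)
open Pool.Agent.Lib.MP_732f67_ag.KC (AJ KVan cd)
open Pool.Agent.KM

variable {L : Type} [Field L] [Algebra ℂ L] {n : ℕ} {t : Fin n → L} {y : L} {N : ℕ} {Λ : Type}
  [LinearOrder Λ] [Fintype Λ]

/-- **uniform Serre vanishing for lattices which are free on the charts**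

PROOF. `d` from `exists_trans`; `r = card (Λ × T)`, `Fin r ≃ Λ × T`, `ω' (b, s) = z (σ b) ^ d • ω b s`,
`G a = X (σ a)`, `S a = {(a, s)}`. `B` = the subring of `ℂ` generated by the coefficients of all the
polynomials in `exists_trans`, in `cov` (the relation `X j ^ (e + 1) - ∑ X (σ a) h a` is in `relIdeal`)
and the sets `T` of `ev_inj` for all charts; `B` is noetherian (finitely generated over `ℤ`). `Dat0`
holds; `l₀` := `d + l₀ (kvan)` (natural number). For the reductions with `Λ` large `Red` holds: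
`rel`: `R.r` is a ring homomorphism on `R.Λ`, which contains the `z j`, the entries of the `ω`, and the
constants in `B`, with `R.r (algebraMap c) = algebraMap (R.ψB B c)` (`ψ_spec`); `ind`: a left inverse
of the matrix `(ω a s i)` over `L` (it exists because the rows are independent) reduces to one over
`F`; `inj`: `ev_inj`; `ne`: `ev_ne`. Then `kvan` with `n := l - d`. (K1): `v = z (σ a) ^ l ∑ x s ω a s`,
`x s = f s (z) / g ^ m` with one `m` (`AR_iff`, `AR_prime`), so
`g ^ m v = ∑ z (σ a) ^ (l - d) f s (z) ω' (a, s)`. (K2): `g ^ m v = ∑ v_(b, s) (z) ω' (b, s)` with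
`v_(b, s)` homogeneous of degree `l - d + m |J|`; the reductions of the relations of `exists_trans`
give for `a ∈ J`: `v = z (σ a) ^ l ∑ x u ω a u`, with `x u` a sum of
`v_(b, s) (z) C u (z) / (g ^ m z (σ a) ^ (l - d + M))`, elements of `AJ` (`AR_iff` with a larger exponent:
multiply numerator and denominator by the missing powers of the other `z (σ c)`, `c ∈ J`). -/
theorem ev_kvan (ht : IsTranscendenceBasis ℂ t) {z : Fin N → L} {σ : Λ → Fin N}
    (hg : Geo n z σ) {κ T : Type} [Fintype κ] [Fintype T] {ω : Λ → T → κ → L}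
    (hi : ∀ a, LinearIndependent L (ω a))
    (hω : ∀ a b s, ∃ c : T → L, (∀ u, c u ∈ AR ℂ z σ {a, b}) ∧ ω b s = ∑ u, c u • ω a u) :
    ∃ l₀ : ℕ, Ev t y fun R => ∀ l, l₀ ≤ l →
      KVan (LJ (fun j => R.r (z j)) σ (fun a s i => R.r (ω a s i)) l) := by
  classical
  obtain ⟨d, hd⟩ := exists_trans hg hω
  choose M C hC hCe using hd
  choose m h hh he using hg.cov
  have hch := hg.chart
  choose x w u f hch using hch
  choose S₀ hS₀ using fun a => ev_inj (y := y) ht hg.ne (σ a) (hch a)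
  let S : Finset ℂ := (Finset.univ.biUnion fun a => S₀ a) ∪
    (Finset.univ.biUnion fun j => Finset.univ.biUnion fun a =>
      (h j a).support.image fun c => (h j a).coeff c) ∪
    Finset.univ.biUnion fun a => Finset.univ.biUnion fun b => Finset.univ.biUnion fun s =>
      Finset.univ.biUnion fun u => (C a b s u).support.image fun c => (C a b s u).coeff c
  let B : Subring ℂ := Subring.closure (S : Set ℂ)
  have hSB : ∀ c ∈ S, c ∈ B := fun c hc => Subring.subset_closure hc
  have hBn : IsNoetherianRing B := noeth_closure S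
  have hS₀B : ∀ a, ∀ c ∈ S₀ a, c ∈ B := fun a c hc => hSB c
    (Finset.mem_union_left _ (Finset.mem_union_left _ (Finset.mem_biUnion.2
      ⟨a, Finset.mem_univ a, hc⟩)))
  have hhB : ∀ j a, ∀ c ∈ (h j a).support, (h j a).coeff c ∈ B := fun j a c hc => hSB _
    (Finset.mem_union_left _ (Finset.mem_union_right _ (Finset.mem_biUnion.2
      ⟨j, Finset.mem_univ j, Finset.mem_biUnion.2 ⟨a, Finset.mem_univ a,
        Finset.mem_image_of_mem _ hc⟩⟩)))
  have hCB : ∀ a b s u, ∀ c ∈ (C a b s u).support, (C a b s u).coeff c ∈ B :=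
    fun a b s u c hc => hSB _ (Finset.mem_union_right _ (Finset.mem_biUnion.2
      ⟨a, Finset.mem_univ a, Finset.mem_biUnion.2 ⟨b, Finset.mem_univ b, Finset.mem_biUnion.2
        ⟨s, Finset.mem_univ s, Finset.mem_biUnion.2 ⟨u, Finset.mem_univ u,
          Finset.mem_image_of_mem _ hc⟩⟩⟩⟩))
  -- the polynomials over `B`
  choose h' hh' using fun j a => exists_lift B (h j a) (hhB j a)
  choose C' hC' using fun a b s u => exists_lift B (C a b s u) (hCB a b s u)
  have htr : ∀ a b s, ∃ (M : ℕ) (C : T → MvPolynomial (Fin N) B), (∀ u, Hom B N M (C u)) ∧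
      z (σ a) ^ M • (z (σ b) ^ d • ω b s) = ∑ u, (aeval z (C u) : L) • (z (σ a) ^ d • ω a u) :=
    fun a b s => ⟨M a b s, C' a b s, fun u => hom_lift (by rw [hC']; exact hC a b s u), by
      rw [hCe]
      refine Finset.sum_congr rfl fun u _ => ?_
      rw [← aeval_lift, hC']⟩
  have hcov : ∀ j, ∃ (m : ℕ) (h : Λ → MvPolynomial (Fin N) B), (∀ a, Hom B N m (h a)) ∧
      z j ^ (m + 1) = ∑ a, z (σ a) * aeval z (h a) :=
    fun j => ⟨m j, h' j, fun a => hom_lift (by rw [hh']; exact hh j a), by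
      rw [he]
      refine Finset.sum_congr rfl fun a _ => ?_
      rw [← aeval_lift, hh']⟩
  let e := (Fintype.equivFin (Λ × T)).symm
  obtain ⟨l₁, hl₁⟩ := kvan (mk_dat0 e hcov htr)
  -- left inverses of the matrices of the lattices
  have hinv : ∀ a, ∃ g : T → κ → L, ∀ s s', ∑ i, g s i * ω a s' i = if s = s' then 1 else 0 := by
    intro a
    obtain ⟨G, hG⟩ := LinearMap.exists_leftInverse_of_injective
      (Fintype.linearCombination L (ω a)) (LinearMap.ker_eq_bot.2
        (linearIndependent_iff_injective_fintypeLinearCombination.1 (hi a)))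
    refine ⟨fun s i => G (Pi.single i 1) s, fun s s' => ?_⟩
    have h1 := LinearMap.congr_fun hG (Pi.single s' 1)
    rw [LinearMap.comp_apply, Fintype.linearCombination_apply_single, one_smul,
      LinearMap.id_apply] at h1
    have h2 : G (ω a s') = ∑ i, ω a s' i • G (Pi.single i 1) := by
      conv_lhs => rw [pi_eq_sum_univ' (ω a s')]
      rw [map_sum]
      refine Finset.sum_congr rfl fun i _ => ?_
      rw [map_smul]
    rw [h2] at h1
    have h3 := congrFun h1 s
    rw [Finset.sum_apply, Pi.single_apply] at h3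
    simp only [Pi.smul_apply, smul_eq_mul] at h3
    rw [← h3]
    exact Finset.sum_congr rfl fun i _ => mul_comm _ _
  choose g hg' using hinv
  refine ⟨d + l₁.toNat, ?_⟩
  have E1 : Ev t y fun R => B ≤ R.C := ev_B S
  have E2 : Ev t y fun R => ∀ j, z j ∈ R.Λ ∧ (z j)⁻¹ ∈ R.Λ ∧ R.r (z j) ≠ 0 :=
    Ev.all fun j => ev_ne (hg.ne j)
  have E3 : Ev t y fun R => ∀ a s i, ω a s i ∈ R.Λ :=
    Ev.all fun a => Ev.all fun s => Ev.all fun i => ev_mem _
  have E4 : Ev t y fun R => ∀ a s i, g a s i ∈ R.Λ :=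
    Ev.all fun a => Ev.all fun s => Ev.all fun i => ev_mem _
  have E5 : Ev t y fun R => ∀ a, ∀ (hB : B ≤ R.C) (m : ℤ)
      (g : MvPolynomial (Fin N) (ZMod R.p)), Hom (ZMod R.p) N m g →
      (aeval (fun j => R.r (z j)) g : R.F) = 0 →
      ∃ e : ℕ, X (σ a) ^ e * g ∈ (relIdeal B z).map (MvPolynomial.map (R.ψB B hB)) :=
    Ev.all fun a => hS₀ a B (hS₀B a)
  refine (E1.and (E2.and (E3.and (E4.and E5)))).mono fun R hR l hl => ?_
  obtain ⟨hB, hz, hωΛ, hgΛ, hinj⟩ := hR
  have hred := mk_red (ω := ω) (d := d) e R hB (fun j => (hz j).1) (fun j => (hz j).2.2) hωΛ g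
    hgΛ hg' (fun a m f hf h0 => hinj a hB m f hf h0)
  have hdl : d ≤ l := by omega
  have hl₁' : l₁ ≤ (l : ℤ) - d := by omega
  have htrR : ∀ a b s, ∃ (M : ℕ) (C : T → MvPolynomial (Fin N) (ZMod R.p)),
      (∀ u, Hom (ZMod R.p) N M (C u)) ∧
      R.r (z (σ a)) ^ M • (R.r (z (σ b)) ^ d • (fun i => R.r (ω b s i))) =
        ∑ u, (aeval (fun j => R.r (z j)) (C u) : R.F) •
          (R.r (z (σ a)) ^ d • (fun i => R.r (ω a u i))) := by
    intro a b s
    obtain ⟨M, C, hC, he⟩ := htr a b s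
    refine ⟨M, fun u => MvPolynomial.map (R.ψB B hB) (C u), fun u => hom_map _ (hC u), ?_⟩
    funext i
    have h1 := congrArg R.r (congrFun he i)
    rw [Finset.sum_apply, Pool.Agent.KM.Red.r_sum] at h1
    · simp only [Pi.smul_apply, smul_eq_mul] at h1
      rw [R.r_mul (R.Λ.pow_mem (hz _).1 _) (R.Λ.mul_mem (R.Λ.pow_mem (hz _).1 _) (hωΛ _ _ _)),
        R.r_mul (R.Λ.pow_mem (hz _).1 _) (hωΛ _ _ _), R.r_pow (hz _).1, R.r_pow (hz _).1] at h1
      rw [Finset.sum_apply]
      simp only [Pi.smul_apply, smul_eq_mul]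
      rw [h1]
      refine Finset.sum_congr rfl fun u _ => ?_
      have h3 := r_aeval R hB (fun j => (hz j).1) (C u)
      rw [R.r_mul h3.1 (R.Λ.mul_mem (R.Λ.pow_mem (hz _).1 d) (hωΛ _ _ _)), h3.2,
        R.r_mul (R.Λ.pow_mem (hz _).1 d) (hωΛ _ _ _), R.r_pow (hz _).1]
    · intro u _
      have h3 := r_aeval R hB (fun j => (hz j).1) (C u)
      simp only [Pi.smul_apply, smul_eq_mul]
      exact R.Λ.mul_mem h3.1 (R.Λ.mul_mem (R.Λ.pow_mem (hz _).1 d) (hωΛ _ _ _))
  have hgX : ∀ J : Finset Λ, (∏ a ∈ J, (aeval (fun j => R.r (z j))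
      (MvPolynomial.map (R.ψB B hB) (X (σ a) : MvPolynomial (Fin N) B)) : R.F)) =
      ∏ a ∈ J, R.r (z (σ a)) := fun J => Finset.prod_congr rfl fun a _ => by
    rw [map_X, aeval_X]
  refine hl₁ (ZMod R.p) (R.ψB B hB) R.F (κ → R.F) (fun j => R.r (z j)) _ hred ((l : ℤ) - d) hl₁'
    _ (fun J hJ v hv => ?_) (fun J hJ q w v hw hv => ?_)
  · obtain ⟨q, w, hw, hv'⟩ := LJ_K1 (p := R.p) (fun j => (hz j).2.2) e hdl hJ hv
    refine ⟨q, w, hw, ?_⟩
    rw [hgX]
    exact hv'
  · rw [hgX] at hv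
    exact LJ_K2 (p := R.p) (fun j => (hz j).2.2) e hdl htrR hJ hw hv

end Pool.Agent.Lib.MP_732f67_ag.V
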