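import Pool.Agent.Lib.MP_0b721b_ag.StF

/-!
# Project KM, part V: the graded module of the relations between vectors
-/

set_option autoImplicit false

namespace Pool.Agent.Lib.MP_732f67_ag.V

open MvPolynomial
open Pool.Agent.Lib.MP_0b721b_ag
open Pool.Agent.Lib.MP_0b721b_ag.St (Hom hom_iff)

variable {R : Type*} [CommRing R] {L : Type*} [Field L] [Algebra R L] {N : ℕ} {E : Type*}
  [AddCommGroup E] [Module L E] {r : ℕ}

/-- evaluation of a vector of polynomials: `∑ v j (z) ω j` -/
noncomputable def ev (z : Fin N → L) (ω : Fin r → E) : (Fin r → MvPolynomial (Fin N) R) →+ E :=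
  AddMonoidHom.mk' (fun v => ∑ j, (aeval z (v j) : L) • ω j) (fun v w => by
    rw [← Finset.sum_add_distrib]
    exact Finset.sum_congr rfl fun j _ => by rw [Pi.add_apply, map_add, add_smul])

variable {z : Fin N → L} {ω : Fin r → E}

theorem ev_apply (v : Fin r → MvPolynomial (Fin N) R) :
    ev z ω v = ∑ j, (aeval z (v j) : L) • ω j := rfl

theorem ev_smul (a : MvPolynomial (Fin N) R) (v : Fin r → MvPolynomial (Fin N) R) :
    ev z ω (a • v) = (aeval z a : L) • ev z ω v := by
  rw [ev_apply, ev_apply, Finset.smul_sum]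
  exact Finset.sum_congr rfl fun j _ => by rw [Pi.smul_apply, smul_eq_mul, map_mul, mul_smul]

/-- the homogeneous relations between the `z j` -/
noncomputable def relIdeal (R : Type*) [CommRing R] [Algebra R L] (z : Fin N → L) :
    Ideal (MvPolynomial (Fin N) R) where
  carrier := {f | ∀ n, (aeval z ((polyGr R (fun _ : Fin N => (1 : ℤ))).pr n f) : L) = 0}
  zero_mem' n := by rw [map_zero, map_zero]
  add_mem' {f g} hf hg n := by rw [map_add, map_add, hf n, hg n, add_zero]
  smul_mem' a f hf n := by
    rw [p10c_pr_smul (polyGr_gmod _)]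
    refine finsum_induction (fun y : MvPolynomial (Fin N) R => (aeval z y : L) = 0) (map_zero _)
      (fun x y hx hy => by rw [map_add, hx, hy, add_zero]) (fun j => ?_)
    rw [smul_eq_mul, map_mul, hf, mul_zero]

theorem mem_relIdeal {f : MvPolynomial (Fin N) R} :
    f ∈ relIdeal R z ↔ ∀ n, (aeval z ((polyGr R (fun _ : Fin N => (1 : ℤ))).pr n f) : L) = 0 :=
  Iff.rfl

theorem relIdeal_sub : (polyGr R (fun _ : Fin N => (1 : ℤ))).Sub (relIdeal R z) := by
  intro n f hf m
  by_cases h : m = n
  · subst h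
    rw [Gr.pr_same]
    exact hf m
  · rw [Gr.pr_ne _ _ _ h, map_zero]

/-- the homogeneous relations between the `ω j` over the `z j` -/
noncomputable def relMod (R : Type*) [CommRing R] [Algebra R L] (z : Fin N → L) (ω : Fin r → E) :
    Submodule (MvPolynomial (Fin N) R) (Fin r → MvPolynomial (Fin N) R) where
  carrier := {v | ∀ n, ev z ω ((freeGr R (fun _ : Fin N => (1 : ℤ)) (fun _ => 0)).pr n v) = 0}
  zero_mem' n := by rw [map_zero, map_zero]
  add_mem' {f g} hf hg n := by rw [map_add, map_add, hf n, hg n, add_zero]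
  smul_mem' a f hf n := by
    rw [p10c_pr_smul p10c_gmod]
    refine finsum_induction (fun y => ev z ω y = 0) (map_zero _)
      (fun x y hx hy => by rw [map_add, hx, hy, add_zero]) (fun j => ?_)
    rw [ev_smul, hf, smul_zero]

theorem relMod_sub :
    (freeGr R (fun _ : Fin N => (1 : ℤ)) (fun _ => 0)).Sub (relMod R z ω) := by
  intro n f hf m
  by_cases h : m = n
  · subst h
    rw [Gr.pr_same]
    exact hf m
  · rw [Gr.pr_ne _ _ _ h, map_zero]

/-- homogeneous vectors -/
theorem hom_vec {n : ℤ} {v : Fin r → MvPolynomial (Fin N) R} (hv : ∀ j, Hom R N n (v j)) :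
    (freeGr R (fun _ : Fin N => (1 : ℤ)) (fun _ => 0)).Hom n v := by
  funext j
  have := hom_iff.1 (hv j)
  change (polyGr R _).pr (n - 0) (v j) = v j
  rw [sub_zero]
  exact this

theorem vec_hom {n : ℤ} {v : Fin r → MvPolynomial (Fin N) R}
    (hv : (freeGr R (fun _ : Fin N => (1 : ℤ)) (fun _ => 0)).Hom n v) (j : Fin r) :
    Hom R N n (v j) := by
  have := congrFun hv j
  change (polyGr R _).pr (n - 0) (v j) = v j at this
  rw [sub_zero] at this
  exact hom_iff.2 this

theorem mem_relMod_of_hom {n : ℤ} {v : Fin r → MvPolynomial (Fin N) R}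
    (hv : ∀ j, Hom R N n (v j)) (h : ev z ω v = 0) : v ∈ relMod R z ω := by
  intro m
  have h1 := hom_vec hv
  unfold Gr.Hom at h1
  by_cases hm : m = n
  · subst hm
    rw [h1]
    exact h
  · rw [← h1, Gr.pr_ne _ _ _ hm, map_zero]

/-- the relations between the `z j` kill the module -/
theorem relIdeal_smul {a : MvPolynomial (Fin N) R} (ha : a ∈ relIdeal R z)
    (v : Fin r → MvPolynomial (Fin N) R) : a • v ∈ relMod R z ω := by
  intro n
  rw [p10c_pr_smul p10c_gmod]
  refine finsum_induction (fun y => ev z ω y = 0) (map_zero _)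
    (fun x y hx hy => by rw [map_add, hx, hy, add_zero]) (fun j => ?_)
  rw [ev_smul, ha, zero_smul]

end Pool.Agent.Lib.MP_732f67_ag.V
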