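import Pool.Agent.Lib.MP_732f67_ag.V.Rel
import Pool.Agent.Lib.MP_732f67_ag.KC.Cech

/-!
# Project KM, part V: uniform Serre vanishing for lattices
-/

set_option autoImplicit false

namespace Pool.Agent.Lib.MP_732f67_ag.V

open MvPolynomial
open Pool.Agent.Lib.MP_0b721b_ag
open Pool.Agent.Lib.MP_0b721b_ag.St
open Pool.Agent.Lib.MP_732f67_ag.KC (cd)

universe u

section basic

variable {R : Type*} [CommRing R] {N : ℕ}

theorem hom_mul {m n : ℤ} {f g : MvPolynomial (Fin N) R} (hf : Hom R N m f) (hg : Hom R N n g) :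
    Hom R N (m + n) (f * g) := hom_iff.2 (polyGr_mul (hom_iff.1 hf) (hom_iff.1 hg))

theorem hom_pow {n : ℤ} {f : MvPolynomial (Fin N) R} (hf : Hom R N n f) (k : ℕ) :
    Hom R N (k * n) (f ^ k) := hom_iff.2 (polyGr_pow (hom_iff.1 hf) k)

theorem hom_sub {n : ℤ} {f g : MvPolynomial (Fin N) R} (hf : Hom R N n f) (hg : Hom R N n g) :
    Hom R N n (f - g) := by
  rw [hom_iff] at *
  unfold Gr.Hom at *
  rw [_root_.map_sub, hf, hg]

theorem hom_zsmul {n : ℤ} {f : MvPolynomial (Fin N) R} (hf : Hom R N n f) (c : ℤ) :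
    Hom R N n (c • f) := by
  rw [hom_iff] at *
  unfold Gr.Hom at *
  rw [map_zsmul, hf]

theorem hom_zero (n : ℤ) : Hom R N n 0 := hom_iff.2 (Gr.Hom.zero _ _)

theorem hom_one : Hom R N 0 1 := by
  have := polyGr_C (A := R) (fun _ : Fin N => (1 : ℤ)) 1
  rw [C_1] at this
  exact hom_iff.2 this

theorem hom_sum {ι : Type*} {n : ℤ} (s : Finset ι) (f : ι → MvPolynomial (Fin N) R)
    (hf : ∀ i ∈ s, Hom R N n (f i)) : Hom R N n (∑ i ∈ s, f i) := by
  classical
  induction s using Finset.induction_on with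
  | empty =>
    rw [Finset.sum_empty]
    exact hom_iff.2 (Gr.Hom.zero _ _)
  | insert i s hi ih =>
    rw [Finset.sum_insert hi]
    exact hom_iff.2 ((hom_iff.1 (hf i (Finset.mem_insert_self i s))).add
      (hom_iff.1 (ih fun j hj => hf j (Finset.mem_insert_of_mem hj))))

theorem hom_map {R' : Type*} [CommRing R'] (ψ : R →+* R') {n : ℤ} {f : MvPolynomial (Fin N) R}
    (hf : Hom R N n f) : Hom R' N n (map ψ f) := hom_iff.2 (polyGr_map_hom ψ (hom_iff.1 hf))

end basic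

variable {Λ : Type}

/-- the trivial line bundle on the cover `G a ≠ 0` -/
noncomputable def triv {R : Type u} [CommRing R] {N : ℕ} (G : Λ → MvPolynomial (Fin N) R) :
    Bun (MvPolynomial (Fin N) R) Λ where
  f := G
  d _ := 1
  t := 0
  v _ _ := 1

theorem triv_isBun {R : Type u} [CommRing R] {N : ℕ} {G : Λ → MvPolynomial (Fin N) R}
    {I : Ideal (MvPolynomial (Fin N) R)} (hG : ∀ a, Hom R N 1 (G a))
    (hc : ∀ j, ∃ e : ℕ, (X j : MvPolynomial (Fin N) R) ^ e ∈ I ⊔ Ideal.span (Set.range G)) :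
    IsBun (Hom R N) X (triv G) I where
  pos _ := one_pos
  hf := hG
  hv a b := hom_iff.2 (by
    have := polyGr_C (A := R) (fun _ : Fin N => (1 : ℤ)) 1
    rw [C_1] at this
    have h0 : (((triv G).t : ℕ) : ℤ) * ((triv G).d a + (triv G).d b) = 0 := by
      change ((0 : ℕ) : ℤ) * _ = 0
      rw [Nat.cast_zero, zero_mul]
    rw [h0]
    exact this)
  self a := ⟨0, by
    change G a ^ 0 * (1 - G a ^ (2 * 0)) ∈ I
    rw [mul_zero, pow_zero, sub_self, mul_zero]
    exact I.zero_mem⟩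
  cocy a b c := ⟨0, by
    change (G a * G b * G c) ^ 0 * (1 * 1 - 1 * G b ^ (2 * 0)) ∈ I
    rw [mul_zero, pow_zero, pow_zero, sub_self, mul_zero]
    exact I.zero_mem⟩
  cov := hc

theorem triv_amp {R : Type u} [CommRing R] {N : ℕ} {G : Λ → MvPolynomial (Fin N) R}
    {I : Ideal (MvPolynomial (Fin N) R)} {n : ℤ} (hn : 0 < n) :
    (toDat (triv G)).Amp (fun _ => 1) I n := by
  refine ⟨1, 0, le_rfl, by rw [Nat.cast_one, one_mul]; exact hn, 0, 1, fun _ _ => 1, ?_, ?_, ?_⟩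
  · intro _ a
    have := polyGr_C (A := R) (fun _ : Fin N => (1 : ℤ)) 1
    rw [C_1] at this
    convert this using 1
    rw [Nat.cast_zero, zero_mul, add_zero]
  · intro _ a b
    refine ⟨0, ?_⟩
    have : (1 : MvPolynomial (Fin N) R) * G b ^ 0 * (G a * G b) ^ (1 * 0) - 1 ^ 1 * 1 * G a ^ 0 = 0 := by
      simp
    change (G a * G b) ^ 0 * (1 * G b ^ 0 * (G a * G b) ^ (1 * 0) - 1 ^ 1 * 1 * G a ^ 0) ∈ I
    rw [this, mul_zero]
    exact I.zero_mem
  · intro a
    refine ⟨0, ?_⟩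
    rw [pow_zero]
    exact Ideal.mem_sup_left (Ideal.subset_span ⟨0, rfl⟩)

section main

variable [LinearOrder Λ] [Fintype Λ] {B : Type u} [CommRing B] {N r : ℕ}

/-- the vanishing, for the module of the relations -/
theorem van_rel [IsNoetherianRing B] {L : Type*} [Field L] [Algebra B L] {E : Type*}
    [AddCommGroup E] [Module L E] (z : Fin N → L) (ω : Fin r → E)
    (G : Λ → MvPolynomial (Fin N) B) (hG : ∀ a, Hom B N 1 (G a))
    (hc : ∀ j, ∃ e : ℕ, (X j : MvPolynomial (Fin N) B) ^ e ∈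
      relIdeal B z ⊔ Ideal.span (Set.range G)) :
    ∃ l₀ : ℤ, ∀ (k : Type u) [Field k] (ψ : B →+* k) (n : ℤ), l₀ ≤ n → ∀ b, 1 ≤ b →
      Vanish (HomV k N (fun _ : Fin r => 0)) (triv (fun a => map ψ (G a)))
        (bcS ψ (relMod B z ω)) n b := by
  obtain ⟨m₀, h⟩ := core_module (w := fun _ : Fin N => (1 : ℤ)) (fun _ => one_pos)
    (relIdeal B z) relIdeal_sub (fun _ => 0) (relMod B z ω) relMod_sub
    (fun a ha v => relIdeal_smul ha v)
  refine ⟨m₀ + 1, fun k _ ψ n hn b hb => ?_⟩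
  have hLb : (toDat (triv (fun a => map ψ (G a)))).Lb (fun _ : Fin N => (1 : ℤ))
      ((relIdeal B z).map (MvPolynomial.map ψ)) := by
    refine isBun_iff.1 (triv_isBun (fun a => hom_map ψ (hG a)) fun j => ?_)
    obtain ⟨e, he⟩ := hc j
    refine ⟨e, ?_⟩
    have h1 := Ideal.mem_map_of_mem (MvPolynomial.map ψ) he
    rw [Ideal.map_sup, Ideal.map_span, map_pow, map_X, ← Set.range_comp] at h1
    exact h1
  have hv := h k ψ Λ (toDat (triv (fun a => map ψ (G a)))) hLb n (triv_amp (by omega)) b hb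
  refine vanish_of_hv (D := triv (fun a => map ψ (G a))) (fun _ _ => homV_iff)
    (bcS_sub ψ relMod_sub) ?_ hv
  refine hLb.ok (p10c_gmod.quot _ _) fun a ha m => ?_
  obtain ⟨m, rfl⟩ := Submodule.Quotient.mk_surjective _ m
  rw [← Submodule.Quotient.mk_smul, Submodule.Quotient.mk_eq_zero]
  exact p10b_bcS_kill ψ (fun a ha v => relIdeal_smul ha v) ha m

end main

end Pool.Agent.Lib.MP_732f67_ag.V
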