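import Mathlib

/-!
# Project KM, part V: auxiliary lemmas for `Inj`: homogenisation, polynomials over subrings
-/

set_option autoImplicit false

namespace Pool.Agent.Lib.MP_732f67_ag.V

open MvPolynomial

section homog

variable {R : Type*} [CommRing R] {N : ℕ}

/-- homogenisation with respect to `X s` -/
noncomputable def injH (s : Fin N) (D : ℕ) (k : MvPolynomial (Fin N) R) :
    MvPolynomial (Fin N) R :=
  ∑ d ∈ k.support, monomial (d + Finsupp.single s (D - ∑ i, d i)) (coeff d k)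

theorem injH_hom (s : Fin N) (D : ℕ) (k : MvPolynomial (Fin N) R)
    (hD : ∀ d ∈ k.support, ∑ i, d i ≤ D) :
    ∀ d ∈ (injH s D k).support, (∑ i, (d i : ℤ)) = D := by
  classical
  intro d hd
  rw [injH] at hd
  have h1 := support_sum hd
  rw [Finset.mem_biUnion] at h1
  obtain ⟨d', hd', h2⟩ := h1
  have h3 := support_monomial_subset h2
  rw [Finset.mem_singleton] at h3
  subst h3
  have h4 := hD d' hd'
  have h5 : ∑ i, (d' + Finsupp.single s (D - ∑ i, d' i)) i = D := by
    simp only [Finsupp.add_apply, Finset.sum_add_distrib]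
    have h6 : ∑ i, (Finsupp.single s (D - ∑ i, d' i)) i = D - ∑ i, d' i := by
      rw [Finset.sum_eq_single s]
      · rw [Finsupp.single_eq_same]
      · intro b _ hb
        rw [Finsupp.single_eq_of_ne hb]
      · intro h
        exact absurd (Finset.mem_univ s) h
    rw [h6]
    omega
  exact_mod_cast h5

theorem injH_map {R' : Type*} [CommRing R'] (ψ : R →+* R') (s : Fin N) (D : ℕ)
    (k : MvPolynomial (Fin N) R) : map ψ (injH s D k) = injH s D (map ψ k) := by
  classical
  rw [injH, injH, map_sum]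
  symm
  have h1 : (map ψ k).support ⊆ k.support := support_map_subset ψ k
  rw [← Finset.sum_subset h1]
  · refine Finset.sum_congr rfl fun d _ => ?_
    rw [map_monomial, coeff_map]
  · intro d _ hd
    rw [notMem_support_iff] at hd
    rw [map_monomial, ← coeff_map, hd, monomial_zero]

theorem injH_of_hom (s : Fin N) {D m : ℕ} (g : MvPolynomial (Fin N) R)
    (hg : ∀ d ∈ g.support, (∑ i, (d i : ℤ)) = m) : injH s D g = X s ^ (D - m) * g := by
  have h1 : ∀ d ∈ g.support, ∑ i, d i = m := fun d hd => by exact_mod_cast hg d hd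
  rw [injH, X_pow_eq_monomial]
  conv_rhs => rw [as_sum g, Finset.mul_sum]
  refine Finset.sum_congr rfl fun d hd => ?_
  rw [monomial_mul, one_mul, h1 d hd, add_comm]

theorem injH_aeval {F : Type*} [Field F] [Algebra R F] (z : Fin N → F) (s : Fin N) (hs : z s ≠ 0)
    {D : ℕ} (k : MvPolynomial (Fin N) R) (hD : ∀ d ∈ k.support, ∑ i, d i ≤ D) :
    aeval z (injH s D k) = z s ^ D * aeval (fun j => z j / z s) k := by
  rw [injH, map_sum]
  conv_rhs => rw [as_sum k, map_sum, Finset.mul_sum]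
  refine Finset.sum_congr rfl fun d hd => ?_
  rw [aeval_monomial, aeval_monomial, Finsupp.prod_fintype _ _ fun i => pow_zero _,
    Finsupp.prod_fintype _ _ fun i => pow_zero _]
  have h1 : ∏ i, z i ^ (d + Finsupp.single s (D - ∑ i, d i)) i =
      (∏ i, z i ^ d i) * z s ^ (D - ∑ i, d i) := by
    simp only [Finsupp.add_apply, pow_add, Finset.prod_mul_distrib]
    congr 1
    rw [Finset.prod_eq_single s]
    · rw [Finsupp.single_eq_same]
    · intro b _ hb
      rw [Finsupp.single_eq_of_ne hb, pow_zero]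
    · intro h
      exact absurd (Finset.mem_univ s) h
  have h2 : ∏ i, (z i / z s) ^ d i = (∏ i, z i ^ d i) / z s ^ (∑ i, d i) := by
    simp only [div_pow, Finset.prod_div_distrib, Finset.prod_pow_eq_pow_sum]
  have h3 : z s ^ D = z s ^ (D - ∑ i, d i) * z s ^ (∑ i, d i) := by
    rw [← pow_add, Nat.sub_add_cancel (hD d hd)]
  rw [h1, h2, h3]
  field_simp

end homog

section lift

theorem inj_lift_mv {σ : Type} (a : MvPolynomial σ ℂ) : ∃ T : Finset ℂ, ∀ B : Subring ℂ,
    (∀ c ∈ T, c ∈ B) → ∃ aB : MvPolynomial σ B, MvPolynomial.map B.subtype aB = a := by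
  classical
  induction a using MvPolynomial.induction_on with
  | C c => exact ⟨{c}, fun B hB => ⟨C ⟨c, hB c (Finset.mem_singleton_self c)⟩, by rw [map_C]; rfl⟩⟩
  | add p q hp hq =>
    obtain ⟨T, hT⟩ := hp
    obtain ⟨T', hT'⟩ := hq
    refine ⟨T ∪ T', fun B hB => ?_⟩
    obtain ⟨p', hp'⟩ := hT B fun c hc => hB c (Finset.mem_union_left _ hc)
    obtain ⟨q', hq'⟩ := hT' B fun c hc => hB c (Finset.mem_union_right _ hc)
    exact ⟨p' + q', by rw [map_add, hp', hq']⟩
  | mul_X p i hp =>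
    obtain ⟨T, hT⟩ := hp
    refine ⟨T, fun B hB => ?_⟩
    obtain ⟨p', hp'⟩ := hT B hB
    exact ⟨p' * X i, by rw [map_mul, map_X, hp']⟩

theorem inj_lift {n : ℕ} (g : Polynomial (MvPolynomial (Fin n) ℂ)) :
    ∃ T : Finset ℂ, ∀ B : Subring ℂ, (∀ c ∈ T, c ∈ B) →
      ∃ gB : Polynomial (MvPolynomial (Fin n) B), gB.map (MvPolynomial.map B.subtype) = g := by
  classical
  induction g using Polynomial.induction_on' with
  | add p q hp hq =>
    obtain ⟨T, hT⟩ := hp
    obtain ⟨T', hT'⟩ := hq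
    refine ⟨T ∪ T', fun B hB => ?_⟩
    obtain ⟨p', hp'⟩ := hT B fun c hc => hB c (Finset.mem_union_left _ hc)
    obtain ⟨q', hq'⟩ := hT' B fun c hc => hB c (Finset.mem_union_right _ hc)
    exact ⟨p' + q', by rw [Polynomial.map_add, hp', hq']⟩
  | monomial k a =>
    obtain ⟨T, hT⟩ := inj_lift_mv a
    refine ⟨T, fun B hB => ?_⟩
    obtain ⟨a', ha'⟩ := hT B hB
    exact ⟨Polynomial.monomial k a', by rw [Polynomial.map_monomial, ha']⟩

end lift

section eval

variable {L : Type} [Field L] [Algebra ℂ L] {n : ℕ}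

/-- evaluation at `(x, w)` -/
noncomputable def injE (x : Fin n → L) (w : L) : Polynomial (MvPolynomial (Fin n) ℂ) →+* L :=
  Polynomial.eval₂RingHom (MvPolynomial.aeval x : MvPolynomial (Fin n) ℂ →ₐ[ℂ] L).toRingHom w

theorem injE_apply (x : Fin n → L) (w : L) (g : Polynomial (MvPolynomial (Fin n) ℂ)) :
    injE x w g =
      g.eval₂ (MvPolynomial.aeval x : MvPolynomial (Fin n) ℂ →ₐ[ℂ] L).toRingHom w := rfl

theorem injE_C (x : Fin n → L) (w : L) (a : MvPolynomial (Fin n) ℂ) :
    injE x w (Polynomial.C a) = aeval x a := by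
  rw [injE_apply, Polynomial.eval₂_C]
  rfl

theorem injE_X (x : Fin n → L) (w : L) : injE x w Polynomial.X = w := by
  rw [injE_apply, Polynomial.eval₂_X]

theorem inj_range (x : Fin n → L) (w : L) {a : L}
    (ha : a ∈ Algebra.adjoin ℂ (insert w (Set.range x))) : ∃ P, injE x w P = a := by
  induction ha using Algebra.adjoin_induction with
  | mem a ha =>
    rcases ha with rfl | ⟨i, rfl⟩
    · exact ⟨Polynomial.X, injE_X x a⟩
    · exact ⟨Polynomial.C (X i), by rw [injE_C, aeval_X]⟩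
  | algebraMap c => exact ⟨Polynomial.C (C c), by rw [injE_C, aeval_C]⟩
  | add a b _ _ ha hb =>
    obtain ⟨P, rfl⟩ := ha
    obtain ⟨Q, rfl⟩ := hb
    exact ⟨P + Q, map_add _ _ _⟩
  | mul a b _ _ ha hb =>
    obtain ⟨P, rfl⟩ := ha
    obtain ⟨Q, rfl⟩ := hb
    exact ⟨P * Q, map_mul _ _ _⟩

theorem inj_range_u (x : Fin n → L) (w u : L) (hu : u ≠ 0)
    {G : Polynomial (MvPolynomial (Fin n) ℂ)} (hG : injE x w G = u⁻¹) {a : L}
    (ha : a ∈ Algebra.adjoin ℂ (insert u (insert w (Set.range x)))) :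
    ∃ (e : ℕ) (P : Polynomial (MvPolynomial (Fin n) ℂ)), injE x w P = a * u⁻¹ ^ e := by
  induction ha using Algebra.adjoin_induction with
  | mem a ha =>
    rcases ha with rfl | rfl | ⟨i, rfl⟩
    · exact ⟨1, 1, by rw [map_one, pow_one, mul_inv_cancel₀ hu]⟩
    · exact ⟨0, Polynomial.X, by rw [injE_X, pow_zero, mul_one]⟩
    · exact ⟨0, Polynomial.C (X i), by rw [injE_C, aeval_X, pow_zero, mul_one]⟩
  | algebraMap c => exact ⟨0, Polynomial.C (C c), by rw [injE_C, aeval_C, pow_zero, mul_one]⟩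
  | add a b _ _ ha hb =>
    obtain ⟨e, P, hP⟩ := ha
    obtain ⟨e', Q, hQ⟩ := hb
    refine ⟨e + e', P * G ^ e' + Q * G ^ e, ?_⟩
    rw [map_add, map_mul, map_mul, map_pow, map_pow, hP, hQ, hG]
    ring
  | mul a b _ _ ha hb =>
    obtain ⟨e, P, hP⟩ := ha
    obtain ⟨e', Q, hQ⟩ := hb
    refine ⟨e + e', P * Q, ?_⟩
    rw [map_mul, hP, hQ]
    ring

/-- polynomials over `B` in the `v j`, times a power of `1 / u`, are polynomials over `B` in `x`
and `w` -/
theorem inj_num (x : Fin n → L) (w u : L) {N : ℕ} (v : Fin N → L) (B : Subring ℂ)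
    {G : Polynomial (MvPolynomial (Fin n) B)}
    (hG : injE x w (G.map (MvPolynomial.map B.subtype)) = u⁻¹)
    (hv : ∀ j, ∃ (e : ℕ) (P : Polynomial (MvPolynomial (Fin n) B)),
      injE x w (P.map (MvPolynomial.map B.subtype)) = v j * u⁻¹ ^ e)
    (k : MvPolynomial (Fin N) B) : ∃ (e : ℕ) (P : Polynomial (MvPolynomial (Fin n) B)),
      injE x w (P.map (MvPolynomial.map B.subtype)) =
        aeval v (MvPolynomial.map B.subtype k) * u⁻¹ ^ e := by
  induction k using MvPolynomial.induction_on with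
  | C c =>
    refine ⟨0, Polynomial.C (C c), ?_⟩
    rw [Polynomial.map_C, injE_C, map_C, aeval_C, map_C, aeval_C, pow_zero, mul_one]
  | add a b ha hb =>
    obtain ⟨e, P, hP⟩ := ha
    obtain ⟨e', Q, hQ⟩ := hb
    refine ⟨e + e', P * G ^ e' + Q * G ^ e, ?_⟩
    rw [Polynomial.map_add, Polynomial.map_mul, Polynomial.map_mul, Polynomial.map_pow,
      Polynomial.map_pow, map_add, map_mul, map_mul, map_pow, map_pow, hP, hQ, hG, map_add, map_add]
    ring
  | mul_X a i ha =>
    obtain ⟨e, P, hP⟩ := ha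
    obtain ⟨e', Q, hQ⟩ := hv i
    refine ⟨e + e', P * Q, ?_⟩
    rw [Polynomial.map_mul, map_mul, hP, hQ, map_mul, map_mul, map_X, aeval_X]
    ring

end eval

end Pool.Agent.Lib.MP_732f67_ag.V
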