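import Pool.Agent.Lib.MP_732f67_ag.V.AJHom
import Pool.Agent.Lib.MP_732f67_ag.V.InjA
import Pool.Agent.Lib.MP_732f67_ag.G.RedDeg

/-!
# Project KM, part V: the fibres of the rings of the charts
-/

set_option autoImplicit false

namespace Pool.Agent.Lib.MP_732f67_ag.V

open MvPolynomial
open Pool.Agent.Lib.MP_0b721b_ag.St (Hom)
open Pool.Agent.KM

variable {L : Type} [Field L] [Algebra ℂ L] {n : ℕ}

/-- `A = ℂ[x, w, u]`, `x` a transcendence basis, `f (x, w) = 0` with `f` monic and irreducible,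
`1 / u ∈ ℂ[x, w]` -/
structure Chart (A : Subalgebra ℂ L) (x : Fin n → L) (w u : L)
    (f : Polynomial (MvPolynomial (Fin n) ℂ)) : Prop where
  tb : IsTranscendenceBasis ℂ x
  monic : f.Monic
  irr : Irreducible f
  root : f.eval₂ (MvPolynomial.aeval x : MvPolynomial (Fin n) ℂ →ₐ[ℂ] L).toRingHom w = 0
  u_ne : u ≠ 0
  u_inv : u⁻¹ ∈ Algebra.adjoin ℂ (insert w (Set.range x))
  A_eq : A = Algebra.adjoin ℂ (insert u (insert w (Set.range x)))

variable {t : Fin n → L} {y : L} {N : ℕ}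

/-- evaluation of polynomials over `B` commutes with the reduction -/
theorem inj_r_aeval (R : Red L t y) {B : Subring ℂ} (hB : B ≤ R.C) {v : Fin N → L}
    (hv : ∀ j, v j ∈ R.Λ) (k : MvPolynomial (Fin N) B) :
    (aeval v (MvPolynomial.map B.subtype k) : L) ∈ R.Λ ∧
      R.r (aeval v (MvPolynomial.map B.subtype k)) =
        aeval (fun j => R.r (v j)) (MvPolynomial.map (R.ψB B hB) k) := by
  induction k using MvPolynomial.induction_on with
  | C c =>
    rw [map_C, aeval_C, map_C, aeval_C]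
    exact ⟨hB c.2, R.ψ_spec ⟨c, hB c.2⟩⟩
  | add a b ha hb =>
    simp only [map_add]
    exact ⟨R.Λ.add_mem ha.1 hb.1, by rw [R.r_add ha.1 hb.1, ha.2, hb.2]⟩
  | mul_X a i ha =>
    simp only [map_mul, map_X, aeval_X]
    exact ⟨R.Λ.mul_mem ha.1 (hv i), by rw [R.r_mul ha.1 (hv i), ha.2]⟩

/-- substitution of polynomials for `x`, `w` -/
noncomputable def injS {R : Type*} [CommRing R] (qx : Fin n → MvPolynomial (Fin N) R)
    (qw : MvPolynomial (Fin N) R) : Polynomial (MvPolynomial (Fin n) R) →+* MvPolynomial (Fin N) R :=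
  Polynomial.eval₂RingHom
    (MvPolynomial.aeval qx : MvPolynomial (Fin n) R →ₐ[R] MvPolynomial (Fin N) R).toRingHom qw

theorem injS_map {R R' : Type*} [CommRing R] [CommRing R'] (ψ : R →+* R')
    (qx : Fin n → MvPolynomial (Fin N) R) (qw : MvPolynomial (Fin N) R)
    (P : Polynomial (MvPolynomial (Fin n) R)) :
    MvPolynomial.map ψ (injS qx qw P) =
      injS (fun i => MvPolynomial.map ψ (qx i)) (MvPolynomial.map ψ qw)
        (P.map (MvPolynomial.map ψ)) := by
  have h : (MvPolynomial.map ψ : MvPolynomial (Fin N) R →+* MvPolynomial (Fin N) R').comp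
      (injS qx qw) =
      (injS (fun i => MvPolynomial.map ψ (qx i)) (MvPolynomial.map ψ qw)).comp
        (Polynomial.mapRingHom (MvPolynomial.map ψ)) := by
    apply Polynomial.ringHom_ext'
    · apply MvPolynomial.ringHom_ext
      · intro c
        simp [injS]
      · intro i
        simp [injS]
    · simp [injS]
  exact RingHom.congr_fun h P

theorem injS_aeval {x : Fin n → L} {w : L} {v : Fin N → L} (B : Subring ℂ)
    (qx : Fin n → MvPolynomial (Fin N) B) (qw : MvPolynomial (Fin N) B)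
    (hx : ∀ i, aeval v (MvPolynomial.map B.subtype (qx i)) = x i)
    (hw : aeval v (MvPolynomial.map B.subtype qw) = w)
    (P : Polynomial (MvPolynomial (Fin n) B)) :
    aeval v (MvPolynomial.map B.subtype (injS qx qw P)) =
      injE x w (P.map (MvPolynomial.map B.subtype)) := by
  have h : (((aeval v : MvPolynomial (Fin N) ℂ →ₐ[ℂ] L).toRingHom).comp
      (MvPolynomial.map B.subtype)).comp (injS qx qw) =
      (injE x w).comp (Polynomial.mapRingHom (MvPolynomial.map B.subtype)) := by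
    apply Polynomial.ringHom_ext'
    · apply MvPolynomial.ringHom_ext
      · intro c
        simp [injS, injE]
      · intro i
        simpa [injS, injE] using hx i
    · simpa [injS, injE] using hw
  exact RingHom.congr_fun h P

omit [Algebra ℂ L] in
theorem inj_mem_rel {R : Type*} [CommRing R] [Algebra R L] {z : Fin N → L} {m : ℤ}
    {k : MvPolynomial (Fin N) R} (hk : Hom R N m k) (h : (aeval z k : L) = 0) :
    k ∈ relIdeal R z := by
  have h1 := Pool.Agent.Lib.MP_0b721b_ag.St.hom_iff.1 hk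
  unfold Pool.Agent.Lib.MP_0b721b_ag.Gr.Hom at h1
  rw [mem_relIdeal]
  intro j
  by_cases hj : j = m
  · subst hj
    rw [h1]
    exact h
  · rw [← h1, Pool.Agent.Lib.MP_0b721b_ag.Gr.pr_ne _ _ _ hj, map_zero]

/-- **the ring of the chart `z s ≠ 0` over `B`, reduced modulo `p`, injects into `F`**: a
homogeneous polynomial over `𝔽_p` which vanishes at the `ρ (z j)` is, times a power of `X s`, in the
ideal generated by the reductions of the homogeneous relations over `B` between the `z j`.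

PROOF. `T` = all coefficients of: polynomials `P j` with `z j / z s = P j (x, w) u ^ e`, of the
polynomial `1 / u = G (x, w)`, of `f`, and of homogeneous polynomials `h` of degree `M` with
`z s ^ M x i = h (z)`, the same for `w`, `u`. Let `B ⊇ T`, and take the `Ev` of `ev_ker` for
`(x, w, f)`, `z j, (z j)⁻¹, u, u⁻¹ ∈ Λ`. Let `g` be homogeneous over `𝔽_p` of degree `m`
(`m < 0`: `g = 0`), `g (ρ z) = 0`. Lift `g` to `g'` homogeneous of degree `m` over `B` (coefficients
in the image of `ℤ`; `ψB` maps integers to integers). `α := g' (z) / z s ^ m` is a polynomial over `B`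
in the `z j / z s`, so `α (1 / u) ^ M = P (x, w)`, `P ∈ B[X][Y]`, and after division by `f` (monic,
coefficients in `B`) we may assume `deg_Y P < deg f`. `ρ α = 0`, so `ρ (P (x, w)) = 0`, so all
coefficients of `P` are in the kernel of `ψB` (`ev_ker`). So `α = ∑ c_i μ_i (x, w) u ^ M`,
`c_i ∈ ker ψB`, `μ_i` monomials. The `x i`, `w`, `u` are `h (z) / z s ^ M` over `B`, so
`μ_i (x, w) u ^ M = h_i (z) / z s ^ M'` with one `M'`, and `X s ^ M' g' - X s ^ m ∑ c_i h_i` is
homogeneous and vanishes at `z`: it lies in `relIdeal B z`. Apply `ψB`. -/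
theorem ev_inj (ht : IsTranscendenceBasis ℂ t) {z : Fin N → L} (hz : ∀ j, z j ≠ 0) (s : Fin N)
    {x : Fin n → L} {w u : L} {f : Polynomial (MvPolynomial (Fin n) ℂ)}
    (hc : Chart (Algebra.adjoin ℂ (Set.range fun j => z j / z s)) x w u f) :
    ∃ T : Finset ℂ, ∀ B : Subring ℂ, (∀ c ∈ T, c ∈ B) → Ev t y fun R => ∀ (hB : B ≤ R.C) (m : ℤ)
      (g : MvPolynomial (Fin N) (ZMod R.p)), Hom (ZMod R.p) N m g →
      (aeval (fun j => R.r (z j)) g : R.F) = 0 →
      ∃ e : ℕ, X s ^ e * g ∈ (relIdeal B z).map (MvPolynomial.map (R.ψB B hB)) := by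
  classical
  obtain ⟨v, hv⟩ : ∃ v : Fin N → L, v = fun j => z j / z s := ⟨_, rfl⟩
  obtain ⟨G, hG⟩ := inj_range x w hc.u_inv
  have hmemA : ∀ a, a ∈ Algebra.adjoin ℂ (Set.range v) ↔
      a ∈ Algebra.adjoin ℂ (insert u (insert w (Set.range x))) := fun a => by
    rw [hv, hc.A_eq]
  have hP : ∀ j, ∃ (e : ℕ) (P : Polynomial (MvPolynomial (Fin n) ℂ)),
      injE x w P = v j * u⁻¹ ^ e := fun j =>
    inj_range_u x w u hc.u_ne hG ((hmemA _).1 (Algebra.subset_adjoin ⟨j, rfl⟩))
  choose e P hP using hP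
  have hpre : ∀ a ∈ Algebra.adjoin ℂ (Set.range v),
      ∃ q : MvPolynomial (Fin N) ℂ, aeval v q = a := by
    intro a ha
    rw [Algebra.adjoin_range_eq_range_aeval] at ha
    exact ha
  have hx : ∀ i, ∃ q : MvPolynomial (Fin N) ℂ, aeval v q = x i := fun i =>
    hpre _ ((hmemA _).2 (Algebra.subset_adjoin (Or.inr (Or.inr ⟨i, rfl⟩))))
  choose qx hqx using hx
  obtain ⟨qw, hqw⟩ := hpre w ((hmemA _).2 (Algebra.subset_adjoin (Or.inr (Or.inl rfl))))
  obtain ⟨qu, hqu⟩ := hpre u ((hmemA _).2 (Algebra.subset_adjoin (Or.inl rfl)))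
  obtain ⟨Tf, hTf⟩ := inj_lift f
  obtain ⟨TG, hTG⟩ := inj_lift G
  choose TP hTP using fun j => inj_lift (P j)
  choose Tx hTx using fun i => inj_lift_mv (qx i)
  obtain ⟨Tw, hTw⟩ := inj_lift_mv qw
  obtain ⟨Tu, hTu⟩ := inj_lift_mv qu
  refine ⟨Tf ∪ (TG ∪ (Finset.univ.biUnion TP ∪ (Finset.univ.biUnion Tx ∪ (Tw ∪ Tu)))),
    fun B hB => ?_⟩
  simp only [Finset.mem_union, Finset.mem_biUnion, Finset.mem_univ, true_and] at hB
  obtain ⟨fB, hfB⟩ := hTf B fun c hc => hB c (Or.inl hc)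
  obtain ⟨GB, hGB⟩ := hTG B fun c hc => hB c (Or.inr (Or.inl hc))
  have hPB' : ∀ j, ∃ PB : Polynomial (MvPolynomial (Fin n) B),
      PB.map (MvPolynomial.map B.subtype) = P j := fun j =>
    hTP j B fun c hc => hB c (Or.inr (Or.inr (Or.inl ⟨j, hc⟩)))
  have hxB' : ∀ i, ∃ q : MvPolynomial (Fin N) B, MvPolynomial.map B.subtype q = qx i := fun i =>
    hTx i B fun c hc => hB c (Or.inr (Or.inr (Or.inr (Or.inl ⟨i, hc⟩))))
  obtain ⟨wB, hwB⟩ := hTw B fun c hc => hB c (Or.inr (Or.inr (Or.inr (Or.inr (Or.inl hc)))))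
  obtain ⟨uB, huB⟩ := hTu B fun c hc => hB c (Or.inr (Or.inr (Or.inr (Or.inr (Or.inr hc)))))
  choose PB hPB using hPB'
  choose xB hxB using hxB'
  have hinj : Function.Injective (MvPolynomial.map B.subtype :
      MvPolynomial (Fin n) B →+* MvPolynomial (Fin n) ℂ) :=
    MvPolynomial.map_injective _ B.subtype_injective
  have hfBm : fB.Monic := Polynomial.monic_of_injective hinj (by rw [hfB]; exact hc.monic)
  have hfB1 : fB ≠ 1 := by
    rintro rfl
    rw [Polynomial.map_one] at hfB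
    exact hc.irr.not_isUnit (hfB ▸ isUnit_one)
  refine ((ev_ker ht hc.tb f hc.monic hc.irr hc.root).and
    ((Ev.all fun j => ev_ne (hz j)).and (ev_mem u⁻¹))).mono fun R hR => ?_
  obtain ⟨⟨hxm, hwm, hker⟩, hzm, hum⟩ := hR
  intro hBC m g hg hg0
  by_cases hg00 : g = 0
  · exact ⟨0, by rw [hg00, mul_zero]; exact Ideal.zero_mem _⟩
  obtain ⟨m', rfl⟩ : ∃ m' : ℕ, m = m' := by
    obtain ⟨d, hd⟩ := MvPolynomial.support_nonempty.2 hg00
    exact ⟨∑ i, d i, by rw [← hg d hd]; push_cast; rfl⟩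
  have hsurj : Function.Surjective (R.ψB B hBC) := by
    intro a
    refine ⟨(a.val : B), ?_⟩
    rw [map_natCast, ZMod.natCast_zmod_val]
  obtain ⟨g', hg'⟩ := MvPolynomial.map_surjective (σ := Fin N) (R.ψB B hBC) hsurj g
  have hvm : ∀ j, v j ∈ R.Λ := fun j => by
    rw [hv]
    beta_reduce
    rw [div_eq_mul_inv]
    exact R.Λ.mul_mem (hzm j).1 (hzm s).2.1
  have hvr : (fun j => R.r (v j)) = fun j => R.r (z j) / R.r (z s) := by
    funext j
    rw [hv]
    beta_reduce
    rw [div_eq_mul_inv, R.r_mul (hzm j).1 (hzm s).2.1, R.r_inv (hz s) (hzm s).1 (hzm s).2.1,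
      div_eq_mul_inv]
  have hr := inj_r_aeval R hBC hvm g'
  have hval : R.r (aeval v (MvPolynomial.map B.subtype g')) = 0 := by
    rw [hr.2, hg', hvr]
    have h1 := injH_aeval (fun j => R.r (z j)) s (hzm s).2.2 (D := m') g (fun d hd => by
      exact_mod_cast (hg d hd).le)
    rw [injH_of_hom s g hg, Nat.sub_self, pow_zero, one_mul, hg0] at h1
    exact (mul_eq_zero.1 h1.symm).resolve_left (pow_ne_zero _ (hzm s).2.2)
  obtain ⟨M, Q, hQ⟩ := inj_num x w u v B (G := GB) (by rw [hGB, hG])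
    (fun j => ⟨e j, PB j, by rw [hPB, hP]⟩) g'
  have hQ' : injE x w ((Q %ₘ fB).map (MvPolynomial.map B.subtype)) =
      injE x w (Q.map (MvPolynomial.map B.subtype)) := by
    conv_rhs => rw [← Polynomial.modByMonic_add_div Q fB]
    rw [Polynomial.map_add, Polynomial.map_mul, map_add, map_mul, hfB, injE_apply x w f, hc.root,
      zero_mul, add_zero]
  have hdeg : ((Q %ₘ fB).map (MvPolynomial.map B.subtype)).natDegree < f.natDegree := by
    rw [Polynomial.natDegree_map_eq_of_injective hinj, ← hfB,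
      Polynomial.natDegree_map_eq_of_injective hinj]
    exact Polynomial.natDegree_modByMonic_lt Q hfBm hfB1
  have hker0 : (Q %ₘ fB).map (MvPolynomial.map (R.ψB B hBC)) = 0 := by
    refine hker B hBC _ ?_ hdeg
    rw [← injE_apply, hQ', hQ, R.r_mul hr.1 (R.Λ.pow_mem hum M), hval, zero_mul]
  obtain ⟨h, hh⟩ : ∃ h, h = injS xB wB (Q %ₘ fB) * uB ^ M := ⟨_, rfl⟩
  have hφh : aeval v (MvPolynomial.map B.subtype h) = aeval v (MvPolynomial.map B.subtype g') := by
    rw [hh, map_mul, map_mul, map_pow, map_pow, huB, hqu,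
      injS_aeval B xB wB (fun i => by rw [hxB, hqx]) (by rw [hwB, hqw]), hQ', hQ, mul_assoc,
      ← mul_pow, inv_mul_cancel₀ hc.u_ne, one_pow, mul_one]
  have hψh : MvPolynomial.map (R.ψB B hBC) h = 0 := by
    rw [hh, map_mul, injS_map, hker0, map_zero, zero_mul]
  obtain ⟨D, hD1, hD2⟩ : ∃ D, m' ≤ D ∧ ∀ d ∈ (g' - h).support, ∑ i, d i ≤ D := by
    refine ⟨max m' ((g' - h).support.sup fun d => ∑ i, d i), le_max_left _ _, fun d hd => ?_⟩
    exact (Finset.le_sup (f := fun d : Fin N →₀ ℕ => ∑ i, d i) hd).trans (le_max_right _ _)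
  refine ⟨D - m', ?_⟩
  have h1 : X s ^ (D - m') * g = MvPolynomial.map (R.ψB B hBC) (injH s D (g' - h)) := by
    rw [injH_map, map_sub, hg', hψh, sub_zero, injH_of_hom s g hg]
  rw [h1]
  refine Ideal.mem_map_of_mem _ (inj_mem_rel (injH_hom s D _ hD2) ?_)
  rw [injH_aeval z s (hz s) _ hD2]
  have h2 : (aeval (fun j => z j / z s) (g' - h) : L) =
      aeval v (MvPolynomial.map B.subtype (g' - h)) := by
    rw [hv, aeval_def, aeval_def, eval₂_map]
    rfl
  rw [h2, map_sub, map_sub, hφh, sub_self, mul_zero]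

end Pool.Agent.Lib.MP_732f67_ag.V
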