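import Pool.Agent.Lib.MP_732f67_ag.V.Main
import Pool.Agent.Lib.MP_732f67_ag.V.Inj
import Pool.Agent.Lib.MP_732f67_ag.KC.DI

/-!
# Project KM, part V: lattices which are free on the charts
-/

set_option autoImplicit false

namespace Pool.Agent.Lib.MP_732f67_ag.V

open MvPolynomial
open Pool.Agent.Lib.MP_0b721b_ag.St (Hom)
open Pool.Agent.Lib.MP_732f67_ag.KC (AJ KVan cd)
open Pool.Agent.KM

/-- the lattices `z (σ a) ^ l ∑ A_J ω a s`, `a ∈ J` -/
def LJ {F : Type*} [Field F] {N : ℕ} {Λ κ T : Type} [Fintype T] (z : Fin N → F) (σ : Λ → Fin N)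
    (ω : Λ → T → κ → F) (l : ℕ) (J : Finset Λ) : AddSubgroup (κ → F) where
  carrier := {v | ∀ a ∈ J, ∃ x : T → F, (∀ s, x s ∈ AJ z σ J) ∧
    v = z (σ a) ^ l • ∑ s, x s • ω a s}
  zero_mem' := fun a _ => ⟨0, fun _ => Subring.zero_mem _, by simp⟩
  add_mem' := by
    intro v w hv hw a ha
    obtain ⟨x, hx, e⟩ := hv a ha
    obtain ⟨y, hy, e'⟩ := hw a ha
    exact ⟨x + y, fun s => Subring.add_mem _ (hx s) (hy s), by
      simp only [Pi.add_apply, add_smul, Finset.sum_add_distrib, smul_add, e, e']⟩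
  neg_mem' := by
    intro v hv a ha
    obtain ⟨x, hx, e⟩ := hv a ha
    exact ⟨-x, fun s => Subring.neg_mem _ (hx s), by
      simp only [Pi.neg_apply, neg_smul, Finset.sum_neg_distrib, smul_neg, e]⟩

variable {L : Type} [Field L] [Algebra ℂ L] {n : ℕ} {t : Fin n → L} {y : L} {N : ℕ} {Λ : Type}
  [LinearOrder Λ] [Fintype Λ]

/-- the geometric data: the charts cover, and every chart is a standard chart -/
structure Geo (n : ℕ) (z : Fin N → L) (σ : Λ → Fin N) : Prop where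
  ne : ∀ j, z j ≠ 0
  cov : ∀ j, ∃ (e : ℕ) (h : Λ → MvPolynomial (Fin N) ℂ), (∀ a, Hom ℂ N e (h a)) ∧
    z j ^ (e + 1) = ∑ a, z (σ a) * aeval z (h a)
  chart : ∀ a, ∃ (x : Fin n → L) (w u : L) (f : Polynomial (MvPolynomial (Fin n) ℂ)),
    Chart (Algebra.adjoin ℂ (Set.range fun j => z j / z (σ a))) x w u f

/-- the relations between the lattices on the charts, over `B`: `d` large, `ω (b, s) = z (σ b) ^ d ω b s`
is over the chart `a` a combination of the `z (σ a) ^ d ω a u`.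

PROOF. `AR_clear` for every coefficient, a common `d` (`Λ`, `T` finite), `AR_one` gives homogeneous
numerators over `ℂ`, common degree `M` for given `a, b, s` (`AR_one_of_le`). -/
theorem exists_trans {z : Fin N → L} {σ : Λ → Fin N} (hg : Geo n z σ) {κ T : Type} [Fintype κ]
    [Fintype T] {ω : Λ → T → κ → L}
    (hω : ∀ a b s, ∃ c : T → L, (∀ u, c u ∈ AR ℂ z σ {a, b}) ∧ ω b s = ∑ u, c u • ω a u) :
    ∃ d : ℕ, ∀ a b s, ∃ (M : ℕ) (C : T → MvPolynomial (Fin N) ℂ), (∀ u, Hom ℂ N M (C u)) ∧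
      z (σ a) ^ M • (z (σ b) ^ d • ω b s) = ∑ u, (aeval z (C u) : L) • (z (σ a) ^ d • ω a u) := by
  choose c hc hcs using hω
  choose k₀ hk₀ using fun (i : Λ × Λ × T × T) => AR_clear hg.ne (hc i.1 i.2.1 i.2.2.1 i.2.2.2)
  obtain ⟨d, hd⟩ := Finite.exists_le k₀
  refine ⟨d, fun a b s => ?_⟩
  have h1 : ∀ u, (z (σ b) / z (σ a)) ^ d * c a b s u ∈ AR ℂ z σ {a} :=
    fun u => hk₀ (a, b, s, u) d (hd (a, b, s, u))
  choose m₀ hm₀ using fun u => AR_one_of_le hg.ne (h1 u)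
  obtain ⟨M, hM⟩ := Finite.exists_le m₀
  choose C hC hCe using fun u => hm₀ u M (hM u)
  refine ⟨M, C, hC, ?_⟩
  have ha : z (σ a) ^ d ≠ 0 := pow_ne_zero _ (hg.ne (σ a))
  rw [hcs a b s, Finset.smul_sum, Finset.smul_sum]
  refine Finset.sum_congr rfl fun u _ => ?_
  rw [← hCe u, smul_smul, smul_smul, smul_smul]
  congr 1
  rw [div_pow]
  field_simp

end Pool.Agent.Lib.MP_732f67_ag.V
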