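import Pool.Agent.Lib.MP_732f67_ag.V.Van
import Pool.Agent.Lib.MP_732f67_ag.KC.Lat

/-!
# Project KM, part V: the rings of the charts in terms of homogeneous polynomials
-/

set_option autoImplicit false

namespace Pool.Agent.Lib.MP_732f67_ag.V

open MvPolynomial
open Pool.Agent.Lib.MP_0b721b_ag.St (Hom)
open Pool.Agent.Lib.MP_732f67_ag.KC (AJ)

variable {F : Type*} [Field F] {N : ℕ} {Λ : Type}

/-- the algebra over `R` of the intersection of the charts in `J` -/
def AR (R : Type*) [CommRing R] [Algebra R F] (z : Fin N → F) (σ : Λ → Fin N) (J : Finset Λ) :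
    Subalgebra R F := Algebra.adjoin R {a | ∃ j, ∃ l ∈ J, a = z j / z (σ l)}

variable {R : Type*} [CommRing R] [Algebra R F] {z : Fin N → F} {σ : Λ → Fin N}

theorem AR_mono {J J' : Finset Λ} (h : J ⊆ J') : AR R z σ J ≤ AR R z σ J' := by
  refine Algebra.adjoin_mono ?_
  rintro a ⟨j, l, hl, rfl⟩
  exact ⟨j, l, h hl, rfl⟩

theorem AR_empty_le {J : Finset Λ} {x : F} (hx : x ∈ AR R z σ (∅ : Finset Λ)) : x ∈ AR R z σ J :=
  AR_mono (Finset.empty_subset J) hx

theorem AR_gen {J : Finset Λ} {a : Λ} (ha : a ∈ J) (j : Fin N) :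
    z j / z (σ a) ∈ AR R z σ J := Algebra.subset_adjoin ⟨j, a, ha, rfl⟩

theorem AR_ratio {J : Finset Λ} {a : Λ} (ha : a ∈ J) {q : ℕ} {f : MvPolynomial (Fin N) R}
    (hf : Hom R N q f) : aeval z f / z (σ a) ^ q ∈ AR R z σ J := by
  rw [aeval_def, eval₂_eq', Finset.sum_div]
  refine Subalgebra.sum_mem _ fun d hd => ?_
  have hq : ∑ i, d i = q := by
    have := hf d hd
    exact_mod_cast this
  have e1 : algebraMap R F (coeff d f) * ∏ i, z i ^ d i =
      algebraMap R F (coeff d f) * ∏ i, z i ^ d i := rfl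
  have e2 : algebraMap R F (coeff d f) * (∏ i, z i ^ d i) / z (σ a) ^ q =
      algebraMap R F (coeff d f) * ∏ i, (z i / z (σ a)) ^ d i := by
    rw [← hq, ← Finset.prod_pow_eq_pow_sum, mul_div_assoc, ← Finset.prod_div_distrib]
    simp only [div_pow]
  rw [e2]
  refine Subalgebra.mul_mem _ (Subalgebra.algebraMap_mem _ _) ?_
  exact Subalgebra.prod_mem _ fun i _ => Subalgebra.pow_mem _ (AR_gen ha i) _

theorem hom_X_aux (i : Fin N) : Hom R N 1 (X i : MvPolynomial (Fin N) R) :=
  Pool.Agent.Lib.MP_0b721b_ag.St.hom_iff.2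
    (Pool.Agent.Lib.MP_0b721b_ag.polyGr_X (fun _ : Fin N => (1 : ℤ)) i)

theorem hom_prod_X_aux (J : Finset Λ) (σ : Λ → Fin N) :
    Hom R N J.card (∏ a ∈ J, X (σ a) : MvPolynomial (Fin N) R) := by
  classical
  induction J using Finset.induction_on with
  | empty =>
    rw [Finset.prod_empty, Finset.card_empty]
    exact hom_one
  | insert a s ha ih =>
    rw [Finset.prod_insert ha, Finset.card_insert_of_notMem ha]
    have := hom_mul (hom_X_aux (R := R) (σ a)) ih
    push_cast
    rwa [add_comm] at this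

theorem hom_cast_aux {m n : ℤ} {f : MvPolynomial (Fin N) R} (hf : Hom R N m f) (h : m = n) :
    Hom R N n f := h ▸ hf

theorem hom_add_aux {n : ℤ} {f g : MvPolynomial (Fin N) R} (hf : Hom R N n f)
    (hg : Hom R N n g) : Hom R N n (f + g) := by
  classical
  intro d hd
  rcases Finset.mem_union.1 (support_add hd) with h | h
  · exact hf d h
  · exact hg d h

theorem hom_C_aux (r : R) : Hom R N 0 (C r : MvPolynomial (Fin N) R) := by
  classical
  intro d hd
  rw [mem_support_iff, coeff_C] at hd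
  split_ifs at hd with h
  · rw [← h]
    simp
  · exact absurd rfl hd

/-- the elements of the ring of the intersection of the charts in `J` are the `f (z) / g ^ m`, `f`
homogeneous of degree `m |J|`, `g` the product of the `z (σ a)`, `a ∈ J`.

PROOF. (→) `Algebra.adjoin_induction`: `z j / z (σ l) = z j (∏_(a ≠ l) z (σ a)) / g`; for a sum bring
the two fractions to the exponent `m + m'`; constants: `m = 0`, `f = C c`. (←) `f` is the sum of its
monomials (`MvPolynomial.support_sum_monomial_coeff`), the sum of the exponents of each is `m |J|`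
(definition of `Hom`), and a product of `m |J|` of the `z j` divided by `g ^ m` is a product of
`m |J|` elements `z j / z (σ a)` (induction on `m |J|`, or: for a monomial of degree `q` and a list
of `q` charts in `J` the quotient is in the ring). -/
theorem AR_iff (hz : ∀ j, z j ≠ 0) {J : Finset Λ} (hJ : J.Nonempty) {x : F} :
    x ∈ AR R z σ J ↔ ∃ (m : ℕ) (f : MvPolynomial (Fin N) R), Hom R N (m * J.card) f ∧
      (∏ a ∈ J, z (σ a)) ^ m * x = aeval z f := by
  classical
  have hg0 : (∏ a ∈ J, z (σ a)) ≠ 0 := Finset.prod_ne_zero_iff.2 fun a _ => hz _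
  have hG : aeval z (∏ a ∈ J, X (σ a) : MvPolynomial (Fin N) R) = ∏ a ∈ J, z (σ a) := by
    rw [map_prod]
    exact Finset.prod_congr rfl fun a _ => aeval_X _ _
  constructor
  · intro hx
    unfold AR at hx
    induction hx using Algebra.adjoin_induction with
    | mem x hx =>
      obtain ⟨j, l, hl, rfl⟩ := hx
      refine ⟨1, X j * ∏ a ∈ J.erase l, X (σ a), ?_, ?_⟩
      · refine hom_cast_aux (hom_mul (hom_X_aux j) (hom_prod_X_aux (J.erase l) σ)) ?_
        rw [Finset.card_erase_of_mem hl]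
        have := Finset.card_pos.2 hJ
        push_cast [Nat.cast_sub this]
        ring
      · rw [map_mul, aeval_X, map_prod, pow_one, ← Finset.mul_prod_erase J (fun a => z (σ a)) hl]
        have e1 : ∏ a ∈ J.erase l, aeval z (X (σ a) : MvPolynomial (Fin N) R) =
            ∏ a ∈ J.erase l, z (σ a) := Finset.prod_congr rfl fun a _ => aeval_X _ _
        rw [e1]
        have := hz (σ l)
        field_simp
    | algebraMap r =>
      refine ⟨0, C r, ?_, ?_⟩
      · exact hom_cast_aux (hom_C_aux r) (by simp)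
      · rw [pow_zero, one_mul, aeval_C]
    | add x y _ _ hx hy =>
      obtain ⟨m, f, hf, he⟩ := hx
      obtain ⟨m', f', hf', he'⟩ := hy
      refine ⟨m + m', (∏ a ∈ J, X (σ a)) ^ m' * f + (∏ a ∈ J, X (σ a)) ^ m * f', ?_, ?_⟩
      · refine hom_add_aux ?_ ?_
        · refine hom_cast_aux (hom_mul (hom_pow (hom_prod_X_aux J σ) m') hf) ?_
          push_cast
          ring
        · refine hom_cast_aux (hom_mul (hom_pow (hom_prod_X_aux J σ) m) hf') ?_
          push_cast
          ring
      · rw [map_add, map_mul, map_mul, map_pow, map_pow, hG, ← he, ← he']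
        ring
    | mul x y _ _ hx hy =>
      obtain ⟨m, f, hf, he⟩ := hx
      obtain ⟨m', f', hf', he'⟩ := hy
      refine ⟨m + m', f * f', ?_, ?_⟩
      · refine hom_cast_aux (hom_mul hf hf') ?_
        push_cast
        ring
      · rw [map_mul, ← he, ← he']
        ring
  · rintro ⟨m, f, hf, he⟩
    obtain ⟨a0, ha0⟩ := hJ
    have hf' : Hom R N ((m * J.card : ℕ) : ℤ) f := hom_cast_aux hf (by push_cast; rfl)
    have h1 := AR_ratio (z := z) (σ := σ) ha0 hf'
    have h2 : (∏ a ∈ J, z (σ a0) / z (σ a)) ^ m ∈ AR R z σ J :=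
      Subalgebra.pow_mem _ (Subalgebra.prod_mem _ fun a ha => AR_gen ha (σ a0)) m
    have e1 : x = (aeval z f / z (σ a0) ^ (m * J.card)) * (∏ a ∈ J, z (σ a0) / z (σ a)) ^ m := by
      rw [← he, Finset.prod_div_distrib, Finset.prod_const, div_pow, ← pow_mul, mul_comm J.card m]
      have h3 : z (σ a0) ^ (m * J.card) ≠ 0 := pow_ne_zero _ (hz _)
      have h4 : (∏ a ∈ J, z (σ a)) ^ m ≠ 0 := pow_ne_zero _ hg0
      field_simp
    rw [e1]
    exact Subalgebra.mul_mem _ h1 h2

/-- over the prime field the algebra is the subring -/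
theorem AR_prime (p : ℕ) [Fact p.Prime] [Algebra (ZMod p) F] {J : Finset Λ} {x : F} :
    x ∈ AR (ZMod p) z σ J ↔ x ∈ AJ z σ J := by
  constructor
  · intro hx
    unfold AR at hx
    induction hx using Algebra.adjoin_induction with
    | mem x hx => exact Subring.subset_closure hx
    | algebraMap r =>
      rw [← ZMod.natCast_zmod_val r, map_natCast]
      exact natCast_mem _ _
    | add x y _ _ hx hy => exact Subring.add_mem _ hx hy
    | mul x y _ _ hx hy => exact Subring.mul_mem _ hx hy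
  · intro hx
    unfold AJ at hx
    induction hx using Subring.closure_induction with
    | mem x hx => exact Algebra.subset_adjoin hx
    | zero => exact Subalgebra.zero_mem _
    | one => exact Subalgebra.one_mem _
    | add x y _ _ hx hy => exact Subalgebra.add_mem _ hx hy
    | neg x _ hx =>
      rw [← neg_one_mul]
      refine Subalgebra.mul_mem _ ?_ hx
      have := Subalgebra.algebraMap_mem (AR (ZMod p) z σ J) (-1)
      rwa [map_neg, map_one] at this
    | mul x y _ _ hx hy => exact Subalgebra.mul_mem _ hx hy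

/-- a power of `z (σ b) / z (σ a)` clears the denominators `z (σ b)`.

PROOF. `Algebra.adjoin_induction`; `z j / z (σ b) * (z (σ b) / z (σ a)) = z j / z (σ a)`. -/
theorem AR_clear [DecidableEq Λ] (hz : ∀ j, z j ≠ 0) {a b : Λ} {x : F}
    (hx : x ∈ AR R z σ {a, b}) :
    ∃ k₀ : ℕ, ∀ k, k₀ ≤ k → (z (σ b) / z (σ a)) ^ k * x ∈ AR R z σ {a} := by
  have ha : a ∈ ({a} : Finset Λ) := Finset.mem_singleton_self a
  have hw : ∀ k : ℕ, (z (σ b) / z (σ a)) ^ k ∈ AR R z σ {a} := fun k =>
    Subalgebra.pow_mem _ (AR_gen ha (σ b)) k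
  unfold AR at hx
  induction hx using Algebra.adjoin_induction with
  | mem x hx =>
    obtain ⟨j, l, hl, rfl⟩ := hx
    rw [Finset.mem_insert, Finset.mem_singleton] at hl
    rcases hl with rfl | rfl
    · exact ⟨0, fun k _ => Subalgebra.mul_mem _ (hw k) (AR_gen ha j)⟩
    · refine ⟨1, fun k hk => ?_⟩
      obtain ⟨c, rfl⟩ := Nat.exists_eq_add_of_le hk
      have e1 : (z (σ l) / z (σ a)) ^ (1 + c) * (z j / z (σ l)) =
          (z (σ l) / z (σ a)) ^ c * (z j / z (σ a)) := by
        have h1 := hz (σ l)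
        have h2 := hz (σ a)
        rw [pow_add, pow_one]
        field_simp
      rw [e1]
      exact Subalgebra.mul_mem _ (hw c) (AR_gen ha j)
  | algebraMap r =>
    exact ⟨0, fun k _ => Subalgebra.mul_mem _ (hw k) (Subalgebra.algebraMap_mem _ r)⟩
  | add x y _ _ hx hy =>
    obtain ⟨k1, h1⟩ := hx
    obtain ⟨k2, h2⟩ := hy
    refine ⟨max k1 k2, fun k hk => ?_⟩
    rw [mul_add]
    exact Subalgebra.add_mem _ (h1 k (le_trans (le_max_left _ _) hk))
      (h2 k (le_trans (le_max_right _ _) hk))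
  | mul x y _ _ hx hy =>
    obtain ⟨k1, h1⟩ := hx
    obtain ⟨k2, h2⟩ := hy
    refine ⟨k1 + k2, fun k hk => ?_⟩
    obtain ⟨c, rfl⟩ := Nat.exists_eq_add_of_le hk
    have e1 : (z (σ b) / z (σ a)) ^ (k1 + k2 + c) * (x * y) =
        ((z (σ b) / z (σ a)) ^ k1 * x) * ((z (σ b) / z (σ a)) ^ (k2 + c) * y) := by
      rw [add_assoc, pow_add]
      ring
    rw [e1]
    exact Subalgebra.mul_mem _ (h1 k1 le_rfl) (h2 (k2 + c) (Nat.le_add_right _ _))

/-- the elements of the ring of one chart -/
theorem AR_one (hz : ∀ j, z j ≠ 0) {a : Λ} {x : F} :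
    x ∈ AR R z σ {a} ↔ ∃ (m : ℕ) (f : MvPolynomial (Fin N) R), Hom R N m f ∧
      z (σ a) ^ m * x = aeval z f := by
  rw [AR_iff hz (Finset.singleton_nonempty a)]
  simp only [Finset.card_singleton, Nat.cast_one, mul_one, Finset.prod_singleton]

/-- the exponent can be increased -/
theorem AR_one_of_le (hz : ∀ j, z j ≠ 0) {a : Λ} {x : F} (hx : x ∈ AR R z σ {a}) :
    ∃ m₀ : ℕ, ∀ m, m₀ ≤ m → ∃ f : MvPolynomial (Fin N) R, Hom R N m f ∧
      z (σ a) ^ m * x = aeval z f := by
  obtain ⟨m, f, hf, he⟩ := (AR_one hz).1 hx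
  refine ⟨m, fun m' hm' => ?_⟩
  obtain ⟨c, rfl⟩ := Nat.exists_eq_add_of_le hm'
  have hX : Hom R N 1 (X (σ a) : MvPolynomial (Fin N) R) :=
    Pool.Agent.Lib.MP_0b721b_ag.St.hom_iff.2
      (Pool.Agent.Lib.MP_0b721b_ag.polyGr_X (fun _ : Fin N => (1 : ℤ)) (σ a))
  refine ⟨X (σ a) ^ c * f, ?_, ?_⟩
  · have := hom_mul (hom_pow hX c) hf
    push_cast
    rw [mul_one, add_comm] at this
    exact this
  · rw [map_mul, map_pow, aeval_X, ← he, pow_add]
    ring

end Pool.Agent.Lib.MP_732f67_ag.V
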