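import Pool.Agent.Lib.MP_732f67_ag.KC.ExtTop

/-!
# Project KM, part V: the ring of forms in coordinates
-/

set_option autoImplicit false

open TensorProduct

namespace Pool.Agent.Lib.MP_732f67_ag.V

open Pool.Agent.Lib.MP_732f67_ag.KC (EZ Fm om fn Log)

variable {n : ℕ} {L : Type*} [Field L]

/-- the product of the one forms `β i`, `i ∈ T` -/
noncomputable def bT (β : Fin n → Fin n → L) (T : Finset (Fin n)) : Fm n L :=
  ((T.sort (· ≤ ·)).map fun i => om (β i)).prod

/-- a product of one forms changes by a sign under a permutation -/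
theorem prod_perm (β : Fin n → Fin n → L) {l l' : List (Fin n)} (h : l.Perm l') :
    ∃ ε : ℤ, (ε = 1 ∨ ε = -1) ∧
      ((l.map fun i => om (β i)).prod : Fm n L) = ε • (l'.map fun i => om (β i)).prod := by
  induction h with
  | nil => exact ⟨1, Or.inl rfl, by rw [one_smul]⟩
  | cons x _ ih =>
    obtain ⟨ε, hε, h⟩ := ih
    refine ⟨ε, hε, ?_⟩
    rw [List.map_cons, List.prod_cons, List.map_cons, List.prod_cons, h, mul_smul_comm]
  | swap x y l =>
    refine ⟨-1, Or.inr rfl, ?_⟩
    rw [List.map_cons, List.prod_cons, List.map_cons, List.prod_cons, List.map_cons,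
      List.prod_cons, List.map_cons, List.prod_cons, ← mul_assoc, ← mul_assoc, neg_smul, one_smul,
      KC.om_mul_om (β y) (β x)]
    exact neg_mul (om (β x) * om (β y)) _
  | trans _ _ ih ih' =>
    obtain ⟨ε, hε, h⟩ := ih
    obtain ⟨ε', hε', h'⟩ := ih'
    refine ⟨ε * ε', ?_, ?_⟩
    · rcases hε with rfl | rfl <;> rcases hε' with rfl | rfl <;> simp
    · rw [h, h', mul_smul]

theorem om_mul_prod (β : Fin n → Fin n → L) {i : Fin n} {l : List (Fin n)} (hi : i ∈ l) :
    om (β i) * ((l.map fun i => om (β i)).prod : Fm n L) = 0 := by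
  induction l with
  | nil => exact absurd hi List.not_mem_nil
  | cons j l ih =>
    rw [List.map_cons, List.prod_cons, ← mul_assoc]
    rcases List.mem_cons.1 hi with rfl | hi
    · rw [KC.om_mul_self, zero_mul]
    · rw [KC.om_mul_om]
      have e : -(om (β j) * om (β i)) * ((l.map fun i => om (β i)).prod : Fm n L) =
          -(om (β j) * (om (β i) * (l.map fun i => om (β i)).prod)) := by
        rw [← mul_assoc]
        exact neg_mul (om (β j) * om (β i)) _
      rw [e, ih hi, mul_zero, neg_zero]

theorem prod_dup (β : Fin n → Fin n → L) {l : List (Fin n)} (hl : ¬ l.Nodup) :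
    ((l.map fun i => om (β i)).prod : Fm n L) = 0 := by
  induction l with
  | nil => exact absurd List.nodup_nil hl
  | cons j l ih =>
    rw [List.map_cons, List.prod_cons]
    by_cases hj : j ∈ l
    · exact om_mul_prod β hj
    · rw [ih fun h => hl (List.nodup_cons.2 ⟨hj, h⟩), mul_zero]

/-- a product of the one forms `β i` over a list is zero or plus or minus a `bT β T`.

PROOF. `i ∈ l → om (β i) * prod l = 0` (induction, `om_mul_self`, `om_mul_om`); if `l` has no
duplicates it is a permutation of `T.sort`, `T = l.toFinset`, and a permutation changes the product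
by a sign (`List.Perm` induction). -/
theorem prod_list (β : Fin n → Fin n → L) (l : List (Fin n)) :
    ∃ (T : Finset (Fin n)) (ε : ℤ), (l.map fun i => om (β i)).prod = ε • bT β T := by
  by_cases hl : l.Nodup
  · have hp : l.Perm (l.toFinset.sort (· ≤ ·)) := by
      rw [List.perm_ext_iff_of_nodup hl (Finset.sort_nodup _ _)]
      intro a
      rw [Finset.mem_sort, List.mem_toFinset]
    obtain ⟨ε, _, h⟩ := prod_perm β hp
    exact ⟨l.toFinset, ε, h⟩
  · exact ⟨∅, 0, by rw [prod_dup β hl, zero_smul]⟩

theorem bT_mem (A : Subring L) (β : Fin n → Fin n → L) (T : Finset (Fin n)) :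
    bT β T ∈ Log A β := by
  refine Subring.list_prod_mem _ fun x hx => ?_
  obtain ⟨i, _, rfl⟩ := List.mem_map.1 hx
  exact KC.om_mem_Log A β i

/-- the elements of the ring of forms.

PROOF. (→) `KC.Log_span` and `prod_list`. (←) `fn_mem_Log`, `om_mem_Log`, `fn_smul`. -/
theorem mem_Log_iff {A : Subring L} {β : Fin n → Fin n → L} {x : Fm n L} :
    x ∈ Log A β ↔ ∃ c : Finset (Fin n) → L, (∀ T, c T ∈ A) ∧ x = ∑ T, c T • bT β T := by
  classical
  constructor
  · intro hx
    have h := KC.Log_span hx
    clear hx
    induction h using AddSubgroup.closure_induction with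
    | mem x hx =>
      obtain ⟨a, ha, l, rfl⟩ := hx
      obtain ⟨T, ε, h⟩ := prod_list β l
      refine ⟨Pi.single T (a * ε), ?_, ?_⟩
      · intro S
        by_cases hS : S = T
        · subst hS
          rw [Pi.single_eq_same]
          exact A.mul_mem ha (intCast_mem A ε)
        · rw [Pi.single_eq_of_ne hS]
          exact A.zero_mem
      · rw [Finset.sum_eq_single T, Pi.single_eq_same, h, mul_smul, Int.cast_smul_eq_zsmul]
        · intro S _ hS
          rw [Pi.single_eq_of_ne hS, zero_smul]
        · intro hT
          exact absurd (Finset.mem_univ T) hT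
    | zero =>
      exact ⟨0, fun T => A.zero_mem, (Finset.sum_eq_zero fun T _ => zero_smul _ _).symm⟩
    | add x y _ _ hx hy =>
      obtain ⟨c, hc, rfl⟩ := hx
      obtain ⟨c', hc', rfl⟩ := hy
      refine ⟨c + c', fun T => A.add_mem (hc T) (hc' T), ?_⟩
      rw [← Finset.sum_add_distrib]
      exact Finset.sum_congr rfl fun T _ => (add_smul _ _ _).symm
    | neg x _ hx =>
      obtain ⟨c, hc, rfl⟩ := hx
      refine ⟨-c, fun T => A.neg_mem (hc T), ?_⟩
      rw [← Finset.sum_neg_distrib]
      exact Finset.sum_congr rfl fun T _ => (neg_smul _ _).symm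
  · rintro ⟨c, hc, rfl⟩
    refine sum_mem fun T _ => ?_
    rw [← KC.fn_smul]
    exact mul_mem (KC.fn_mem_Log (hc T)) (bT_mem A β T)

theorem top_prod_len (β : Fin n → Fin n → L) {l : List (Fin n)} (hl : l.length ≠ n) :
    KC.top ((l.map fun i => om (β i)).prod : Fm n L) = 0 := by
  have h := KC.top_prod_ne (L := L) hl (fun i => β (l.get i))
  rw [← h]
  congr 2
  conv_lhs => rw [← List.ofFn_get l, List.map_ofFn]
  rfl

theorem bT_mul (β : Fin n → Fin n → L) (S T : Finset (Fin n)) :
    bT β S * bT β T =
      (((S.sort (· ≤ ·)) ++ (T.sort (· ≤ ·))).map fun i => om (β i)).prod := by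
  rw [List.map_append, List.prod_append]
  rfl

/-- the products of the one forms of a basis are linearly independent.

PROOF. From `∑ c T • bT β T = 0` multiply by `bT β (Sᶜ)` on the right and take `top`:
`top (bT β T * bT β (Sᶜ))` is zero for `|T| ≠ |S|` (`top_prod_ne`), zero for `|T| = |S|`, `T ≠ S` (a
common factor), and plus or minus `det β` for `T = S` (`top_prod_list` with an integer which is `±1`:
the list is a permutation of `List.finRange n`, so by the sign rule it is `± top_prod`). -/
theorem bT_indep {β : Fin n → Fin n → L} (hβ : (Matrix.of β).det ≠ 0) :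
    LinearIndependent L (bT β) := by
  classical
  rw [Fintype.linearIndependent_iff]
  intro g hg S
  have h1 : KC.top ((∑ T, g T • bT β T) * bT β Sᶜ) = 0 := by
    rw [hg, zero_mul, map_zero]
  rw [Finset.sum_mul, map_sum, Finset.sum_eq_single S] at h1
  · rw [smul_mul_assoc, map_smul, smul_eq_mul, bT_mul] at h1
    rcases mul_eq_zero.1 h1 with h2 | h2
    · exact h2
    · exfalso
      have hp : ((S.sort (· ≤ ·)) ++ (Sᶜ.sort (· ≤ ·))).Perm (List.finRange n) := by
        rw [List.perm_ext_iff_of_nodup _ (List.nodup_finRange n)]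
        · intro a
          rw [List.mem_append, Finset.mem_sort, Finset.mem_sort, Finset.mem_compl]
          exact ⟨fun _ => List.mem_finRange a, fun _ => em _⟩
        · rw [List.nodup_append']
          refine ⟨Finset.sort_nodup _ _, Finset.sort_nodup _ _, ?_⟩
          intro a ha hb
          rw [Finset.mem_sort] at ha
          rw [Finset.mem_sort, Finset.mem_compl] at hb
          exact hb ha
      obtain ⟨ε, hε, h3⟩ := prod_perm β hp
      rw [h3, map_zsmul, ← List.ofFn_eq_map] at h2
      · have h4 := KC.top_prod β
        rw [h4] at h2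
        rcases hε with rfl | rfl
        · rw [one_smul] at h2
          exact hβ h2
        · rw [neg_smul, one_smul, neg_eq_zero] at h2
          exact hβ h2
  · intro T _ hT
    rw [smul_mul_assoc, map_smul, bT_mul]
    have h5 : KC.top ((((T.sort (· ≤ ·)) ++ (Sᶜ.sort (· ≤ ·))).map fun i => om (β i)).prod :
        Fm n L) = 0 := by
      by_cases hlen : ((T.sort (· ≤ ·)) ++ (Sᶜ.sort (· ≤ ·))).length = n
      · rw [prod_dup, map_zero]
        intro hnd
        rw [List.nodup_append'] at hnd
        have hsub : T ⊆ S := by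
          intro a ha
          by_contra hS
          exact hnd.2.2 ((Finset.mem_sort _).2 ha) ((Finset.mem_sort _).2 (Finset.mem_compl.2 hS))
        refine hT (Finset.eq_of_subset_of_card_le hsub ?_)
        rw [List.length_append, Finset.length_sort, Finset.length_sort, Finset.card_compl,
          Fintype.card_fin] at hlen
        have := Finset.card_le_univ S
        rw [Fintype.card_fin] at this
        omega
      · exact top_prod_len β hlen
    rw [h5, smul_zero]
  · intro hS
    exact absurd (Finset.mem_univ S) hS

end Pool.Agent.Lib.MP_732f67_ag.V
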