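import Pool.Agent.Lib.MP_732f67_ag.V.ConeA

/-!
# Project KM, part V: the sections of `O(l)` are the polynomials of degree `l`, for `l` large
-/

set_option autoImplicit false

namespace Pool.Agent.Lib.MP_732f67_ag.V

open MvPolynomial
open Pool.Agent.Lib.MP_0b721b_ag
open Pool.Agent.Lib.MP_0b721b_ag.St (Hom hom_iff)
open Pool.Agent.Lib.MP_732f67_ag.KC (cd cd_cd)

universe u v

section prep

variable {R : Type*} [CommRing R] {N : ℕ}

theorem hom_X' (j : Fin N) : Hom R N 1 (X j) := hom_iff.2 (polyGr_X (fun _ : Fin N => (1 : ℤ)) j)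

/-- the linear forms of the charts of the cone -/
noncomputable def coneG {Λ : Type} (R : Type*) [CommRing R] (σ : Λ → Fin N) :
    WithTop Λ → MvPolynomial (Fin (N + 1)) R :=
  fun a => WithTop.recTopCoe (C := fun _ => MvPolynomial (Fin (N + 1)) R) (X 0)
    (fun a => X (σ a).succ) a

theorem coneG_top {Λ : Type} (σ : Λ → Fin N) : coneG R σ ⊤ = X 0 := rfl

theorem coneG_coe {Λ : Type} (σ : Λ → Fin N) (a : Λ) : coneG R σ (a : WithTop Λ) = X (σ a).succ :=
  rfl

theorem hom_coneG {Λ : Type} (σ : Λ → Fin N) (a : WithTop Λ) : Hom R (N + 1) 1 (coneG R σ a) := by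
  induction a using WithTop.recTopCoe with
  | top => exact hom_X' _
  | coe a => exact hom_X' _

theorem map_coneG {S : Type*} [CommRing S] (ψ : R →+* S) {Λ : Type} (σ : Λ → Fin N)
    (a : WithTop Λ) : map ψ (coneG R σ a) = coneG S σ a := by
  induction a using WithTop.recTopCoe with
  | top => rw [coneG_top, coneG_top, map_X]
  | coe a => rw [coneG_coe, coneG_coe, map_X]

theorem hom_prod_one {Λ : Type*} {G : Λ → MvPolynomial (Fin N) R} (hG : ∀ a, Hom R N 1 (G a))
    (J : Finset Λ) : Hom R N J.card (∏ a ∈ J, G a) := by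
  classical
  induction J using Finset.induction_on with
  | empty =>
    rw [Finset.prod_empty, Finset.card_empty]
    exact hom_one
  | insert a s ha ih =>
    rw [Finset.prod_insert ha, Finset.card_insert_of_notMem ha]
    have := hom_mul (hG a) ih
    push_cast
    rw [add_comm]
    exact this

/-- the homogeneous fractions of degree `n` over the charts in `J` -/
def fracK {k : Type*} [CommRing k] {L : Type*} [Field L] [Algebra k L] (z : Fin N → L)
    {r : ℕ} {E : Type*} [AddCommGroup E] [Module L E] (ω : Fin r → E)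
    {Λ : Type*} (G : Λ → MvPolynomial (Fin N) k) (hG : ∀ a, Hom k N 1 (G a)) (n : ℤ)
    (J : Finset Λ) : AddSubgroup E where
  carrier := {x | ∃ (m : ℕ) (v : Fin r → MvPolynomial (Fin N) k),
    (∀ j, Hom k N (n + m * J.card) (v j)) ∧
      (∏ a ∈ J, (aeval z (G a) : L)) ^ m • x = ev z ω v}
  zero_mem' := ⟨0, 0, fun _ => hom_zero _, by rw [smul_zero, map_zero]⟩
  add_mem' := by
    rintro x y ⟨m, v, hv, he⟩ ⟨m', v', hv', he'⟩
    refine ⟨m + m', (∏ a ∈ J, G a) ^ m' • v + (∏ a ∈ J, G a) ^ m • v', fun j => ?_, ?_⟩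
    · have h1 := hom_mul (hom_pow (hom_prod_one hG J) m') (hv j)
      have h2 := hom_mul (hom_pow (hom_prod_one hG J) m) (hv' j)
      have e1 : (m' : ℤ) * J.card + (n + m * J.card) = n + ((m + m' : ℕ) : ℤ) * J.card := by
        push_cast
        ring
      have e2 : (m : ℤ) * J.card + (n + m' * J.card) = n + ((m + m' : ℕ) : ℤ) * J.card := by
        push_cast
        ring
      rw [e1] at h1
      rw [e2] at h2
      have h3 := hom_sub h1 (hom_sub (hom_zero _) h2)
      rw [zero_sub, sub_neg_eq_add] at h3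
      exact h3
    · rw [map_add, ev_smul, ev_smul, ← he, ← he', map_pow, map_pow, map_prod, smul_smul, smul_smul,
        ← pow_add, ← pow_add, smul_add, add_comm m' m]
  neg_mem' := by
    rintro x ⟨m, v, hv, he⟩
    refine ⟨m, -v, fun j => ?_, by rw [smul_neg, he, map_neg]⟩
    have := hom_sub (hom_zero (N := N) (R := k) (n + m * J.card)) (hv j)
    rwa [zero_sub] at this

end prep

/-- the data on the cone -/
theorem cone_dat0 {Λ : Type} [Fintype Λ] {B : Type u} [CommRing B] {N : ℕ} {L : Type*} [Field L]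
    [Algebra B L] {z : Fin N → L} {σ : Λ → Fin N}
    (hcov : ∀ j, ∃ (m : ℕ) (h : Λ → MvPolynomial (Fin N) B), (∀ a, Hom B N m (h a)) ∧
      z j ^ (m + 1) = ∑ a, z (σ a) * aeval z (h a)) :
    Dat0 (coneZ z) (fun _ : Fin 1 => (1 : FractionRing (Polynomial L))) (coneG B σ)
      (fun _ => Finset.univ) where
  hG := hom_coneG σ
  cov j := by
    refine Fin.cases ?_ (fun j => ?_) j
    · exact ⟨1, by
        rw [pow_one]
        exact Ideal.mem_sup_right (Ideal.subset_span ⟨⊤, rfl⟩)⟩
    · obtain ⟨m, h, hh, he⟩ := hcov j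
      refine ⟨m + 1, ?_⟩
      have h1 : (X j.succ : MvPolynomial (Fin (N + 1)) B) ^ (m + 1) =
          rename Fin.succ (X j ^ (m + 1) - ∑ a, X (σ a) * h a) +
            ∑ a, X (σ a).succ * rename Fin.succ (h a) := by
        simp only [_root_.map_sub, map_pow, map_sum, map_mul, rename_X]
        ring
      rw [h1]
      refine Ideal.add_mem _ (Ideal.mem_sup_left (rename_mem ?_)) (Ideal.mem_sup_right ?_)
      · have h2 : Hom B N ((m + 1 : ℕ) : ℤ)
            ((X j : MvPolynomial (Fin N) B) ^ (m + 1) - ∑ a, X (σ a) * h a) := by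
          refine hom_sub ?_ (hom_sum _ _ fun a _ => ?_)
          · have := hom_pow (hom_X' (R := B) j) (m + 1)
            rw [mul_one] at this
            exact this
          · have := hom_mul (hom_X' (R := B) (σ a)) (hh a)
            push_cast
            rw [add_comm] at this
            exact this
        refine mem_relIdeal_of_hom h2 ?_
        rw [_root_.map_sub, map_pow, map_sum]
        simp only [map_mul, aeval_X]
        rw [he, sub_self]
      · exact Ideal.sum_mem _ fun a _ => Ideal.mul_mem_right _ _ (Ideal.subset_span ⟨a, rfl⟩)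
  gen a i := ⟨0, fun _ => 1, fun _ => by
      rw [Nat.cast_zero]
      exact hom_one, fun s hs => absurd (Finset.mem_univ s) hs, by
    rw [pow_zero, one_smul, Fin.sum_univ_one, map_one, one_smul]⟩

/-- the data on the cone over a field -/
theorem cone_red {Λ : Type} [Fintype Λ] {B : Type u} [CommRing B] {N : ℕ} {L : Type*} [Field L]
    [Algebra B L] {z : Fin N → L} {σ : Λ → Fin N} {k : Type u} [Field k] (ψ : B →+* k)
    {L' : Type*} [Field L'] [Algebra k L'] {z' : Fin N → L'} (hz' : ∀ j, z' j ≠ 0)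
    (hrel : ∀ (n : ℤ) (f : MvPolynomial (Fin N) B), Hom B N n f → (aeval z f : L) = 0 →
        (aeval z' (map ψ f) : L') = 0)
    (hinj : ∀ (n : ℤ) (f : MvPolynomial (Fin N) k), Hom k N n f → (aeval z' f : L') = 0 →
        f ∈ (relIdeal B z).map (map ψ)) :
    Red (coneZ z) (fun _ : Fin 1 => (1 : FractionRing (Polynomial L))) (coneG B σ)
      (fun _ => Finset.univ) ψ (coneZ z') (fun _ : Fin 1 => (1 : FractionRing (Polynomial L'))) where
  rel n v hv h := by
    rw [ev_apply, Fin.sum_univ_one, smul_eq_mul, mul_one] at h ⊢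
    rw [cone_zero] at h ⊢
    intro i
    rw [finSucc_map]
    exact hrel _ _ (hom_cone (hv 0) i) (h i)
  ind a c _ h := by
    rw [Fin.sum_univ_one, smul_eq_mul, mul_one] at h
    funext i
    rw [Subsingleton.elim i 0]
    exact h
  inj a n f hf h := by
    rw [cone_zero] at h
    refine ⟨0, ?_⟩
    rw [pow_zero, one_mul]
    exact mem_of_coeff fun i => rename_map_mem ψ (hinj _ _ (hom_cone hf i) (h i))
  ne a := by
    rw [map_coneG]
    induction a using WithTop.recTopCoe with
    | top =>
      rw [coneG_top, aeval_X, coneZ_zero, Ne, map_eq_zero_iff _ (IsFractionRing.injective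
        (Polynomial L') (FractionRing (Polynomial L')))]
      exact Polynomial.X_ne_zero
    | coe a =>
      rw [coneG_coe, aeval_X, coneZ_succ, Ne, map_eq_zero_iff _ (IsFractionRing.injective
        (Polynomial L') (FractionRing (Polynomial L'))), Polynomial.C_eq_zero]
      exact hz' _

theorem cd_pair {E Λ : Type*} [AddCommGroup E] [LinearOrder Λ] (w : Finset Λ → E) {a b : Λ}
    (h : a < b) : cd w {a, b} = w {b} - w {a} := by
  have h1 : ({a, b} : Finset Λ).erase a = {b} := by
    rw [Finset.erase_insert]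
    rw [Finset.mem_singleton]
    exact h.ne
  have h2 : ({a, b} : Finset Λ).erase b = {a} := by
    rw [Finset.pair_comm, Finset.erase_insert]
    rw [Finset.mem_singleton]
    exact h.ne'
  have h3 : sgn a ({a, b} : Finset Λ) = 1 := by
    unfold sgn
    rw [Finset.filter_eq_empty_iff.2, Finset.card_empty, pow_zero]
    intro x hx
    rcases Finset.mem_insert.1 hx with rfl | hx
    · exact lt_irrefl _
    · rw [Finset.mem_singleton.1 hx]
      exact not_lt.2 h.le
  have h4 : sgn b ({a, b} : Finset Λ) = -1 := by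
    unfold sgn
    have : ({a, b} : Finset Λ).filter (· < b) = {a} := by
      ext x
      rw [Finset.mem_filter, Finset.mem_insert, Finset.mem_singleton, Finset.mem_singleton]
      constructor
      · rintro ⟨rfl | rfl, hx⟩
        · rfl
        · exact absurd hx (lt_irrefl _)
      · rintro rfl
        exact ⟨Or.inl rfl, h⟩
    rw [this, Finset.card_singleton, pow_one]
  unfold cd
  rw [Finset.sum_pair h.ne, h1, h2, h3, h4, one_smul, neg_smul, one_smul, sub_eq_add_neg]

/-- **uniform Serre theorem for the sections of `O(l)`** -/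
theorem sec_poly {Λ : Type} [LinearOrder Λ] [Fintype Λ] (a₀ : Λ) {B : Type u} [CommRing B]
    [IsNoetherianRing B] {N : ℕ} {L : Type*} [Field L] [Algebra B L] {z : Fin N → L}
    {σ : Λ → Fin N}
    (hcov : ∀ j, ∃ (m : ℕ) (h : Λ → MvPolynomial (Fin N) B), (∀ a, Hom B N m (h a)) ∧
      z j ^ (m + 1) = ∑ a, z (σ a) * aeval z (h a)) :
    ∃ l₀ : ℕ, ∀ (k : Type u) [Field k] (ψ : B →+* k) (L' : Type v) [Field L'] [Algebra k L']
      (z' : Fin N → L'), (∀ j, z' j ≠ 0) →
      (∀ (n : ℤ) (f : MvPolynomial (Fin N) B), Hom B N n f → (aeval z f : L) = 0 →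
        (aeval z' (map ψ f) : L') = 0) →
      (∀ (n : ℤ) (f : MvPolynomial (Fin N) k), Hom k N n f → (aeval z' f : L') = 0 →
        f ∈ (relIdeal B z).map (map ψ)) →
      ∀ l, l₀ ≤ l → ∀ f : L',
      (∀ a, ∃ (m : ℕ) (v : MvPolynomial (Fin N) k), Hom k N (l + m) v ∧
        z' (σ a) ^ m * f = aeval z' v) →
      ∃ v : MvPolynomial (Fin N) k, Hom k N l v ∧ f = aeval z' v := by
  classical
  obtain ⟨l₁, h⟩ := kvan (cone_dat0 hcov)
  refine ⟨(l₁ + 1).toNat, fun k _ ψ L' _ _ z' hz' hrel hinj l hl f hf => ?_⟩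
  have hn : l₁ ≤ (l : ℤ) - 1 := by omega
  have hI := IsFractionRing.injective (Polynomial L') (FractionRing (Polynomial L'))
  obtain ⟨τ, hτ⟩ : ∃ τ : FractionRing (Polynomial L'),
    τ = algebraMap (Polynomial L') _ (Polynomial.C f) := ⟨_, rfl⟩
  obtain ⟨T, hT⟩ : ∃ T : FractionRing (Polynomial L'), T = coneZ z' 0 := ⟨_, rfl⟩
  have hT0 : T ≠ 0 := by
    rw [hT, coneZ_zero, Ne, map_eq_zero_iff _ hI]
    exact Polynomial.X_ne_zero
  have hprod : ∀ J : Finset (WithTop Λ),
      (∏ a ∈ J, (aeval (coneZ z') (map ψ (coneG B σ a)) : FractionRing (Polynomial L'))) =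
      ∏ a ∈ J, (aeval (coneZ z') (coneG k σ a) : FractionRing (Polynomial L')) := fun J =>
    Finset.prod_congr rfl fun a _ => by rw [map_coneG]
  have hmem : ∀ a : Λ, τ / T ∈ fracK (coneZ z')
      (fun _ : Fin 1 => (1 : FractionRing (Polynomial L'))) (coneG k σ) (hom_coneG σ)
      ((l : ℤ) - 1) {(a : WithTop Λ), ⊤} := by
    intro a
    obtain ⟨m, v, hv, he⟩ := hf a
    have hne : (a : WithTop Λ) ∉ ({⊤} : Finset (WithTop Λ)) := by
      rw [Finset.mem_singleton]
      exact WithTop.coe_ne_top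
    refine ⟨m + 1, fun _ => X (σ a).succ * rename Fin.succ v * X 0 ^ m, fun _ => ?_, ?_⟩
    · have h1 := hom_mul (hom_mul (hom_X' (R := k) (σ a).succ) (hom_rename hv))
        (hom_pow (hom_X' (R := k) (0 : Fin (N + 1))) m)
      rw [Finset.card_insert_of_notMem hne, Finset.card_singleton]
      have e1 : (1 : ℤ) + (l + m) + m * 1 = (l : ℤ) - 1 + ((m + 1 : ℕ) : ℤ) * ((1 + 1 : ℕ) : ℤ) := by
        push_cast
        ring
      rw [e1] at h1
      exact h1
    · rw [ev_apply, Fin.sum_univ_one, smul_eq_mul, smul_eq_mul, mul_one, map_mul, map_mul, map_pow,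
        aeval_X, aeval_X, aeval_rename_succ, ← he, Finset.prod_insert hne, Finset.prod_singleton,
        coneG_top, coneG_coe, aeval_X, aeval_X, ← hT, coneZ_succ, hτ]
      simp only [map_mul, map_pow]
      rw [mul_pow, pow_succ T m]
      field_simp
      ring
  obtain ⟨y, hy1, hy2⟩ := h k ψ (FractionRing (Polynomial L')) (FractionRing (Polynomial L'))
    (coneZ z') _ (cone_red ψ hz' hrel hinj) ((l : ℤ) - 1) hn
    (fracK (coneZ z') (fun _ : Fin 1 => (1 : FractionRing (Polynomial L'))) (coneG k σ)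
      (hom_coneG σ) ((l : ℤ) - 1))
    (fun J _ x hx => by
      obtain ⟨m, v, hv, he⟩ := hx
      exact ⟨m, v, hv, by rw [hprod]; exact he⟩)
    (fun J _ m v x hv he => ⟨m, v, hv, by rw [hprod] at he; exact he⟩)
    1 le_rfl (cd fun J => if J = {⊤} then τ / T else 0)
    (fun J hJ => by
      unfold cd
      refine AddSubgroup.sum_mem _ fun c hc => AddSubgroup.zsmul_mem _ ?_ _
      beta_reduce
      split_ifs with h1
      · have h2 : insert c ({⊤} : Finset (WithTop Λ)) = J := by
          rw [← h1, Finset.insert_erase hc]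
        have h3 : c ≠ ⊤ := by
          rintro rfl
          have : (⊤ : WithTop Λ) ∈ J.erase ⊤ := by
            rw [h1]
            exact Finset.mem_singleton_self _
          exact Finset.notMem_erase _ _ this
        obtain ⟨a, rfl⟩ := WithTop.ne_top_iff_exists.1 h3
        rw [← h2]
        exact hmem a
      · exact AddSubgroup.zero_mem _)
    (fun J _ => cd_cd _ J)
  have hlt : (a₀ : WithTop Λ) < ⊤ := WithTop.coe_lt_top a₀
  have h5 := hy2 {(a₀ : WithTop Λ), ⊤} (Finset.card_pair hlt.ne)
  rw [cd_pair y hlt, cd_pair _ hlt, if_pos rfl, if_neg (fun h => hlt.ne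
    (Finset.singleton_injective h)), sub_zero] at h5
  obtain ⟨m, v, _, he⟩ := hy1 {(a₀ : WithTop Λ)} (Finset.card_singleton _)
  obtain ⟨m', v', hv', he'⟩ := hy1 {(⊤ : WithTop Λ)} (Finset.card_singleton _)
  rw [ev_apply, Fin.sum_univ_one, smul_eq_mul, smul_eq_mul, mul_one, Finset.prod_singleton,
    coneG_coe, aeval_X, coneZ_succ, aeval_cone] at he
  rw [ev_apply, Fin.sum_univ_one, smul_eq_mul, smul_eq_mul, mul_one, Finset.prod_singleton,
    coneG_top, aeval_X, coneZ_zero, aeval_cone] at he'
  have h6 : Polynomial.C (z' (σ a₀)) ^ m * (Polynomial.X *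
      (Polynomial.mapAlgHom (aeval z' : MvPolynomial (Fin N) k →ₐ[k] L')
        (finSuccEquiv k N (v' 0)))) -
      Polynomial.X ^ (m' + 1) * (Polynomial.mapAlgHom (aeval z' : MvPolynomial (Fin N) k →ₐ[k] L')
        (finSuccEquiv k N (v 0))) = Polynomial.C (z' (σ a₀)) ^ m * (Polynomial.C f *
          Polynomial.X ^ m') := by
    apply hI
    simp only [map_mul, _root_.map_sub, map_pow]
    rw [← he, ← he']
    rw [hT, coneZ_zero] at h5 hT0
    rw [hτ, eq_div_iff hT0] at h5
    rw [← h5]
    ring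
  have h7 := congrArg (fun p => Polynomial.coeff p m') h6
  simp only [Polynomial.coeff_sub, ← Polynomial.C_pow, Polynomial.coeff_C_mul,
    Polynomial.coeff_X_pow_self, mul_one] at h7
  rw [Polynomial.coeff_X_pow_mul', if_neg (by omega), sub_zero] at h7
  have h8 := mul_left_cancel₀ (pow_ne_zero m (hz' (σ a₀))) h7
  rcases m' with _ | c
  · refine ⟨0, hom_zero _, ?_⟩
    rw [← h8, Polynomial.coeff_X_mul_zero, map_zero]
  · refine ⟨(finSuccEquiv k N (v' 0)).coeff c, ?_, ?_⟩
    · have h9 := hom_cone (hv' 0) c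
      have e1 : (l : ℤ) - 1 + ((c + 1 : ℕ) : ℤ) * (({⊤} : Finset (WithTop Λ)).card : ℤ) - c = l := by
        rw [Finset.card_singleton]
        push_cast
        ring
      rw [e1] at h9
      exact h9
    · rw [← h8, Polynomial.coeff_X_mul, cone_coeff]

end Pool.Agent.Lib.MP_732f67_ag.V
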