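import Pool.Agent.Lib.MP_732f67_ag.V.Main

/-!
# Project KM, part V: the cone
-/

set_option autoImplicit false

namespace Pool.Agent.Lib.MP_732f67_ag.V

open MvPolynomial
open Pool.Agent.Lib.MP_0b721b_ag
open Pool.Agent.Lib.MP_0b721b_ag.St (Hom hom_iff)

universe u

variable {R : Type*} [CommRing R] {L : Type*} [Field L] [Algebra R L] {N : ℕ}

/-- the coordinates of the cone: a new variable and the old coordinates -/
noncomputable def coneZ (z : Fin N → L) : Fin (N + 1) → FractionRing (Polynomial L) :=
  Fin.cons (algebraMap (Polynomial L) _ Polynomial.X)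
    fun j => algebraMap (Polynomial L) _ (Polynomial.C (z j))

theorem coneZ_zero (z : Fin N → L) :
    coneZ z 0 = algebraMap (Polynomial L) (FractionRing (Polynomial L)) Polynomial.X := rfl

theorem coneZ_succ (z : Fin N → L) (j : Fin N) :
    coneZ z j.succ = algebraMap (Polynomial L) (FractionRing (Polynomial L)) (Polynomial.C (z j)) :=
  rfl

theorem aeval_cone (z : Fin N → L) (f : MvPolynomial (Fin (N + 1)) R) :
    (aeval (coneZ z) f : FractionRing (Polynomial L)) = algebraMap (Polynomial L) _
      (Polynomial.mapAlgHom (aeval z : MvPolynomial (Fin N) R →ₐ[R] L) (finSuccEquiv R N f)) := by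
  have h : (aeval (coneZ z) : MvPolynomial (Fin (N + 1)) R →ₐ[R] FractionRing (Polynomial L)) =
      (IsScalarTower.toAlgHom R (Polynomial L) (FractionRing (Polynomial L))).comp
        ((Polynomial.mapAlgHom (aeval z : MvPolynomial (Fin N) R →ₐ[R] L)).comp
          (finSuccEquiv R N).toAlgHom) := by
    apply MvPolynomial.algHom_ext
    intro i
    refine Fin.cases ?_ (fun j => ?_) i
    · rw [aeval_X, coneZ_zero]
      simp [finSuccEquiv_X_zero]
    · rw [aeval_X, coneZ_succ]
      simp [finSuccEquiv_X_succ]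
  rw [h]
  rfl

theorem cone_coeff (z : Fin N → L) (f : MvPolynomial (Fin (N + 1)) R) (i : ℕ) :
    (Polynomial.mapAlgHom (aeval z : MvPolynomial (Fin N) R →ₐ[R] L)
      (finSuccEquiv R N f)).coeff i = aeval z ((finSuccEquiv R N f).coeff i) := by
  rw [Polynomial.coe_mapAlgHom, Polynomial.coeff_map]
  rfl

theorem cone_zero {z : Fin N → L} {f : MvPolynomial (Fin (N + 1)) R} :
    (aeval (coneZ z) f : FractionRing (Polynomial L)) = 0 ↔
      ∀ i, (aeval z ((finSuccEquiv R N f).coeff i) : L) = 0 := by
  rw [aeval_cone, map_eq_zero_iff _ (IsFractionRing.injective (Polynomial L)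
    (FractionRing (Polynomial L)))]
  constructor
  · intro h i
    rw [← cone_coeff, h, Polynomial.coeff_zero]
  · intro h
    ext i
    rw [cone_coeff, h, Polynomial.coeff_zero]

theorem hom_cone {n : ℤ} {f : MvPolynomial (Fin (N + 1)) R} (hf : Hom R (N + 1) n f) (i : ℕ) :
    Hom R N (n - i) ((finSuccEquiv R N f).coeff i) := by
  intro d hd
  have h1 : d.cons i ∈ f.support := by
    rw [mem_support_iff] at hd ⊢
    rwa [finSuccEquiv_coeff_coeff] at hd
  have h2 := hf _ h1
  rw [Fin.sum_univ_succ] at h2
  simp only [Finsupp.cons_zero, Finsupp.cons_succ] at h2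
  omega

theorem hom_rename {n : ℤ} {g : MvPolynomial (Fin N) R} (hg : Hom R N n g) :
    Hom R (N + 1) n (rename Fin.succ g) := by
  classical
  intro d hd
  rw [support_rename_of_injective (Fin.succ_injective N), Finset.mem_image] at hd
  obtain ⟨e, he, rfl⟩ := hd
  rw [Fin.sum_univ_succ, Finsupp.mapDomain_of_notMem_range]
  · simp only [Finsupp.mapDomain_apply (Fin.succ_injective N)]
    rw [Nat.cast_zero, zero_add]
    exact hg e he
  · rintro ⟨j, hj⟩
    exact Fin.succ_ne_zero j hj

theorem aeval_rename_succ (z : Fin N → L) (g : MvPolynomial (Fin N) R) :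
    (aeval (coneZ z) (rename Fin.succ g) : FractionRing (Polynomial L)) =
      algebraMap (Polynomial L) _ (Polynomial.C (aeval z g)) := by
  rw [aeval_rename]
  have h : (aeval (coneZ z ∘ Fin.succ) : MvPolynomial (Fin N) R →ₐ[R]
      FractionRing (Polynomial L)) =
      (IsScalarTower.toAlgHom R (Polynomial L) (FractionRing (Polynomial L))).comp
        ((IsScalarTower.toAlgHom R L (Polynomial L)).comp (aeval z)) := by
    apply MvPolynomial.algHom_ext
    intro i
    rw [aeval_X]
    simp [coneZ_succ, Polynomial.algebraMap_eq]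
  rw [h]
  rfl

theorem finSucc_rename (g : MvPolynomial (Fin N) R) :
    finSuccEquiv R N (rename Fin.succ g) = Polynomial.C g := by
  induction g using MvPolynomial.induction_on with
  | C a =>
    rw [rename_C]
    simp [finSuccEquiv_apply]
  | add p q hp hq => rw [map_add, map_add, hp, hq, map_add]
  | mul_X p i hp => rw [map_mul, map_mul, rename_X, finSuccEquiv_X_succ, hp, map_mul]

/-- a polynomial all of whose coefficients lie in an ideal -/
theorem mem_of_coeff {J : Ideal (MvPolynomial (Fin (N + 1)) R)} {f : MvPolynomial (Fin (N + 1)) R}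
    (h : ∀ i, rename Fin.succ ((finSuccEquiv R N f).coeff i) ∈ J) : f ∈ J := by
  have h1 : f = ∑ i ∈ (finSuccEquiv R N f).support,
      rename Fin.succ ((finSuccEquiv R N f).coeff i) * X 0 ^ i := by
    apply (finSuccEquiv R N).injective
    rw [map_sum]
    simp only [map_mul, map_pow, finSucc_rename, finSuccEquiv_X_zero]
    exact (Polynomial.as_sum_support_C_mul_X_pow _)
  rw [h1]
  exact Ideal.sum_mem _ fun i _ => Ideal.mul_mem_right _ _ (h i)

theorem mem_relIdeal_of_hom {z : Fin N → L} {n : ℤ} {f : MvPolynomial (Fin N) R}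
    (hf : Hom R N n f) (h : (aeval z f : L) = 0) : f ∈ relIdeal R z := by
  intro m
  have h1 := hom_iff.1 hf
  unfold Gr.Hom at h1
  by_cases hm : m = n
  · rw [hm, h1]
    exact h
  · rw [← h1, Gr.pr_ne _ _ _ hm, map_zero]

theorem rename_mem {z : Fin N → L} {g : MvPolynomial (Fin N) R} (hg : g ∈ relIdeal R z) :
    rename Fin.succ g ∈ relIdeal R (coneZ z) := by
  rw [← (polyGr R (fun _ : Fin N => (1 : ℤ))).sum g]
  refine finsum_induction (fun y => rename Fin.succ y ∈ relIdeal R (coneZ z)) ?_ ?_ ?_
  · rw [map_zero]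
    exact Ideal.zero_mem _
  · intro x y hx hy
    rw [map_add]
    exact Ideal.add_mem _ hx hy
  · intro n
    refine mem_relIdeal_of_hom (hom_rename (hom_iff.2 (Gr.hom_pr _ n g))) ?_
    rw [aeval_rename_succ, hg n, map_zero, map_zero]

theorem finSucc_map {S : Type*} [CommRing S] (ψ : R →+* S) (f : MvPolynomial (Fin (N + 1)) R)
    (i : ℕ) : (finSuccEquiv S N (map ψ f)).coeff i = map ψ ((finSuccEquiv R N f).coeff i) := by
  ext m
  rw [finSuccEquiv_coeff_coeff, coeff_map, coeff_map, finSuccEquiv_coeff_coeff]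

theorem rename_map_mem {S : Type*} [CommRing S] (ψ : R →+* S) {z : Fin N → L}
    {g : MvPolynomial (Fin N) S} (hg : g ∈ (relIdeal R z).map (map ψ)) :
    rename Fin.succ g ∈ (relIdeal R (coneZ z)).map (map ψ) := by
  have h : (relIdeal R z).map (map ψ) ≤
      ((relIdeal R (coneZ z)).map (map ψ)).comap (rename Fin.succ).toRingHom := by
    rw [Ideal.map_le_iff_le_comap]
    intro f hf
    change rename Fin.succ (map ψ f) ∈ (relIdeal R (coneZ z)).map (map ψ)
    rw [← map_rename]
    exact Ideal.mem_map_of_mem _ (rename_mem hf)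
  exact h hg

end Pool.Agent.Lib.MP_732f67_ag.V
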