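import Pool.Agent.Lib.MP_732f67_ag.V.EvA

/-!
# Project KM, part V: the lattices `LJ` in terms of homogeneous polynomials
-/

set_option autoImplicit false

namespace Pool.Agent.Lib.MP_732f67_ag.V

open MvPolynomial
open Pool.Agent.Lib.MP_0b721b_ag.St (Hom)
open Pool.Agent.Lib.MP_732f67_ag.KC (AJ)

theorem hom_X {R : Type*} [CommRing R] {N : ℕ} (j : Fin N) :
    Hom R N 1 (X j : MvPolynomial (Fin N) R) :=
  Pool.Agent.Lib.MP_0b721b_ag.St.hom_iff.2
    (Pool.Agent.Lib.MP_0b721b_ag.polyGr_X (fun _ : Fin N => (1 : ℤ)) j)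

theorem hom_prod_X {R : Type*} [CommRing R] {N : ℕ} {Λ : Type*} (σ : Λ → Fin N) (J : Finset Λ) :
    Hom R N J.card (∏ a ∈ J, (X (σ a) : MvPolynomial (Fin N) R)) := by
  classical
  induction J using Finset.induction_on with
  | empty =>
    rw [Finset.prod_empty, Finset.card_empty]
    exact hom_one
  | insert a s ha ih =>
    rw [Finset.prod_insert ha, Finset.card_insert_of_notMem ha]
    have := hom_mul (hom_X (R := R) (σ a)) ih
    push_cast
    rw [add_comm]
    exact this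

theorem hom_cast {R : Type*} [CommRing R] {N : ℕ} {m n : ℤ} {f : MvPolynomial (Fin N) R}
    (h : Hom R N m f) (e : m = n) : Hom R N n f := e ▸ h

variable {F : Type*} [Field F] {p : ℕ} [Fact p.Prime] [Algebra (ZMod p) F] {N : ℕ} {Λ κ T : Type}
  [Fintype T] [DecidableEq Λ] {z : Fin N → F} {σ : Λ → Fin N} {ω : Λ → T → κ → F} {r : ℕ}

/-- from the lattice to the numerators -/
theorem LJ_K1 [Fintype Λ] (hz : ∀ j, z j ≠ 0) (e : Fin r ≃ Λ × T) {d l : ℕ} (hdl : d ≤ l)
    {J : Finset Λ} (hJ : J.Nonempty) {v : κ → F} (hv : v ∈ LJ z σ ω l J) :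
    ∃ (m : ℕ) (w : Fin r → MvPolynomial (Fin N) (ZMod p)),
      (∀ j, Hom (ZMod p) N ((l : ℤ) - d + m * J.card) (w j)) ∧
      (∏ a ∈ J, z (σ a)) ^ m • v =
        ev z (fun i => z (σ (e i).1) ^ d • ω (e i).1 (e i).2) w := by
  classical
  have hJ' := hJ
  obtain ⟨a, ha⟩ := hJ'
  obtain ⟨x, hx, hv⟩ := hv a ha
  have h1 : ∀ s, ∃ (m : ℕ) (f : MvPolynomial (Fin N) (ZMod p)),
      Hom (ZMod p) N (m * J.card) f ∧ (∏ a ∈ J, z (σ a)) ^ m * x s = aeval z f :=
    fun s => (AR_iff hz hJ).1 ((AR_prime p).2 (hx s))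
  choose m f hf he using h1
  have hle : ∀ s, ∃ c, ∑ s, m s = m s + c := fun s => Nat.exists_eq_add_of_le
    (Finset.single_le_sum (f := m) (fun _ _ => Nat.zero_le _) (Finset.mem_univ s))
  choose c hc using hle
  generalize ∑ s, m s = q at hc
  refine ⟨q, fun i => if (e i).1 = a then X (σ a) ^ (l - d) *
    ((∏ a ∈ J, X (σ a)) ^ c (e i).2 * f (e i).2) else 0, fun i => ?_, ?_⟩
  · dsimp only
    split_ifs with h
    · refine hom_cast (hom_mul (hom_pow (hom_X (σ a)) (l - d)) (hom_mul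
        (hom_pow (hom_prod_X σ J) (c (e i).2)) (hf (e i).2))) ?_
      rw [hc (e i).2]
      push_cast [hdl]
      ring
    · exact hom_zero _
  · rw [ev_apply]
    have h2 : ∀ i, (aeval z ((if (e i).1 = a then X (σ a) ^ (l - d) *
        ((∏ a ∈ J, X (σ a)) ^ c (e i).2 * f (e i).2) else 0 : MvPolynomial (Fin N) (ZMod p))) : F) •
        (z (σ (e i).1) ^ d • ω (e i).1 (e i).2) = (fun bs : Λ × T =>
        if bs.1 = a then (z (σ a) ^ (l - d) * ((∏ a ∈ J, z (σ a)) ^ q * x bs.2)) •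
          (z (σ a) ^ d • ω a bs.2) else 0) (e i) := by
      intro i
      dsimp only
      split_ifs with h
      · rw [map_mul, map_mul, map_pow, map_pow, aeval_X, map_prod, ← he, h]
        congr 2
        rw [hc (e i).2, pow_add]
        simp only [aeval_X]
        ring
      · rw [map_zero, zero_smul]
    rw [Finset.sum_congr rfl fun i _ => h2 i, Equiv.sum_comp e (fun bs : Λ × T =>
        if bs.1 = a then (z (σ a) ^ (l - d) * ((∏ a ∈ J, z (σ a)) ^ q * x bs.2)) •
          (z (σ a) ^ d • ω a bs.2) else 0), Fintype.sum_prod_type]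
    rw [Finset.sum_eq_single a]
    · simp only [if_true]
      rw [hv, smul_smul, Finset.smul_sum]
      refine Finset.sum_congr rfl fun s _ => ?_
      rw [smul_smul, smul_smul]
      congr 1
      have h3 : z (σ a) ^ l = z (σ a) ^ (l - d) * z (σ a) ^ d := by
        rw [← pow_add, Nat.sub_add_cancel hdl]
      rw [h3]
      ring
    · intro b _ hb
      simp only [if_neg hb]
      exact Finset.sum_const_zero
    · intro h
      exact absurd (Finset.mem_univ a) h

/-- from the numerators to the lattice -/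
theorem LJ_K2 (hz : ∀ j, z j ≠ 0) (e : Fin r ≃ Λ × T) {d l : ℕ} (hdl : d ≤ l)
    (hr : ∀ a b s, ∃ (M : ℕ) (C : T → MvPolynomial (Fin N) (ZMod p)),
      (∀ u, Hom (ZMod p) N M (C u)) ∧
      z (σ a) ^ M • (z (σ b) ^ d • ω b s) = ∑ u, (aeval z (C u) : F) • (z (σ a) ^ d • ω a u))
    {J : Finset Λ} (hJ : J.Nonempty) {v : κ → F} {m : ℕ}
    {w : Fin r → MvPolynomial (Fin N) (ZMod p)}
    (hw : ∀ j, Hom (ZMod p) N ((l : ℤ) - d + m * J.card) (w j))
    (he : (∏ a ∈ J, z (σ a)) ^ m • v =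
        ev z (fun i => z (σ (e i).1) ^ d • ω (e i).1 (e i).2) w) :
    v ∈ LJ z σ ω l J := by
  classical
  intro a ha
  choose M C hC hCe using fun i => hr a (e i).1 (e i).2
  have hle : ∀ i, ∃ c, ∑ i, M i = M i + c := fun i => Nat.exists_eq_add_of_le
    (Finset.single_le_sum (f := M) (fun _ _ => Nat.zero_le _) (Finset.mem_univ i))
  choose c hc using hle
  generalize ∑ i, M i = q at hc
  let h : T → MvPolynomial (Fin N) (ZMod p) := fun u => ∑ i, w i * (X (σ a) ^ c i * C i u)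
  have hg : (∏ b ∈ J, z (σ b)) ≠ 0 := Finset.prod_ne_zero_iff.2 fun b _ => hz _
  have hh : ∀ u, Hom (ZMod p) N ((l : ℤ) - d + m * J.card + q) (h u) := fun u =>
    hom_sum _ _ fun i _ => hom_cast (hom_mul (hw i) (hom_mul (hom_pow (hom_X (σ a)) (c i))
      (hC i u))) (by
        rw [hc i]
        push_cast
        ring)
  have h1 : z (σ a) ^ q • ((∏ b ∈ J, z (σ b)) ^ m • v) =
      ∑ u, (aeval z (h u) : F) • (z (σ a) ^ d • ω a u) := by
    rw [he, ev_apply, Finset.smul_sum]
    have h2 : ∀ i, z (σ a) ^ q • ((aeval z (w i) : F) • (z (σ (e i).1) ^ d • ω (e i).1 (e i).2)) =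
        ∑ u, (aeval z (w i * (X (σ a) ^ c i * C i u)) : F) • (z (σ a) ^ d • ω a u) := by
      intro i
      rw [smul_comm, hc i, pow_add, mul_comm (z (σ a) ^ M i), mul_smul, hCe i, Finset.smul_sum,
        Finset.smul_sum]
      refine Finset.sum_congr rfl fun u _ => ?_
      rw [map_mul, map_mul, map_pow, aeval_X]
      simp only [smul_smul]
      congr 1
      ring
    rw [Finset.sum_congr rfl fun i _ => h2 i, Finset.sum_comm]
    refine Finset.sum_congr rfl fun u _ => ?_
    rw [← Finset.sum_smul]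
    congr 1
    exact (map_sum _ _ _).symm
  refine ⟨fun u => aeval z (h u) / (z (σ a) ^ (q + (l - d)) * (∏ b ∈ J, z (σ b)) ^ m), fun u => ?_,
    ?_⟩
  · rw [← AR_prime p, AR_iff hz hJ]
    refine ⟨m + (q + (l - d)), (∏ b ∈ J.erase a, X (σ b)) ^ (q + (l - d)) * h u, ?_, ?_⟩
    · refine hom_cast (hom_mul (hom_pow (hom_prod_X σ (J.erase a)) _) (hh u)) ?_
      rw [← Finset.card_erase_add_one ha]
      push_cast [hdl]
      ring
    · rw [map_mul, map_pow, map_prod]
      simp only [aeval_X]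
      have h3 := Finset.mul_prod_erase J (fun b => z (σ b)) ha
      have h4 : (∏ b ∈ J.erase a, z (σ b)) ^ (q + (l - d)) * z (σ a) ^ (q + (l - d)) =
          (∏ b ∈ J, z (σ b)) ^ (q + (l - d)) := by
        rw [← mul_pow, mul_comm, h3]
      rw [pow_add, ← h4]
      have h5 := hz (σ a)
      field_simp
  · have h6 : z (σ a) ^ q * (∏ b ∈ J, z (σ b)) ^ m ≠ 0 :=
      mul_ne_zero (pow_ne_zero _ (hz _)) (pow_ne_zero _ hg)
    rw [smul_smul] at h1
    refine smul_right_injective _ h6 ?_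
    dsimp only
    rw [h1, Finset.smul_sum, Finset.smul_sum]
    refine Finset.sum_congr rfl fun u _ => ?_
    rw [smul_smul, smul_smul, smul_smul]
    congr 1
    have h3 : z (σ a) ^ l = z (σ a) ^ (l - d) * z (σ a) ^ d := by
      rw [← pow_add, Nat.sub_add_cancel hdl]
    have h5 := hz (σ a)
    rw [h3, pow_add]
    field_simp

end Pool.Agent.Lib.MP_732f67_ag.V
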