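import Pool.Agent.Lib.MP_732f67_ag.V.EvK2

/-!
# Project KM, part V: the data over `B` and over the reductions
-/

set_option autoImplicit false

namespace Pool.Agent.Lib.MP_732f67_ag.V

open MvPolynomial
open Pool.Agent.Lib.MP_0b721b_ag.St (Hom)
open Pool.Agent.KM

variable {L : Type} [Field L] [Algebra ℂ L] {N : ℕ} {Λ κ T : Type} [Fintype κ] [Fintype T]
  [DecidableEq Λ] [DecidableEq T] {B : Subring ℂ} {z : Fin N → L} {σ : Λ → Fin N}
  {ω : Λ → T → κ → L} {r d : ℕ}

/-- the vectors of the lattice -/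
def vec {F : Type*} [Field F] (z : Fin N → F) (σ : Λ → Fin N) (ω : Λ → T → κ → F) (d : ℕ)
    (e : Fin r ≃ Λ × T) (i : Fin r) : κ → F := z (σ (e i).1) ^ d • ω (e i).1 (e i).2

/-- the basis of the chart `a` -/
def Sa [Fintype Λ] (e : Fin r ≃ Λ × T) (a : Λ) : Finset (Fin r) :=
  Finset.univ.filter fun i => (e i).1 = a

theorem mk_dat0 [Fintype Λ] (e : Fin r ≃ Λ × T)
    (hcov : ∀ j, ∃ (m : ℕ) (h : Λ → MvPolynomial (Fin N) B), (∀ a, Hom B N m (h a)) ∧
      z j ^ (m + 1) = ∑ a, z (σ a) * aeval z (h a))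
    (htr : ∀ a b s, ∃ (M : ℕ) (C : T → MvPolynomial (Fin N) B), (∀ u, Hom B N M (C u)) ∧
      z (σ a) ^ M • (z (σ b) ^ d • ω b s) = ∑ u, (aeval z (C u) : L) • (z (σ a) ^ d • ω a u)) :
    Dat0 z (vec z σ ω d e) (fun a => (X (σ a) : MvPolynomial (Fin N) B)) (Sa e) where
  hG a := hom_X (σ a)
  cov j := by
    obtain ⟨m, h, hh, he⟩ := hcov j
    refine ⟨m + 1, ?_⟩
    have h1 : (X j : MvPolynomial (Fin N) B) ^ (m + 1) =
        (X j ^ (m + 1) - ∑ a, X (σ a) * h a) + ∑ a, X (σ a) * h a := by ring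
    rw [h1]
    refine Ideal.add_mem _ (Ideal.mem_sup_left ?_) (Ideal.mem_sup_right ?_)
    · have h2 : Hom B N ((m + 1 : ℕ) : ℤ)
          ((X j : MvPolynomial (Fin N) B) ^ (m + 1) - ∑ a, X (σ a) * h a) := by
        refine hom_sub ?_ (hom_sum _ _ fun a _ => ?_)
        · exact hom_cast (hom_pow (hom_X j) (m + 1)) (by push_cast; ring)
        · exact hom_cast (hom_mul (hom_X (σ a)) (hh a)) (by push_cast; ring)
      have h3 : (aeval z ((X j : MvPolynomial (Fin N) B) ^ (m + 1) - ∑ a, X (σ a) * h a) : L) = 0 := by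
        rw [_root_.map_sub, map_pow, map_sum]
        simp only [map_mul, aeval_X]
        rw [he, sub_self]
      intro n
      have h4 := Pool.Agent.Lib.MP_0b721b_ag.St.hom_iff.1 h2
      unfold Pool.Agent.Lib.MP_0b721b_ag.Gr.Hom at h4
      by_cases hn : n = ((m + 1 : ℕ) : ℤ)
      · rw [hn, h4]
        exact h3
      · rw [← h4, Pool.Agent.Lib.MP_0b721b_ag.Gr.pr_ne _ _ _ hn, map_zero]
    · exact Ideal.sum_mem _ fun a _ => Ideal.mul_mem_right _ _ (Ideal.subset_span ⟨a, rfl⟩)
  gen a i := by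
    obtain ⟨M, C, hC, he⟩ := htr a (e i).1 (e i).2
    refine ⟨M, fun s => if (e s).1 = a then C (e s).2 else 0, fun s => ?_, fun s hs => ?_, ?_⟩
    · dsimp only
      split_ifs
      · exact hC _
      · exact hom_zero _
    · have : ¬ (e s).1 = a := fun h => hs (Finset.mem_filter.2 ⟨Finset.mem_univ s, h⟩)
      exact if_neg this
    · rw [aeval_X]
      unfold vec
      rw [he]
      have h2 : ∀ s, (aeval z ((if (e s).1 = a then C (e s).2 else 0 : MvPolynomial (Fin N) B)) : L) •
          (z (σ (e s).1) ^ d • ω (e s).1 (e s).2) = (fun bs : Λ × T =>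
          if bs.1 = a then (aeval z (C bs.2) : L) • (z (σ a) ^ d • ω a bs.2) else 0) (e s) := by
        intro s
        dsimp only
        split_ifs with h
        · rw [h]
        · rw [map_zero, zero_smul]
      rw [Finset.sum_congr rfl fun s _ => h2 s, Equiv.sum_comp e (fun bs : Λ × T =>
          if bs.1 = a then (aeval z (C bs.2) : L) • (z (σ a) ^ d • ω a bs.2) else 0),
        Fintype.sum_prod_type, Finset.sum_eq_single a]
      · simp only [if_true]
      · intro b _ hb
        simp only [if_neg hb]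
        exact Finset.sum_const_zero
      · intro h
        exact absurd (Finset.mem_univ a) h

variable {n : ℕ} {t : Fin n → L} {y : L}

/-- the data for a reduction -/
theorem mk_red [Fintype Λ] (e : Fin r ≃ Λ × T) (R : Pool.Agent.KM.Red L t y) (hB : B ≤ R.C)
    (hz : ∀ j, z j ∈ R.Λ) (hz0 : ∀ j, R.r (z j) ≠ 0)
    (hωΛ : ∀ a s i, ω a s i ∈ R.Λ) (g : Λ → T → κ → L) (hgΛ : ∀ a s i, g a s i ∈ R.Λ)
    (hg : ∀ a s s', ∑ i, g a s i * ω a s' i = if s = s' then 1 else 0)
    (hinj : ∀ a (m : ℤ) (f : MvPolynomial (Fin N) (ZMod R.p)), Hom (ZMod R.p) N m f →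
      (aeval (fun j => R.r (z j)) f : R.F) = 0 →
      ∃ e : ℕ, X (σ a) ^ e * f ∈ (relIdeal B z).map (MvPolynomial.map (R.ψB B hB))) :
    Red z (vec z σ ω d e) (fun a => (X (σ a) : MvPolynomial (Fin N) B)) (Sa e) (R.ψB B hB)
      (fun j => R.r (z j)) (vec (fun j => R.r (z j)) σ (fun a s i => R.r (ω a s i)) d e) where
  rel m v hv h := by
    funext i
    rw [ev_apply, Finset.sum_apply, Pi.zero_apply]
    have h1 := congrFun h i
    rw [ev_apply, Finset.sum_apply, Pi.zero_apply] at h1
    have h2 := congrArg R.r h1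
    rw [Pool.Agent.KM.Red.r_zero, Pool.Agent.KM.Red.r_sum] at h2
    · rw [← h2]
      refine Finset.sum_congr rfl fun j _ => ?_
      have h3 := r_aeval R hB hz (v j)
      unfold vec
      simp only [Pi.smul_apply, smul_eq_mul]
      rw [R.r_mul h3.1 (R.Λ.mul_mem (R.Λ.pow_mem (hz _) d) (hωΛ _ _ _)), h3.2,
        R.r_mul (R.Λ.pow_mem (hz _) d) (hωΛ _ _ _), R.r_pow (hz _)]
    · intro j _
      have h3 := r_aeval R hB hz (v j)
      unfold vec
      simp only [Pi.smul_apply, smul_eq_mul]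
      exact R.Λ.mul_mem h3.1 (R.Λ.mul_mem (R.Λ.pow_mem (hz _) d) (hωΛ _ _ _))
  ind a c hc h := by
    have h1 : ∀ s, c (e.symm (a, s)) = 0 := by
      intro s
      have h2 : ∑ i, R.r (g a s i) * (∑ j, c j • vec (fun j => R.r (z j)) σ
          (fun a s i => R.r (ω a s i)) d e j) i = 0 := by
        rw [h]
        exact Finset.sum_eq_zero fun i _ => by rw [Pi.zero_apply, mul_zero]
      have h3 : ∑ i, R.r (g a s i) * (∑ j, c j • vec (fun j => R.r (z j)) σ
          (fun a s i => R.r (ω a s i)) d e j) i = ∑ j, c j * (R.r (z (σ (e j).1)) ^ d *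
          ∑ i, R.r (g a s i) * R.r (ω (e j).1 (e j).2 i)) := by
        simp only [Finset.sum_apply, Pi.smul_apply, smul_eq_mul, vec, Finset.mul_sum]
        rw [Finset.sum_comm]
        refine Finset.sum_congr rfl fun j _ => Finset.sum_congr rfl fun i _ => ?_
        ring
      have h4 : ∀ s', ∑ i, R.r (g a s i) * R.r (ω a s' i) = if s = s' then 1 else 0 := by
        intro s'
        have h5 := congrArg R.r (hg a s s')
        rw [Pool.Agent.KM.Red.r_sum R _ _ (fun i _ => R.Λ.mul_mem (hgΛ _ _ _) (hωΛ _ _ _))] at h5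
        have h6 : ∀ i, R.r (g a s i * ω a s' i) = R.r (g a s i) * R.r (ω a s' i) :=
          fun i => R.r_mul (hgΛ _ _ _) (hωΛ _ _ _)
        simp only [h6] at h5
        rw [h5]
        split_ifs
        · exact R.r_one
        · exact R.r_zero
      rw [h3, Finset.sum_eq_single (e.symm (a, s))] at h2
      · rw [Equiv.apply_symm_apply, h4, if_pos rfl, mul_one] at h2
        exact (mul_eq_zero.1 h2).resolve_right (pow_ne_zero _ (hz0 _))
      · intro j _ hj
        by_cases hja : (e j).1 = a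
        · have h7 : s ≠ (e j).2 := by
            rintro rfl
            apply hj
            rw [Equiv.eq_symm_apply]
            exact Prod.ext hja rfl
          rw [hja, h4, if_neg h7, mul_zero, mul_zero]
        · rw [hc j (fun h => hja (Finset.mem_filter.1 h).2), zero_mul]
      · intro h
        exact absurd (Finset.mem_univ _) h
    funext j
    by_cases hja : (e j).1 = a
    · have h8 := h1 (e j).2
      have h9 : e.symm (a, (e j).2) = j := by
        rw [Equiv.symm_apply_eq]
        exact Prod.ext hja.symm rfl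
      rw [h9] at h8
      exact h8
    · exact hc j (fun h => hja (Finset.mem_filter.1 h).2)
  inj a m f hf h := by
    obtain ⟨e, he⟩ := hinj a m f hf h
    exact ⟨e, by rw [map_X]; exact he⟩
  ne a := by
    rw [map_X, aeval_X]
    exact hz0 _

end Pool.Agent.Lib.MP_732f67_ag.V
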