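import Pool.Agent.Lib.MP_732f67_ag.V.Van

/-!
# Project KM, part V: uniform Serre vanishing for lattices, in terms of subgroups of a vector space
-/

set_option autoImplicit false

namespace Pool.Agent.Lib.MP_732f67_ag.V

open MvPolynomial
open Pool.Agent.Lib.MP_0b721b_ag
open Pool.Agent.Lib.MP_0b721b_ag.St
open Pool.Agent.Lib.MP_732f67_ag.KC (cd)

universe u

variable {Λ : Type} {B : Type u} [CommRing B] {N r : ℕ}

/-- the data over `B`: `z j` homogeneous coordinates, `G a` linear forms which define the charts,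
`ω i` vectors which are over the chart `a` combinations of the `ω s`, `s ∈ S a` -/
structure Dat0 {L : Type*} [Field L] [Algebra B L] {E : Type*} [AddCommGroup E] [Module L E]
    (z : Fin N → L) (ω : Fin r → E) (G : Λ → MvPolynomial (Fin N) B) (S : Λ → Finset (Fin r)) :
    Prop where
  hG : ∀ a, Hom B N 1 (G a)
  cov : ∀ j, ∃ e : ℕ, (X j : MvPolynomial (Fin N) B) ^ e ∈
    relIdeal B z ⊔ Ideal.span (Set.range G)
  gen : ∀ a i, ∃ (M : ℕ) (C : Fin r → MvPolynomial (Fin N) B), (∀ s, Hom B N M (C s)) ∧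
    (∀ s, s ∉ S a → C s = 0) ∧
    (aeval z (G a) : L) ^ M • ω i = ∑ s, (aeval z (C s) : L) • ω s

/-- the data over a field `k` over `B` -/
structure Red {L : Type*} [Field L] [Algebra B L] {E : Type*} [AddCommGroup E] [Module L E]
    (z : Fin N → L) (ω : Fin r → E) (G : Λ → MvPolynomial (Fin N) B) (S : Λ → Finset (Fin r))
    {k : Type u} [Field k] (ψ : B →+* k) {L' : Type*} [Field L'] [Algebra k L'] {E' : Type*}
    [AddCommGroup E'] [Module L' E'] (z' : Fin N → L') (ω' : Fin r → E') : Prop where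
  rel : ∀ (n : ℤ) (v : Fin r → MvPolynomial (Fin N) B), (∀ j, Hom B N n (v j)) → ev z ω v = 0 →
    ev z' ω' (fun j => map ψ (v j)) = 0
  ind : ∀ a (c : Fin r → L'), (∀ s, s ∉ S a → c s = 0) → ∑ s, c s • ω' s = 0 → c = 0
  inj : ∀ a (n : ℤ) (f : MvPolynomial (Fin N) k), Hom k N n f → (aeval z' f : L') = 0 →
    ∃ e : ℕ, map ψ (G a) ^ e * f ∈ (relIdeal B z).map (map ψ)
  ne : ∀ a, (aeval z' (map ψ (G a)) : L') ≠ 0

section inj

variable {L : Type*} [Field L] [Algebra B L] {E : Type*} [AddCommGroup E] [Module L E]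
  {z : Fin N → L} {ω : Fin r → E} {G : Λ → MvPolynomial (Fin N) B} {S : Λ → Finset (Fin r)}
  {k : Type u} [Field k] {ψ : B →+* k} {L' : Type*} [Field L'] [Algebra k L'] {E' : Type*}
  [AddCommGroup E'] [Module L' E'] {z' : Fin N → L'} {ω' : Fin r → E'}

/-- relations stay relations -/
theorem Red.ev_eq_zero (hr : Red z ω G S ψ z' ω') {v : Fin r → MvPolynomial (Fin N) k}
    (hv : v ∈ bcS ψ (relMod B z ω)) : ev z' ω' v = 0 := by
  refine Submodule.span_induction (p := fun v _ => ev z' ω' v = 0) ?_ (map_zero _) ?_ ?_ hv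
  · rintro _ ⟨v, hv, rfl⟩
    change ev z' ω' (fun j => map ψ (v j)) = 0
    have h1 := (freeGr B (fun _ : Fin N => (1 : ℤ)) (fun _ : Fin r => 0)).sum v
    rw [← h1]
    refine finsum_induction (fun y : Fin r → MvPolynomial (Fin N) B =>
      ev z' ω' (fun j => map ψ (y j)) = 0) ?_ ?_ ?_
    · simp only [Pi.zero_apply, map_zero]
      exact map_zero _
    · intro x y hx hy
      have h2 : (fun j => map ψ ((x + y) j)) =
          (fun j => map ψ (x j)) + fun j => map ψ (y j) := by
        funext j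
        simp only [Pi.add_apply, map_add]
      rw [h2, map_add, hx, hy, add_zero]
    · intro n
      exact hr.rel n _ (vec_hom (Gr.hom_pr _ n v)) (hv n)
  · intro x y _ _ hx hy
    rw [map_add, hx, hy, add_zero]
  · intro a x _ hx
    rw [ev_smul, hx, smul_zero]

/-- a homogeneous vector over `k` with value zero is zero on the chart `a` -/
theorem Red.mem (hd : Dat0 z ω G S) (hr : Red z ω G S ψ z' ω') (a : Λ) {n : ℤ}
    {v : Fin r → MvPolynomial (Fin N) k} (hv : ∀ j, Hom k N n (v j)) (h : ev z' ω' v = 0) :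
    ∃ e : ℕ, map ψ (G a) ^ e • v ∈ bcS ψ (relMod B z ω) := by
  classical
  choose M C hC hCS hCe using hd.gen a
  have hle : ∀ i, ∃ c, ∑ i, M i = M i + c := fun i => Nat.exists_eq_add_of_le
    (Finset.single_le_sum (f := M) (fun _ _ => Nat.zero_le _) (Finset.mem_univ i))
  choose c hc using hle
  generalize ∑ i, M i = Mx at hc
  -- the relations over `B`
  have h1 : ∀ i, (fun s => G a ^ Mx * (Pi.single i 1 : Fin r → MvPolynomial (Fin N) B) s -
      G a ^ c i * C i s) ∈ relMod B z ω := by
    intro i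
    refine mem_relMod_of_hom (n := (Mx : ℤ)) (fun s => ?_) ?_
    · refine hom_sub ?_ ?_
      · have h2 := hom_pow (hd.hG a) Mx
        rw [mul_one] at h2
        by_cases hs : s = i
        · subst hs
          rw [Pi.single_eq_same, mul_one]
          exact h2
        · rw [Pi.single_eq_of_ne hs, mul_zero]
          exact hom_iff.2 (Gr.Hom.zero _ _)
      · have h2 := hom_mul (hom_pow (hd.hG a) (c i)) (hC i s)
        convert h2 using 1
        rw [hc i]
        push_cast
        ring
    · rw [ev_apply]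
      simp only [_root_.map_sub, map_mul, map_pow, sub_smul, Finset.sum_sub_distrib]
      have h2 : ∑ s, ((aeval z (G a) : L) ^ Mx *
          (aeval z ((Pi.single i 1 : Fin r → MvPolynomial (Fin N) B) s) : L)) • ω s =
          (aeval z (G a) : L) ^ Mx • ω i := by
        rw [Finset.sum_eq_single i]
        · rw [Pi.single_eq_same, map_one, mul_one]
        · intro s _ hs
          rw [Pi.single_eq_of_ne hs, map_zero, mul_zero, zero_smul]
        · intro hi
          exact absurd (Finset.mem_univ i) hi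
      rw [h2]
      have h3 : ∑ s, ((aeval z (G a) : L) ^ c i * (aeval z (C i s) : L)) • ω s =
          (aeval z (G a) : L) ^ c i • ∑ s, (aeval z (C i s) : L) • ω s := by
        rw [Finset.smul_sum]
        exact Finset.sum_congr rfl fun s _ => mul_smul _ _ _
      rw [h3, ← hCe i, smul_smul, ← pow_add, add_comm (c i), ← hc i, sub_self]
  -- over `k`
  have h2 : ∀ i, (fun s => map ψ (G a) ^ Mx *
      (Pi.single i 1 : Fin r → MvPolynomial (Fin N) k) s - map ψ (G a) ^ c i * map ψ (C i s)) ∈
      bcS ψ (relMod B z ω) := by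
    intro i
    refine Submodule.subset_span ⟨_, h1 i, ?_⟩
    funext s
    change map ψ _ = _
    rw [_root_.map_sub, map_mul, map_mul, map_pow, map_pow]
    by_cases hs : s = i
    · subst hs
      rw [Pi.single_eq_same, Pi.single_eq_same, map_one]
    · rw [Pi.single_eq_of_ne hs, Pi.single_eq_of_ne hs, map_zero]
  let f : Fin r → MvPolynomial (Fin N) k := fun s =>
    ∑ i, v i * (map ψ (G a) ^ c i * map ψ (C i s))
  have h3 : map ψ (G a) ^ Mx • v - f ∈ bcS ψ (relMod B z ω) := by
    have h4 : map ψ (G a) ^ Mx • v - f = ∑ i, v i • (fun s =>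
        map ψ (G a) ^ Mx * (Pi.single i 1 : Fin r → MvPolynomial (Fin N) k) s -
          map ψ (G a) ^ c i * map ψ (C i s)) := by
      funext s
      rw [Finset.sum_apply]
      simp only [Pi.smul_apply, Pi.sub_apply, smul_eq_mul, mul_sub, Finset.sum_sub_distrib, f]
      congr 1
      rw [Finset.sum_eq_single s]
      · rw [Pi.single_eq_same, mul_one, mul_comm]
      · intro i _ hi
        rw [Pi.single_eq_of_ne hi.symm, mul_zero, mul_zero]
      · intro hi
        exact absurd (Finset.mem_univ s) hi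
    rw [h4]
    exact Submodule.sum_mem _ fun i _ => Submodule.smul_mem _ _ (h2 i)
  have h4 : ev z' ω' f = 0 := by
    have h5 := hr.ev_eq_zero h3
    rw [_root_.map_sub, ev_smul, h, smul_zero, zero_sub, neg_eq_zero] at h5
    exact h5
  have hfS : ∀ s, s ∉ S a → f s = 0 := fun s hs =>
    Finset.sum_eq_zero fun i _ => by rw [hCS i s hs, map_zero, mul_zero, mul_zero]
  have h5 : (fun s => (aeval z' (f s) : L')) = 0 :=
    hr.ind a _ (fun s hs => by rw [hfS s hs, map_zero]) h4
  have hfh : ∀ s, Hom k N (n + (Mx : ℤ)) (f s) := fun s =>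
    hom_sum _ _ fun i _ => by
      have h6 := hom_mul (hv i) (hom_mul (hom_pow (hom_map ψ (hd.hG a)) (c i)) (hom_map ψ (hC i s)))
      convert h6 using 1
      rw [hc i]
      push_cast
      ring
  have h6 : ∀ s, ∃ e : ℕ, map ψ (G a) ^ e * f s ∈ (relIdeal B z).map (map ψ) := fun s =>
    hr.inj a _ (f s) (hfh s) (congrFun h5 s)
  choose e he using h6
  have hex : ∀ s, ∃ d, ∑ s, e s = d + e s := fun s => by
    obtain ⟨d, hd'⟩ := Nat.exists_eq_add_of_le
      (Finset.single_le_sum (f := e) (fun _ _ => Nat.zero_le _) (Finset.mem_univ s))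
    exact ⟨d, by omega⟩
  generalize ∑ s, e s = Ex at hex
  have h7 : map ψ (G a) ^ Ex • f ∈ bcS ψ (relMod B z ω) := by
    have h8 : map ψ (G a) ^ Ex • f = ∑ s, (map ψ (G a) ^ Ex * f s) •
        (Pi.single s 1 : Fin r → MvPolynomial (Fin N) k) := by
      funext t
      rw [Finset.sum_apply, Finset.sum_eq_single t]
      · rw [Pi.smul_apply, Pi.smul_apply, Pi.single_eq_same, smul_eq_mul, smul_eq_mul, mul_one]
      · intro i _ hi
        rw [Pi.smul_apply, Pi.single_eq_of_ne hi.symm, smul_zero]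
      · intro hi
        exact absurd (Finset.mem_univ t) hi
    rw [h8]
    refine Submodule.sum_mem _ fun s _ => p10b_bcS_kill ψ (fun a ha v => relIdeal_smul ha v) ?_ _
    obtain ⟨d, hd'⟩ := hex s
    rw [hd', pow_add, mul_assoc]
    exact Ideal.mul_mem_left _ _ (he s)
  refine ⟨Ex + Mx, ?_⟩
  have h9 : map ψ (G a) ^ (Ex + Mx) • v = map ψ (G a) ^ Ex •
      (map ψ (G a) ^ Mx • v - f) + map ψ (G a) ^ Ex • f := by
    rw [← smul_add, sub_add_cancel, smul_smul, pow_add]
  rw [h9]
  exact Submodule.add_mem _ (Submodule.smul_mem _ _ h3) h7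

end inj

end Pool.Agent.Lib.MP_732f67_ag.V
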