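import Mathlib

/-!
# Project KM, part V: kernels of matrices over subrings of a field
-/

set_option autoImplicit false

namespace Pool.Agent.Lib.MP_732f67_ag.V

universe u

theorem la_mulVec {k : Type u} [Field k] {n : Type} {s : ℕ} (C : Matrix n (Fin s) k)
    (g : Fin s → k) : C.mulVec g = ∑ j, g j • fun i => C i j := by
  funext i
  rw [Finset.sum_apply]
  change ∑ j, C i j * g j = ∑ j, g j * C i j
  exact Finset.sum_congr rfl fun j _ => mul_comm (C i j) (g j)

theorem la_li {k : Type u} [Field k] {n : Type} [Fintype n] {s : ℕ} (P : Matrix (Fin s) n k)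
    (C : Matrix n (Fin s) k) (h : P * C = 1) : LinearIndependent k (fun j i => C i j) := by
  rw [Fintype.linearIndependent_iff]
  intro g hg
  rw [← la_mulVec] at hg
  have h1 := congrArg P.mulVec hg
  rw [Matrix.mulVec_mulVec, h, Matrix.one_mulVec, Matrix.mulVec_zero] at h1
  exact fun i => congrFun h1 i

theorem la_sp {k : Type u} [Field k] {m n : Type} [Fintype m] [Fintype n] [DecidableEq n] {s : ℕ}
    (M : Matrix m n k) (P : Matrix (Fin s) n k) (C : Matrix n (Fin s) k) (G : Matrix n m k)
    (h : C * P + G * M = 1) (d : n → k) (hd : M.mulVec d = 0) :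
    d = ∑ j, (P.mulVec d) j • fun i => C i j := by
  rw [← la_mulVec, Matrix.mulVec_mulVec]
  have h1 := congrArg (fun A => Matrix.mulVec A d) h
  rw [Matrix.add_mulVec, Matrix.one_mulVec, ← Matrix.mulVec_mulVec d G, hd, Matrix.mulVec_zero,
    add_zero] at h1
  exact h1.symm

/-- the splitting of a linear map -/
theorem la_split {K : Type u} [Field K] {m n : Type} [Fintype m] [Fintype n] [DecidableEq m]
    [DecidableEq n] (M : Matrix m n K) :
    ∃ (s : ℕ) (C : Matrix n (Fin s) K) (P : Matrix (Fin s) n K) (G : Matrix n m K),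
      M * C = 0 ∧ P * C = 1 ∧ C * P + G * M = 1 := by
  set f : (n → K) →ₗ[K] (m → K) := M.mulVecLin with hf
  let c := Module.finBasis K (LinearMap.ker f)
  obtain ⟨p, hp⟩ := LinearMap.exists_leftInverse_of_injective (LinearMap.ker f).subtype
    (Submodule.ker_subtype _)
  have hker : LinearMap.ker f ≤ LinearMap.ker
      ((LinearMap.id : (n → K) →ₗ[K] (n → K)) - (LinearMap.ker f).subtype.comp p) := by
    intro v hv
    have h1 := congrArg (fun q => q ⟨v, hv⟩) hp
    simp only [LinearMap.comp_apply, LinearMap.id_apply, Submodule.subtype_apply] at h1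
    rw [LinearMap.mem_ker, LinearMap.sub_apply, LinearMap.comp_apply, LinearMap.id_apply, h1,
      Submodule.subtype_apply, sub_self]
  obtain ⟨G, hG⟩ := LinearMap.exists_extend
    (((LinearMap.ker f).liftQ _ hker).comp (f.quotKerEquivRange.symm.toLinearMap))
  have hGf : G.comp f = LinearMap.id - (LinearMap.ker f).subtype.comp p := by
    refine LinearMap.ext fun v => ?_
    have h1 := congrArg (fun q => q ⟨f v, LinearMap.mem_range_self f v⟩) hG
    simp only [LinearMap.comp_apply, Submodule.subtype_apply] at h1
    rw [LinearMap.comp_apply, h1]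
    have h2 : f.quotKerEquivRange.symm.toLinearMap ⟨f v, LinearMap.mem_range_self f v⟩ =
        (LinearMap.ker f).mkQ v := by
      change f.quotKerEquivRange.symm _ = _
      exact f.quotKerEquivRange_symm_apply_image v (LinearMap.mem_range_self f v)
    rw [h2]
    exact Submodule.liftQ_apply _ _ v
  let Cl : (Fin (Module.finrank K (LinearMap.ker f)) → K) →ₗ[K] (n → K) :=
    (LinearMap.ker f).subtype.comp c.equivFun.symm.toLinearMap
  let Pl : (n → K) →ₗ[K] (Fin (Module.finrank K (LinearMap.ker f)) → K) :=
    c.equivFun.toLinearMap.comp p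
  have hfM : LinearMap.toMatrix' f = M := LinearMap.toMatrix'_toLin' M
  have h1 : f.comp Cl = 0 := by
    refine LinearMap.ext fun v => ?_
    exact (c.equivFun.symm v).2
  have h2 : Pl.comp Cl = LinearMap.id := by
    refine LinearMap.ext fun v => ?_
    have h3 := congrArg (fun q => q (c.equivFun.symm v)) hp
    simp only [LinearMap.comp_apply, LinearMap.id_apply] at h3
    change c.equivFun (p ((LinearMap.ker f).subtype (c.equivFun.symm v))) = v
    rw [h3, LinearEquiv.apply_symm_apply]
  have h3 : Cl.comp Pl + G.comp f = LinearMap.id := by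
    rw [hGf]
    refine LinearMap.ext fun v => ?_
    change (LinearMap.ker f).subtype (c.equivFun.symm (c.equivFun (p v))) +
      (v - (LinearMap.ker f).subtype (p v)) = v
    rw [LinearEquiv.symm_apply_apply, add_sub_cancel]
  refine ⟨_, LinearMap.toMatrix' Cl, LinearMap.toMatrix' Pl, LinearMap.toMatrix' G, ?_, ?_, ?_⟩
  · conv_lhs => rw [← hfM]
    rw [← LinearMap.toMatrix'_comp, h1, map_zero]
  · rw [← LinearMap.toMatrix'_comp, h2, LinearMap.toMatrix'_id]
  · conv_lhs => rw [← hfM]
    rw [← LinearMap.toMatrix'_comp, ← LinearMap.toMatrix'_comp, ← map_add, h3,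
      LinearMap.toMatrix'_id]

/-- **the kernel of a matrix over `K` and the kernels of its reductions**: `c` is a basis of the kernel
of `M`; if the subring `B` contains a certain finite set, then for every ring map from `B` to a field
`k` the kernel of the image of `M` has the image of `c` as a basis.

PROOF. There are matrices `C, P, G` over `K` with `M C = 0`, `P C = 1`, `C P + G M = 1`
(`la_split`); `S` contains all entries of `M, C, P, G`. The identities hold over `B`
(injectivity of `B → K`), so over `k`. -/
theorem la_ker {K : Type u} [Field K] {m n : Type} [Fintype m] [Fintype n] [DecidableEq m]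
    [DecidableEq n] (M : Matrix m n K) :
    ∃ (S : Finset K) (s : ℕ) (c : Fin s → n → K), (∀ j, M.mulVec (c j) = 0) ∧
      LinearIndependent K c ∧ (∀ d : n → K, M.mulVec d = 0 → d ∈ Submodule.span K (Set.range c)) ∧
      ∀ B : Subring K, (S : Set K) ⊆ B →
        ∃ (M' : Matrix m n B) (c' : Fin s → n → B), (∀ i j, (M' i j : K) = M i j) ∧
          (∀ j i, (c' j i : K) = c j i) ∧
          ∀ (k : Type u) [Field k] (φ : B →+* k),
            LinearIndependent k (fun j i => φ (c' j i)) ∧
            ∀ d : n → k, (M'.map φ).mulVec d = 0 →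
              ∃ e : Fin s → k, d = ∑ j, e j • fun i => φ (c' j i) := by
  classical
  obtain ⟨s, C, P, G, hMC, hPC, hCP⟩ := la_split M
  refine ⟨(Finset.univ.image fun p : m × n => M p.1 p.2) ∪
    (Finset.univ.image fun p : n × Fin s => C p.1 p.2) ∪
    (Finset.univ.image fun p : Fin s × n => P p.1 p.2) ∪
    (Finset.univ.image fun p : n × m => G p.1 p.2), s, fun j i => C i j, ?_, la_li P C hPC, ?_, ?_⟩
  · intro j
    have h1 := congrArg (fun A => fun i => A i j) hMC
    exact h1
  · intro d hd
    rw [la_sp M P C G hCP d hd]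
    exact Submodule.sum_mem _ fun j _ => Submodule.smul_mem _ _ (Submodule.subset_span ⟨j, rfl⟩)
  · intro B hB
    have hM : ∀ i j, M i j ∈ B := fun i j => hB (by
      simp only [Finset.coe_union, Set.mem_union, Finset.mem_coe, Finset.mem_image]
      exact Or.inl (Or.inl (Or.inl ⟨(i, j), Finset.mem_univ _, rfl⟩)))
    have hC : ∀ i j, C i j ∈ B := fun i j => hB (by
      simp only [Finset.coe_union, Set.mem_union, Finset.mem_coe, Finset.mem_image]
      exact Or.inl (Or.inl (Or.inr ⟨(i, j), Finset.mem_univ _, rfl⟩)))
    have hP : ∀ i j, P i j ∈ B := fun i j => hB (by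
      simp only [Finset.coe_union, Set.mem_union, Finset.mem_coe, Finset.mem_image]
      exact Or.inl (Or.inr ⟨(i, j), Finset.mem_univ _, rfl⟩))
    have hG : ∀ i j, G i j ∈ B := fun i j => hB (by
      simp only [Finset.coe_union, Set.mem_union, Finset.mem_coe, Finset.mem_image]
      exact Or.inr ⟨(i, j), Finset.mem_univ _, rfl⟩)
    let M' : Matrix m n B := fun i j => ⟨M i j, hM i j⟩
    let C' : Matrix n (Fin s) B := fun i j => ⟨C i j, hC i j⟩
    let P' : Matrix (Fin s) n B := fun i j => ⟨P i j, hP i j⟩
    let G' : Matrix n m B := fun i j => ⟨G i j, hG i j⟩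
    have eM : M'.map B.subtype = M := rfl
    have eC : C'.map B.subtype = C := rfl
    have eP : P'.map B.subtype = P := rfl
    have eG : G'.map B.subtype = G := rfl
    have hinj : Function.Injective B.subtype := B.subtype_injective
    have h1 : P' * C' = 1 := by
      apply Matrix.map_injective hinj
      change (P' * C').map B.subtype = (1 : Matrix (Fin s) (Fin s) B).map B.subtype
      rw [Matrix.map_mul, eP, eC, hPC, Matrix.map_one _ (map_zero _) (map_one _)]
    have h2 : C' * P' + G' * M' = 1 := by
      apply Matrix.map_injective hinj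
      change (C' * P' + G' * M').map B.subtype = (1 : Matrix n n B).map B.subtype
      rw [Matrix.map_add _ (map_add _), Matrix.map_mul, Matrix.map_mul, eP, eC, eG, eM, hCP,
        Matrix.map_one _ (map_zero _) (map_one _)]
    refine ⟨M', fun j i => C' i j, fun i j => rfl, fun j i => rfl, ?_⟩
    intro k _ φ
    have h3 : P'.map φ * C'.map φ = 1 := by
      rw [← Matrix.map_mul, h1, Matrix.map_one _ (map_zero _) (map_one _)]
    have h4 : C'.map φ * P'.map φ + G'.map φ * M'.map φ = 1 := by
      rw [← Matrix.map_mul, ← Matrix.map_mul, ← Matrix.map_add _ (map_add _), h2,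
        Matrix.map_one _ (map_zero _) (map_one _)]
    exact ⟨la_li _ _ h3, fun d hd => ⟨_, la_sp _ _ _ _ h4 d hd⟩⟩

end Pool.Agent.Lib.MP_732f67_ag.V
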