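import Pool.Agent.Lib.MP_732f67_ag.V.Van

/-!
# Project KM, part V: the condition to be a section on one chart, in terms of polynomials
-/

set_option autoImplicit false

namespace Pool.Agent.Lib.MP_732f67_ag.V

open MvPolynomial
open Pool.Agent.Lib.MP_0b721b_ag
open Pool.Agent.Lib.MP_0b721b_ag.St (Hom hom_iff)

variable {k F : Type*} [CommRing k] [Field F] [Algebra k F] {N : ℕ} {z : Fin N → F}

theorem lf_hom_X (j : Fin N) : Hom k N 1 (X j) := hom_iff.2 (polyGr_X (fun _ : Fin N => (1 : ℤ)) j)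

theorem lf_hom_X_pow (j : Fin N) (m : ℕ) : Hom k N m (X j ^ m) := by
  have := hom_pow (lf_hom_X (k := k) j) m
  rwa [mul_one] at this

theorem lf_hom_cast {m n : ℤ} {f : MvPolynomial (Fin N) k} (hf : Hom k N m f) (h : m = n) :
    Hom k N n f := h ▸ hf

theorem crit_eq {s s0 : Fin N} {p0 pa x : F} (hpa : pa ≠ 0) {c q e m : ℕ}
    {V G H : MvPolynomial (Fin N) k} (hV : z s0 ^ c * z s ^ q * p0 = aeval z V * pa)
    (hx : pa * x * z s0 ^ e = p0 * aeval z G) (hH : z s ^ m * x = aeval z H) :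
    (aeval z (X s ^ m * (V * G) - X s0 ^ (e + c) * (X s ^ q * H)) : F) = 0 := by
  rw [_root_.map_sub]
  simp only [map_mul, map_pow, aeval_X]
  apply mul_left_cancel₀ hpa
  rw [mul_zero]
  have e1 : pa * (z s ^ m * ((aeval z V : F) * (aeval z G : F)) -
      z s0 ^ (e + c) * (z s ^ q * (aeval z H : F))) =
      z s ^ m * ((aeval z V * pa) * aeval z G) - z s0 ^ (e + c) * (z s ^ q * (aeval z H : F)) * pa := by
    ring
  rw [e1, ← hV, ← hH]
  have e2 : z s ^ m * (z s0 ^ c * z s ^ q * p0 * (aeval z G : F)) =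
      z s ^ m * z s0 ^ c * z s ^ q * (p0 * (aeval z G : F)) := by ring
  rw [e2, ← hx]
  ring

theorem crit_hom {s s0 : Fin N} {c q e m : ℕ} {V G H : MvPolynomial (Fin N) k}
    (hV : Hom k N ((c + q : ℕ) : ℤ) V) (hG : Hom k N e G) (hH : Hom k N m H) :
    Hom k N ((m + (c + q + e) : ℕ) : ℤ)
      (X s ^ m * (V * G) - X s0 ^ (e + c) * (X s ^ q * H)) := by
  refine hom_sub ?_ ?_
  · exact lf_hom_cast (hom_mul (lf_hom_X_pow s m) (hom_mul hV hG)) (by push_cast; ring)
  · exact lf_hom_cast (hom_mul (lf_hom_X_pow s0 (e + c)) (hom_mul (lf_hom_X_pow s q) hH))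
      (by push_cast; ring)

theorem crit_mem (hz : ∀ j, z j ≠ 0) {s s0 : Fin N} {p0 pa : F} (hpa : pa ≠ 0) {c q e m : ℕ}
    {V G : MvPolynomial (Fin N) k} (hVh : Hom k N ((c + q : ℕ) : ℤ) V) (hG : Hom k N e G)
    (hV : z s0 ^ c * z s ^ q * p0 = aeval z V * pa)
    (h : X s ^ m * (V * G) ∈ relIdeal k z ⊔ Ideal.span {X s0 ^ (e + c)}) :
    ∃ H : MvPolynomial (Fin N) k, Hom k N ((m + q : ℕ) : ℤ) H ∧
      z s ^ (m + q) * (p0 * aeval z G / z s0 ^ e / pa) = aeval z H := by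
  obtain ⟨i, hi, y, hy, hiy⟩ := Submodule.mem_sup.1 h
  obtain ⟨H', rfl⟩ := Ideal.mem_span_singleton'.1 hy
  refine ⟨(polyGr k (fun _ : Fin N => (1 : ℤ))).pr ((m + q : ℕ) : ℤ) H',
    hom_iff.2 (Gr.hom_pr _ _ _), ?_⟩
  have hh : Hom k N ((m + q : ℕ) + (e + c : ℕ) : ℤ) (X s ^ m * (V * G)) :=
    lf_hom_cast (hom_mul (lf_hom_X_pow s m) (hom_mul hVh hG)) (by push_cast; ring)
  have h1 := congrArg ((polyGr k (fun _ : Fin N => (1 : ℤ))).pr
    ((m + q : ℕ) + (e + c : ℕ) : ℤ)) hiy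
  have h2 := hom_iff.1 hh
  unfold Gr.Hom at h2
  rw [h2, map_add] at h1
  have h3 := polyGr_op (hom_iff.1 (lf_hom_X_pow (k := k) s0 (e + c))) ((m + q : ℕ) : ℤ) H'
  rw [smul_eq_mul, smul_eq_mul] at h3
  rw [mul_comm H', h3] at h1
  have h4 := congrArg (aeval z : MvPolynomial (Fin N) k →ₐ[k] F) h1
  rw [map_add, hi, zero_add] at h4
  simp only [map_mul, map_pow, aeval_X] at h4
  have hs := hz s
  have hs0 := hz s0
  have h5 : z s ^ (m + q) * (p0 * (aeval z G : F) / z s0 ^ e / pa) * (z s0 ^ (e + c) * pa) =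
      z s ^ m * (z s0 ^ c * z s ^ q * p0) * aeval z G := by
    field_simp
    ring
  apply mul_right_cancel₀ (mul_ne_zero (pow_ne_zero (e + c) hs0) hpa)
  rw [h5, hV]
  calc z s ^ m * ((aeval z V : F) * pa) * (aeval z G : F)
      = z s ^ m * ((aeval z V : F) * (aeval z G : F)) * pa := by ring
    _ = _ := by rw [← h4]; ring

/-- a homogeneous polynomial is the sum of its monomials -/
theorem hom_monomials {e : ℕ} {P : MvPolynomial (Fin N) k} (hP : Hom k N e P) :
    P = ∑ i : Finset.finsuppAntidiag (Finset.univ : Finset (Fin N)) e,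
      P.coeff i.1 • monomial i.1 1 := by
  classical
  have h1 : P = ∑ d ∈ Finset.finsuppAntidiag (Finset.univ : Finset (Fin N)) e,
      P.coeff d • monomial d 1 := by
    conv_lhs => rw [← P.support_sum_monomial_coeff]
    refine (Finset.sum_subset (fun d hd => ?_) fun d _ hd => ?_).trans
      (Finset.sum_congr rfl fun d _ => ?_)
    · rw [Finset.mem_finsuppAntidiag]
      exact ⟨by exact_mod_cast hP d hd, Finset.subset_univ _⟩
    · rw [notMem_support_iff.1 hd, map_zero]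
    · rw [smul_monomial, smul_eq_mul, mul_one]
  conv_lhs => rw [h1]
  rw [← Finset.sum_coe_sort]

theorem hom_comb {e : ℕ} (d : Finset.finsuppAntidiag (Finset.univ : Finset (Fin N)) e → k) :
    Hom k N e (∑ i, d i • monomial i.1 (1 : k)) := by
  classical
  refine hom_sum _ _ fun i _ => ?_
  rw [smul_monomial, smul_eq_mul, mul_one]
  intro d' hd'
  rw [Finset.mem_singleton.1 (support_monomial_subset hd')]
  have := (Finset.mem_finsuppAntidiag.1 i.2).1
  exact_mod_cast this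

end Pool.Agent.Lib.MP_732f67_ag.V
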