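import Pool.Agent.Lib.MP_732f67_ag.V.Kvan

/-!
# Project KM, part V: uniform Serre vanishing for lattices
-/

set_option autoImplicit false

namespace Pool.Agent.Lib.MP_732f67_ag.V

open MvPolynomial
open Pool.Agent.Lib.MP_0b721b_ag (sgn)
open Pool.Agent.Lib.MP_0b721b_ag.St
open Pool.Agent.Lib.MP_732f67_ag.KC (cd)

universe u v w

variable {Λ : Type} [LinearOrder Λ] [Fintype Λ] {B : Type u} [CommRing B] {N r : ℕ}

omit [LinearOrder Λ] [Fintype Λ] in
theorem fJ_triv {R : Type u} [CommRing R] (G : Λ → MvPolynomial (Fin N) R) (J : Finset Λ) :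
    fJ (triv G) J = ∏ a ∈ J, G a := rfl

omit [LinearOrder Λ] [Fintype Λ] in
theorem dJ_triv {R : Type u} [CommRing R] (G : Λ → MvPolynomial (Fin N) R) (J : Finset Λ) :
    dJ (triv G) J = J.card := by
  unfold dJ
  change ∑ a ∈ J, (1 : ℤ) = _
  rw [Finset.sum_const, nsmul_eq_mul, mul_one]

/-- the value of the Cech differential, on sets with at least two elements -/
theorem ev_del {R : Type u} [CommRing R] {L : Type*} [Field L] [Algebra R L] {E : Type*}
    [AddCommGroup E] [Module L E] (z : Fin N → L) (ω : Fin r → E)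
    (G : Λ → MvPolynomial (Fin N) R) (k : ℕ) (m : Finset Λ → Fin r → MvPolynomial (Fin N) R)
    (x : Finset Λ → E) (J : Finset Λ) (hJ : 2 ≤ J.card)
    (hx : ∀ a ∈ J, (aeval z (fJ (triv G) (J.erase a)) : L) ^ k • x (J.erase a) =
      ev z ω (m (J.erase a))) :
    ev z ω (del (triv G) k m J) = (aeval z (fJ (triv G) J) : L) ^ k • cd x J := by
  unfold del cd
  rw [map_sum, Finset.smul_sum]
  refine Finset.sum_congr rfl fun a ha => ?_
  have h : (J.erase a).Nonempty := by
    rw [← Finset.card_pos, Finset.card_erase_of_mem ha]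
    omega
  rw [dif_pos h, map_zsmul, ev_smul, ← hx a ha]
  change sgn a J • _ = _ • sgn a J • _
  rw [smul_comm ((aeval z (fJ (triv G) J) : L) ^ k)]
  congr 1
  rw [smul_smul]
  congr 1
  change (aeval z (1 * (_ * _) ^ 0 * G a ^ k) : L) * _ = _
  rw [pow_zero, one_mul, one_mul, map_pow, ← mul_pow, ← map_mul]
  congr 2
  rw [fJ_triv, fJ_triv, Finset.mul_prod_erase J G ha]

/-- **uniform Serre vanishing for lattices** -/
theorem kvan [IsNoetherianRing B] {L : Type*} [Field L] [Algebra B L] {E : Type*}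
    [AddCommGroup E] [Module L E] {z : Fin N → L} {ω : Fin r → E}
    {G : Λ → MvPolynomial (Fin N) B} {S : Λ → Finset (Fin r)} (hd : Dat0 z ω G S) :
    ∃ l₀ : ℤ, ∀ (k : Type u) [Field k] (ψ : B →+* k) (L' : Type v) [Field L'] [Algebra k L']
      (E' : Type w) [AddCommGroup E'] [Module L' E'] (z' : Fin N → L') (ω' : Fin r → E'),
      Red z ω G S ψ z' ω' → ∀ n, l₀ ≤ n → ∀ K : Finset Λ → AddSubgroup E',
      (∀ J, J.Nonempty → ∀ x ∈ K J, ∃ (m : ℕ) (v : Fin r → MvPolynomial (Fin N) k),
        (∀ j, Hom k N (n + m * J.card) (v j)) ∧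
        (∏ a ∈ J, (aeval z' (map ψ (G a)) : L')) ^ m • x = ev z' ω' v) →
      (∀ J, J.Nonempty → ∀ (m : ℕ) (v : Fin r → MvPolynomial (Fin N) k) (x : E'),
        (∀ j, Hom k N (n + m * J.card) (v j)) →
        (∏ a ∈ J, (aeval z' (map ψ (G a)) : L')) ^ m • x = ev z' ω' v → x ∈ K J) →
      ∀ b, 1 ≤ b → ∀ x : Finset Λ → E', (∀ J, J.card = b + 1 → x J ∈ K J) →
        (∀ J, J.card = b + 2 → cd x J = 0) →
        ∃ y : Finset Λ → E', (∀ J, J.card = b → y J ∈ K J) ∧
          ∀ J, J.card = b + 1 → cd y J = x J := by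
  classical
  obtain ⟨l₀, h⟩ := van_rel z ω G hd.hG hd.cov
  refine ⟨l₀, fun k _ ψ L' _ _ E' _ _ z' ω' hr n hn K h1 h2 b hb x hx hcd => ?_⟩
  have hg : ∀ J : Finset Λ, (aeval z' (fJ (triv fun a => map ψ (G a)) J) : L') =
      ∏ a ∈ J, (aeval z' (map ψ (G a)) : L') := fun J => by
    rw [fJ_triv, map_prod]
  have hgne : ∀ J : Finset Λ, (aeval z' (fJ (triv fun a => map ψ (G a)) J) : L') ≠ 0 := fun J => by
    rw [hg]
    exact Finset.prod_ne_zero_iff.2 fun a _ => hr.ne a
  -- numerators with a common exponent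
  have h3 : ∀ J : Finset Λ, ∃ (m : ℕ) (v : Fin r → MvPolynomial (Fin N) k), J.card = b + 1 →
      (∀ j, Hom k N (n + m * J.card) (v j)) ∧
      (aeval z' (fJ (triv fun a => map ψ (G a)) J) : L') ^ m • x J = ev z' ω' v := by
    intro J
    by_cases hJ : J.card = b + 1
    · obtain ⟨m, v, h4, h5⟩ := h1 J (by rw [← Finset.card_pos]; omega) (x J) (hx J hJ)
      exact ⟨m, v, fun _ => ⟨h4, by rw [hg]; exact h5⟩⟩
    · exact ⟨0, 0, fun h => absurd h hJ⟩
  choose m v hv using h3
  have hle : ∀ J, ∃ c, ∑ J, m J = m J + c := fun J => Nat.exists_eq_add_of_le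
    (Finset.single_le_sum (f := m) (fun _ _ => Nat.zero_le _) (Finset.mem_univ J))
  choose c hc using hle
  generalize ∑ J, m J = q at hc
  let v' : Finset Λ → Fin r → MvPolynomial (Fin N) k := fun J =>
    if J.card = b + 1 then fJ (triv fun a => map ψ (G a)) J ^ c J • v J else 0
  have hfh : ∀ J : Finset Λ, Hom k N J.card (fJ (triv fun a => map ψ (G a)) J) := by
    intro J
    rw [fJ_triv]
    induction J using Finset.induction_on with
    | empty =>
      rw [Finset.prod_empty, Finset.card_empty]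
      exact hom_one
    | insert a s ha ih =>
      rw [Finset.prod_insert ha, Finset.card_insert_of_notMem ha]
      have := hom_mul (hom_map ψ (hd.hG a)) ih
      push_cast
      rw [add_comm]
      exact this
  have hvh : ∀ J j, Hom k N (n + q * J.card) (v' J j) := by
    intro J j
    by_cases hJ : J.card = b + 1
    · simp only [v', if_pos hJ]
      have h4 := hom_mul (hom_pow (hfh J) (c J)) ((hv J hJ).1 j)
      have h5 : n + (q : ℤ) * J.card = c J * J.card + (n + m J * J.card) := by
        rw [hc J]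
        push_cast
        ring
      rw [h5]
      exact h4
    · simp only [v', if_neg hJ]
      exact hom_zero _
  have hve : ∀ J, J.card = b + 1 → (aeval z' (fJ (triv fun a => map ψ (G a)) J) : L') ^ q • x J =
      ev z' ω' (v' J) := by
    intro J hJ
    simp only [v', if_pos hJ]
    rw [ev_smul, ← (hv J hJ).2, smul_smul, map_pow, ← pow_add, add_comm (c J), ← hc J]
  obtain ⟨l, w, hw1, hw2⟩ := h k ψ n hn b hb q v' (fun J j => by
    rw [dJ_triv, sub_zero]
    exact hvh J j) (fun J hJ => by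
      have h5 := ev_del z' ω' (fun a => map ψ (G a)) q v' x J (by omega) (fun a ha =>
        hve _ (by rw [Finset.card_erase_of_mem ha]; omega))
      rw [hcd J hJ, smul_zero] at h5
      obtain ⟨a, ha⟩ : J.Nonempty := by
        rw [← Finset.card_pos]
        omega
      have h6 : ∀ j, Hom k N (n + q * J.card) (del (triv fun a => map ψ (G a)) q v' J j) := by
        intro j
        unfold del
        rw [Finset.sum_apply]
        refine hom_sum _ _ fun a ha => ?_
        split_ifs with hne
        · refine hom_zsmul ?_ _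
          have h8 := hom_mul (hom_pow (hom_map ψ (hd.hG a)) q) (hvh (J.erase a) j)
          have h9 : (n : ℤ) + q * J.card = q * 1 + (n + q * (J.erase a).card) := by
            rw [← Finset.card_erase_add_one ha]
            push_cast
            ring
          rw [h9]
          change Hom k N _ (1 * (_ * _) ^ 0 * map ψ (G a) ^ q * v' (J.erase a) j)
          rw [pow_zero, one_mul, one_mul]
          exact h8
        · exact hom_zero _
      obtain ⟨e, he⟩ := hr.mem hd a h6 h5
      refine ⟨e, ?_⟩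
      rw [fJ_triv, ← Finset.mul_prod_erase J _ ha, mul_pow, mul_comm, mul_smul]
      exact Submodule.smul_mem _ _ he)
  refine ⟨fun J => ((aeval z' (fJ (triv fun a => map ψ (G a)) J) : L') ^ l)⁻¹ • ev z' ω' (w J),
    fun J hJ => ?_, fun J hJ => ?_⟩
  · refine h2 J (by rw [← Finset.card_pos]; omega) l (w J) _ (fun j => ?_) ?_
    · have := hw1 J j
      rw [dJ_triv, sub_zero] at this
      exact this
    · rw [← hg, smul_smul, mul_inv_cancel₀ (pow_ne_zero _ (hgne J)), one_smul]
  · have h7 := ev_del z' ω' (fun a => map ψ (G a)) l w (fun J =>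
      ((aeval z' (fJ (triv fun a => map ψ (G a)) J) : L') ^ l)⁻¹ • ev z' ω' (w J)) J (by omega)
      (fun a ha => by rw [smul_smul, mul_inv_cancel₀ (pow_ne_zero _ (hgne _)), one_smul])
    obtain ⟨e, he⟩ := hw2 J hJ
    have h8 := hr.ev_eq_zero he
    rw [ev_smul, map_sub, ev_smul, ev_smul, h7, ← hve J hJ, map_pow, map_pow, map_pow] at h8
    have h9 := (smul_eq_zero.1 h8).resolve_left (pow_ne_zero _ (hgne J))
    have h10 : ((triv fun a => map ψ (G a)) : Bun (MvPolynomial (Fin N) k) Λ).t = 0 := rfl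
    rw [h10, mul_zero, add_zero, sub_eq_zero, smul_smul, smul_smul,
      mul_comm ((aeval z' (fJ (triv fun a => map ψ (G a)) J) : L') ^ q)] at h9
    exact (smul_right_injective E' (mul_ne_zero (pow_ne_zero _ (hgne J))
      (pow_ne_zero _ (hgne J))) h9).symm

end Pool.Agent.Lib.MP_732f67_ag.V
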